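import Pool.Agent.H58.BR.Defs
import Pool.Agent.H84.SM.Koebe

/-!
# Koebe distortion with rough constants (row BR-8)
-/

set_option autoImplicit false

namespace Pool.Agent.H58.BR

open Metric Set Filter Topology

/-- Bieberbach for the second derivative at the centre -/
theorem br8_second {g : ℂ → ℂ} (hg : DifferentiableOn ℂ g (ball 0 1)) (hi : InjOn g (ball 0 1)) :
    ‖deriv (deriv g) 0‖ ≤ 4 * ‖deriv g 0‖ := by
  have h0 : (0 : ℂ) ∈ ball (0 : ℂ) 1 := mem_ball_self one_pos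
  have hb : ball (0 : ℂ) 1 ∈ 𝓝 (0 : ℂ) := ball_mem_nhds 0 one_pos
  set c := deriv g 0 with hc
  have hc0 : c ≠ 0 := Pool.Agent.H83.Lo.deriv_ne_zero isOpen_ball hg hi h0
  set k : ℂ → ℂ := fun z => dslope g 0 z / c with hk
  have hkd : DifferentiableOn ℂ k (ball 0 1) :=
    ((Complex.differentiableOn_dslope hb).2 hg).div_const c
  have hk0 : k 0 = 1 := by
    rw [hk]
    simp only
    rw [dslope_same, ← hc, div_self hc0]
  have hzk : ∀ z, z * k z = (g z - g 0) / c := by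
    intro z
    have := sub_smul_dslope g 0 z
    rw [sub_zero, smul_eq_mul] at this
    rw [hk, ← this]
    ring
  clear_value k
  have hki : InjOn (fun z => z * k z) (ball 0 1) := by
    intro z hz z' hz' h
    simp only [hzk] at h
    apply hi hz hz'
    have h2 := (div_left_inj' hc0).1 h
    exact sub_left_injective h2
  have hB := Pool.Agent.H84.SM.bieberbach hkd hk0 hki
  have hgk : ∀ z, g z = g 0 + c * (z * k z) := by
    intro z
    rw [hzk, mul_div_cancel₀ _ hc0]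
    ring
  have hder : ∀ z ∈ ball (0 : ℂ) 1, deriv g z = c * (k z + z * deriv k z) := by
    intro z hz
    have h1 : HasDerivAt k (deriv k z) z :=
      (hkd.differentiableAt (isOpen_ball.mem_nhds hz)).hasDerivAt
    have h2 := (((hasDerivAt_id z).mul h1).const_mul c).const_add (g 0)
    have h3 : g = fun z => g 0 + c * (z * k z) := funext hgk
    rw [h3]
    have h4 : HasDerivAt (fun z => g 0 + c * (z * k z)) (c * (1 * k z + z * deriv k z)) z := h2
    rw [h4.deriv, one_mul]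
  have hkd2 : DifferentiableOn ℂ (deriv k) (ball 0 1) := hkd.deriv isOpen_ball
  have h5 : HasDerivAt (fun z => c * (k z + z * deriv k z))
      (c * (deriv k 0 + (1 * deriv k 0 + 0 * deriv (deriv k) 0))) 0 := by
    have h1 : HasDerivAt k (deriv k 0) 0 := (hkd.differentiableAt hb).hasDerivAt
    have h2 : HasDerivAt (deriv k) (deriv (deriv k) 0) 0 :=
      (hkd2.differentiableAt hb).hasDerivAt
    exact (h1.add ((hasDerivAt_id (0 : ℂ)).mul h2)).const_mul c
  have h6 : deriv g =ᶠ[𝓝 0] fun z => c * (k z + z * deriv k z) := by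
    filter_upwards [hb] with z hz
    exact hder z hz
  rw [h6.deriv_eq, h5.deriv]
  have h7 : c * (deriv k 0 + (1 * deriv k 0 + 0 * deriv (deriv k) 0)) = 2 * deriv k 0 * c := by
    ring
  rw [h7, norm_mul, norm_mul]
  have : ‖(2 : ℂ)‖ = 2 := by simp
  rw [this]
  apply mul_le_mul_of_nonneg_right _ (norm_nonneg _)
  linarith

theorem br8_mem {z t : ℂ} (hz : ‖z‖ ≤ 1 / 4) (ht : t ∈ ball (0 : ℂ) 1) :
    z + (3 / 4 : ℂ) * t ∈ ball (0 : ℂ) 1 := by
  rw [mem_ball_zero_iff] at ht ⊢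
  have h1 : ‖(3 / 4 : ℂ)‖ = 3 / 4 := by
    rw [norm_div]
    simp
  calc ‖z + (3 / 4 : ℂ) * t‖ ≤ ‖z‖ + ‖(3 / 4 : ℂ) * t‖ := norm_add_le _ _
    _ = ‖z‖ + 3 / 4 * ‖t‖ := by rw [norm_mul, h1]
    _ < 1 := by linarith

theorem br8_pre {f : ℂ → ℂ} (hf : DifferentiableOn ℂ f (ball 0 1)) (hi : InjOn f (ball 0 1))
    {z : ℂ} (hz : ‖z‖ ≤ 1 / 4) : ‖deriv (deriv f) z‖ ≤ 6 * ‖deriv f z‖ := by
  set g : ℂ → ℂ := fun t => f (z + (3 / 4 : ℂ) * t) with hg
  have hgd : DifferentiableOn ℂ g (ball 0 1) := by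
    apply hf.comp
    · exact (differentiableOn_const _).add ((differentiableOn_const _).mul differentiableOn_id)
    · intro t ht
      exact br8_mem hz ht
  have hgi : InjOn g (ball 0 1) := by
    intro t ht s hs h
    have h2 := hi (br8_mem hz ht) (br8_mem hz hs) h
    have h3 := add_left_cancel h2
    exact mul_left_cancel₀ (by norm_num) h3
  have hd1 : deriv g = fun t => (3 / 4 : ℂ) * deriv f (z + (3 / 4 : ℂ) * t) := by
    funext t
    have h1 := deriv_comp_mul_left (3 / 4 : ℂ) (fun s => f (z + s)) t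
    have h2 := deriv_comp_const_add (f := f) z ((3 / 4 : ℂ) * t)
    rw [h2, smul_eq_mul] at h1
    exact h1
  have hd2 : deriv (deriv g) 0 = (3 / 4 : ℂ) * ((3 / 4 : ℂ) * deriv (deriv f) z) := by
    rw [hd1]
    have h3 : deriv (fun t => (3 / 4 : ℂ) * deriv f (z + (3 / 4 : ℂ) * t)) 0 =
        (3 / 4 : ℂ) * deriv (fun t => deriv f (z + (3 / 4 : ℂ) * t)) 0 :=
      deriv_const_mul_field _
    have h1 := deriv_comp_mul_left (3 / 4 : ℂ) (fun s => deriv f (z + s)) 0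
    have h2 := deriv_comp_const_add (f := deriv f) z ((3 / 4 : ℂ) * 0)
    rw [h2, smul_eq_mul, mul_zero, add_zero] at h1
    rw [h3]
    congr 1
  have h := br8_second hgd hgi
  have hn : ‖(3 / 4 : ℂ)‖ = 3 / 4 := by
    rw [norm_div]
    simp
  rw [hd2, hd1] at h
  simp only [mul_zero, add_zero, norm_mul, hn] at h
  have := norm_nonneg (deriv f z)
  linarith

/-- Koebe: a point of the complement of the values of `1 / f` on `0 < |z| < ρ` -/
theorem norm_le_of_KK {f : ℂ → ℂ} (hd : DifferentiableOn ℂ f (ball 0 1))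
    (hi : InjOn f (ball 0 1)) (h0 : f 0 = 0) (h1 : deriv f 0 = 1) {ρ : ℝ} (hρ0 : 0 < ρ)
    (hρ : ρ ≤ 1) {v : ℂ} (hv : v ∈ KK f ρ) : ‖v‖ ≤ 4 / ρ := by
  by_cases hv0 : v = 0
  · rw [hv0, norm_zero]
    positivity
  have hmem : ∀ t ∈ ball (0 : ℂ) 1, (ρ : ℂ) * t ∈ ball (0 : ℂ) 1 := by
    intro t ht
    rw [mem_ball_zero_iff] at ht ⊢
    rw [norm_mul, Complex.norm_real, Real.norm_of_nonneg hρ0.le]
    calc ρ * ‖t‖ ≤ 1 * ‖t‖ := mul_le_mul_of_nonneg_right hρ (norm_nonneg _)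
      _ < 1 := by linarith
  have hρc : (ρ : ℂ) ≠ 0 := by exact_mod_cast hρ0.ne'
  set g : ℂ → ℂ := fun t => f ((ρ : ℂ) * t) with hg
  have hgd : DifferentiableOn ℂ g (ball 0 1) := by
    apply hd.comp
    · exact (differentiableOn_const _).mul differentiableOn_id
    · exact hmem
  have hgi : InjOn g (ball 0 1) := by
    intro t ht s hs h
    exact mul_left_cancel₀ hρc (hi (hmem t ht) (hmem s hs) h)
  have hw : v⁻¹ ∉ g '' ball 0 1 := by
    rintro ⟨t, ht, h⟩
    have hf : f ((ρ : ℂ) * t) = v⁻¹ := h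
    have hvf : v * f ((ρ : ℂ) * t) = 1 := by rw [hf, mul_inv_cancel₀ hv0]
    by_cases ht0 : t = 0
    · rw [ht0, mul_zero, h0, mul_zero] at hvf
      exact zero_ne_one hvf
    · refine hv ((ρ : ℂ) * t) ?_ ?_ hvf
      · rw [norm_pos_iff]
        exact mul_ne_zero hρc ht0
      · rw [norm_mul, Complex.norm_real, Real.norm_of_nonneg hρ0.le]
        rw [mem_ball_zero_iff] at ht
        calc ρ * ‖t‖ < ρ * 1 := mul_lt_mul_of_pos_left ht hρ0
          _ = ρ := mul_one ρ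
  have hk := Pool.Agent.H84.SM.koebe hgd hgi hw
  have hg0 : g 0 = 0 := by
    rw [hg]
    simp [h0]
  have hdg : deriv g 0 = (ρ : ℂ) := by
    have := deriv_comp_mul_left (ρ : ℂ) f 0
    rw [mul_zero, h1, smul_eq_mul, mul_one] at this
    exact this
  rw [hg0, hdg, sub_zero, norm_inv, Complex.norm_real, Real.norm_of_nonneg hρ0.le] at hk
  have hvp : 0 < ‖v‖ := norm_pos_iff.2 hv0
  rw [le_div_iff₀ hρ0]
  have h2 := mul_le_mul_of_nonneg_left hk hvp.le
  have h3 : ‖v‖ * (4 * ‖v‖⁻¹) = 4 := by field_simp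
  linarith

/-- distortion with a rough constant -/
theorem distortion : ∃ C : ℝ, 1 ≤ C ∧ ∀ f : ℂ → ℂ, DifferentiableOn ℂ f (ball 0 1) →
    InjOn f (ball 0 1) → f 0 = 0 → deriv f 0 = 1 → ∀ z : ℂ, ‖z‖ ≤ 1 / 4 →
    ‖f z‖ ≤ C * ‖z‖ ∧ 1 / C ≤ ‖deriv f z‖ := by
  refine ⟨Real.exp 2, Real.one_le_exp (by norm_num), ?_⟩
  intro f hd hi h0 h1
  have hdd : DifferentiableOn ℂ (deriv f) (ball 0 1) := hd.deriv isOpen_ball
  have hsub : closedBall (0 : ℂ) (1 / 4) ⊆ ball (0 : ℂ) 1 :=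
    closedBall_subset_ball (by norm_num)
  have hne : ∀ z ∈ ball (0 : ℂ) 1, deriv f z ≠ 0 := fun z hz =>
    Pool.Agent.H83.Lo.deriv_ne_zero isOpen_ball hd hi hz
  obtain ⟨L, hL, hL2⟩ :=
    Pool.Agent.H83.Lo.exists_log_convex isOpen_ball (convex_ball (0 : ℂ) 1) hdd hne
  have hLd : ∀ z ∈ closedBall (0 : ℂ) (1 / 4), ‖deriv L z‖ ≤ 6 := by
    intro z hz
    have hzb := hsub hz
    have h2 : HasDerivAt L (deriv L z) z :=
      (hL.differentiableAt (isOpen_ball.mem_nhds hzb)).hasDerivAt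
    have h3 : HasDerivAt (fun z => Complex.exp (L z)) (Complex.exp (L z) * deriv L z) z := h2.cexp
    have h4 : (fun z => Complex.exp (L z)) =ᶠ[𝓝 z] deriv f := by
      filter_upwards [isOpen_ball.mem_nhds hzb] with w hw
      exact hL2 w hw
    have h5 := (h3.congr_of_eventuallyEq h4.symm).deriv
    have h6 := br8_pre hd hi (mem_closedBall_zero_iff.1 hz)
    rw [h5, hL2 z hzb, norm_mul] at h6
    have h7 : 0 < ‖deriv f z‖ := norm_pos_iff.2 (hne z hzb)
    have h8 : ‖deriv f z‖ * ‖deriv L z‖ ≤ ‖deriv f z‖ * 6 := by linarith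
    exact le_of_mul_le_mul_left h8 h7
  have hc0 : (0 : ℂ) ∈ closedBall (0 : ℂ) (1 / 4) := mem_closedBall_self (by norm_num)
  have hLz : ∀ z ∈ closedBall (0 : ℂ) (1 / 4), ‖L z - L 0‖ ≤ 2 := by
    intro z hz
    have h2 := Convex.norm_image_sub_le_of_norm_deriv_le (𝕜 := ℂ) (f := L) (C := 6)
      (fun w hw => hL.differentiableAt (isOpen_ball.mem_nhds (hsub hw))) hLd
      (convex_closedBall (0 : ℂ) (1 / 4)) hc0 hz
    rw [sub_zero] at h2
    have h3 := mem_closedBall_zero_iff.1 hz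
    linarith
  have hn : ∀ z ∈ closedBall (0 : ℂ) (1 / 4), ‖deriv f z‖ = Real.exp ((L z - L 0).re) := by
    intro z hz
    have h2 : ‖Complex.exp (L 0)‖ = 1 := by
      rw [hL2 0 (hsub hc0), h1, norm_one]
    rw [← Complex.norm_exp, Complex.exp_sub, norm_div, h2, div_one, hL2 z (hsub hz)]
  have hlow : ∀ z ∈ closedBall (0 : ℂ) (1 / 4), 1 / Real.exp 2 ≤ ‖deriv f z‖ := by
    intro z hz
    rw [hn z hz, one_div, ← Real.exp_neg]
    apply Real.exp_le_exp.2
    have h2 := (Complex.abs_re_le_norm (L z - L 0)).trans (hLz z hz)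
    exact (abs_le.1 h2).1
  have hup : ∀ z ∈ closedBall (0 : ℂ) (1 / 4), ‖deriv f z‖ ≤ Real.exp 2 := by
    intro z hz
    rw [hn z hz]
    apply Real.exp_le_exp.2
    have h2 := (Complex.abs_re_le_norm (L z - L 0)).trans (hLz z hz)
    exact (abs_le.1 h2).2
  intro z hz
  have hzc : z ∈ closedBall (0 : ℂ) (1 / 4) := mem_closedBall_zero_iff.2 hz
  refine ⟨?_, hlow z hzc⟩
  have h2 := Convex.norm_image_sub_le_of_norm_deriv_le (𝕜 := ℂ) (f := f) (C := Real.exp 2)
    (fun w hw => hd.differentiableAt (isOpen_ball.mem_nhds (hsub hw))) hup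
    (convex_closedBall (0 : ℂ) (1 / 4)) hc0 hzc
  rwa [sub_zero, h0, sub_zero] at h2

end Pool.Agent.H58.BR
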