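import Pool.Agent.H58.BR.Defs

/-!
# Sums over the roots of unity (row BR-1, MP_f801da_an)
-/

set_option autoImplicit false

namespace Pool.Agent.H58.BR

open Metric Set Filter Topology
open Real (circleAverage)

theorem mem_RU {d : ℕ} (hd : 0 < d) {ζ : ℂ} : ζ ∈ RU d ↔ ζ ^ d = 1 :=
  Polynomial.mem_nthRootsFinset hd _

theorem card_RU {d : ℕ} (hd : 0 < d) : (RU d).card = d :=
  (Complex.isPrimitiveRoot_exp d hd.ne').card_nthRootsFinset

theorem norm_RU {d : ℕ} (hd : 0 < d) {ζ : ℂ} (h : ζ ∈ RU d) : ‖ζ‖ = 1 := by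
  have h1 := (mem_RU hd).1 h
  have h2 : ‖ζ‖ ^ d = 1 := by rw [← norm_pow, h1, norm_one]
  exact (pow_eq_one_iff_of_nonneg (norm_nonneg _) hd.ne').1 h2

theorem sum_RU {d : ℕ} (hd : 2 ≤ d) : ∑ ζ ∈ RU d, ζ = 0 := by
  have hd0 : 0 < d := by omega
  obtain ⟨w, hw⟩ : ∃ w : ℂ, IsPrimitiveRoot w d := ⟨_, Complex.isPrimitiveRoot_exp d hd0.ne'⟩
  have hw0 : w ≠ 0 := hw.ne_zero hd0.ne'
  have h1 : ∑ ζ ∈ RU d, w * ζ = ∑ ζ ∈ RU d, ζ := by
    refine Finset.sum_bij (fun ζ _ => w * ζ) (fun ζ h => ?_) (fun ζ _ ζ' _ h => ?_)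
      (fun ζ h => ⟨w⁻¹ * ζ, ?_, ?_⟩) (fun ζ _ => rfl)
    · rw [mem_RU hd0, mul_pow, hw.pow_eq_one, (mem_RU hd0).1 h, mul_one]
    · exact mul_left_cancel₀ hw0 h
    · rw [mem_RU hd0, mul_pow, inv_pow, hw.pow_eq_one, (mem_RU hd0).1 h, inv_one, mul_one]
    · exact mul_inv_cancel_left₀ hw0 ζ
  rw [← Finset.mul_sum] at h1
  have h2 : (w - 1) * ∑ ζ ∈ RU d, ζ = 0 := by
    rw [sub_mul, h1, one_mul, sub_self]
  refine (mul_eq_zero.1 h2).resolve_left (sub_ne_zero.2 (hw.ne_one (by omega)))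

/-- `∑ |ζ x - y| ^ 2 = d (|x| ^ 2 + |y| ^ 2)` -/
theorem sum_sq_RU {d : ℕ} (hd : 2 ≤ d) (x y : ℂ) :
    ∑ ζ ∈ RU d, ‖ζ * x - y‖ ^ 2 = d * (‖x‖ ^ 2 + ‖y‖ ^ 2) := by
  have hd0 : 0 < d := by omega
  have h1 : ∀ ζ ∈ RU d, ‖ζ * x - y‖ ^ 2 =
      ‖x‖ ^ 2 + ‖y‖ ^ 2 - 2 * (ζ * (x * (starRingEnd ℂ) y)).re := by
    intro ζ hζ
    have h2 : Complex.normSq ζ = 1 := by
      rw [← Complex.sq_norm, norm_RU hd0 hζ, one_pow]
    rw [Complex.sq_norm, Complex.normSq_sub, Complex.sq_norm, Complex.sq_norm, map_mul, h2,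
      one_mul, mul_assoc]
  rw [Finset.sum_congr rfl h1, Finset.sum_sub_distrib, Finset.sum_const, card_RU hd0,
    ← Finset.mul_sum, ← Complex.re_sum, ← Finset.sum_mul, sum_RU hd, zero_mul, Complex.zero_re,
    mul_zero, sub_zero, nsmul_eq_mul]

/-- a sum over the square roots of unity -/
theorem sum_RU_two (G : ℂ → ℝ) : ∑ ζ ∈ RU 2, G ζ = G 1 + G (-1) := by
  have h1 : RU 2 = {1, -1} := by
    ext ζ
    rw [mem_RU two_pos, Finset.mem_insert, Finset.mem_singleton]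
    constructor
    · intro h
      have h2 : (ζ - 1) * (ζ + 1) = 0 := by linear_combination h
      rcases mul_eq_zero.1 h2 with h3 | h3
      · exact Or.inl (sub_eq_zero.1 h3)
      · exact Or.inr (eq_neg_of_add_eq_zero_left h3)
    · rintro (rfl | rfl) <;> norm_num
  rw [h1, Finset.sum_insert, Finset.sum_singleton]
  rw [Finset.mem_singleton]
  norm_num

/-- a sum over the third roots of unity; the product of the `|ζ x - y|` is `|x ^ 3 - y ^ 3|` -/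
theorem sum_RU_three : ∃ w : ℂ, (∀ G : ℂ → ℝ, ∑ ζ ∈ RU 3, G ζ = G 1 + G w + G (w ^ 2)) ∧
    ∀ x y : ℂ, ‖x - y‖ * ‖w * x - y‖ * ‖w ^ 2 * x - y‖ = ‖x ^ 3 - y ^ 3‖ := by
  obtain ⟨w, hw⟩ : ∃ w : ℂ, IsPrimitiveRoot w 3 :=
    ⟨_, Complex.isPrimitiveRoot_exp 3 (by norm_num)⟩
  have hw3 : w ^ 3 = 1 := hw.pow_eq_one
  have hw1 : w ≠ 1 := hw.ne_one (by norm_num)
  have hw0 : w ≠ 0 := hw.ne_zero (by norm_num)
  have hs : 1 + w + w ^ 2 = 0 := by
    have h1 : (w - 1) * (1 + w + w ^ 2) = 0 := by linear_combination hw3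
    exact (mul_eq_zero.1 h1).resolve_left (sub_ne_zero.2 hw1)
  have hw2 : w ^ 2 ≠ 1 := by
    intro h
    apply hw1
    have h1 : w ^ 3 = w * w ^ 2 := by ring
    rw [hw3, h, mul_one] at h1
    exact h1.symm
  have hw21 : w ≠ w ^ 2 := by
    intro h
    apply hw1
    have h1 : w * (w - 1) = 0 := by linear_combination -h
    exact sub_eq_zero.1 ((mul_eq_zero.1 h1).resolve_left hw0)
  refine ⟨w, fun G => ?_, fun x y => ?_⟩
  · have h1 : RU 3 = {1, w, w ^ 2} := by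
      ext ζ
      rw [mem_RU three_pos, Finset.mem_insert, Finset.mem_insert, Finset.mem_singleton]
      constructor
      · intro h
        have h2 : (ζ - 1) * ((ζ - w) * (ζ - w ^ 2)) = 0 := by
          linear_combination h - hw3 + (-ζ ^ 2 + ζ * w) * hs
        rcases mul_eq_zero.1 h2 with h3 | h3
        · exact Or.inl (sub_eq_zero.1 h3)
        rcases mul_eq_zero.1 h3 with h4 | h4
        · exact Or.inr (Or.inl (sub_eq_zero.1 h4))
        · exact Or.inr (Or.inr (sub_eq_zero.1 h4))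
      · rintro (rfl | rfl | rfl)
        · norm_num
        · exact hw3
        · rw [← pow_mul, mul_comm, pow_mul, hw3, one_pow]
    rw [h1, Finset.sum_insert, Finset.sum_insert, Finset.sum_singleton]
    · ring
    · rw [Finset.mem_singleton]
      exact hw21
    · rw [Finset.mem_insert, Finset.mem_singleton]
      rintro (h | h)
      · exact hw1 h.symm
      · exact hw2 h.symm
  · rw [← norm_mul, ← norm_mul]
    congr 1
    linear_combination (x ^ 3) * hw3 + (-w * x ^ 2 * y + x * y ^ 2) * hs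

end Pool.Agent.H58.BR
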