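import Pool.Agent.H58.BR.Defs
import Pool.Agent.H58.BR.Roots

/-!
# BR-2: circle averages

Rotations, powers, and averages over the rotations by the roots of unity.
-/

set_option autoImplicit false

namespace Pool.Agent.H58.BR

open Metric Set Filter Topology
open Real (circleAverage)

theorem br2_circInt {ρ : ℝ} (hρ : 0 < ρ) {g : ℂ → ℝ}
    (hg : ContinuousOn g (sphere 0 ρ)) : CircleIntegrable g 0 ρ :=
  ContinuousOn.circleIntegrable hρ.le hg

theorem br2_cont {ρ : ℝ} (hρ : 0 < ρ) {g : ℂ → ℝ}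
    (hg : ContinuousOn g (sphere 0 ρ)) : Continuous (fun t => g (circleMap 0 ρ t)) := by
  have h1 : ContinuousOn (fun t => g (circleMap 0 ρ t)) Set.univ :=
    hg.comp (continuous_circleMap 0 ρ).continuousOn
      (fun t _ => circleMap_mem_sphere 0 hρ.le t)
  exact continuousOn_univ.1 h1

theorem br2_per {ρ : ℝ} (g : ℂ → ℝ) :
    Function.Periodic (fun t => g (circleMap 0 ρ t)) (2 * Real.pi) :=
  fun x => by simp [periodic_circleMap 0 ρ x]

theorem avg_rot {ζ : ℂ} (hζ : ‖ζ‖ = 1) {ρ : ℝ} (hρ : 0 < ρ) {g : ℂ → ℝ}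
    (hg : ContinuousOn g (sphere 0 ρ)) :
    circleAverage (fun z => g (ζ * z)) 0 ρ = circleAverage g 0 ρ := by
  have _h := hρ
  have _h' := hg
  rw [Real.circleAverage_eq_integral_add (f := g) (Complex.arg ζ), Real.circleAverage_def]
  congr 1
  apply intervalIntegral.integral_congr
  intro t _
  have h1 : ζ * circleMap 0 ρ t = circleMap 0 ρ (t + Complex.arg ζ) := by
    have h2 : ζ = Complex.exp (Complex.arg ζ * Complex.I) := by
      have h3 := Complex.norm_mul_exp_arg_mul_I ζ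
      rw [hζ] at h3
      simpa using h3.symm
    simp only [circleMap, zero_add]
    conv_lhs => rw [h2]
    push_cast
    rw [add_mul, Complex.exp_add]
    ring
  simp only [h1]

theorem avg_pow {d : ℕ} (hd : 0 < d) {ρ : ℝ} (hρ : 0 < ρ) {h : ℂ → ℝ}
    (hh : ContinuousOn h (sphere 0 (ρ ^ d))) :
    circleAverage (fun z => h (z ^ d)) 0 ρ = circleAverage h 0 (ρ ^ d) := by
  have hd0 : (d : ℝ) ≠ 0 := by exact_mod_cast hd.ne'
  have hρd : 0 < ρ ^ d := pow_pos hρ d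
  rw [Real.circleAverage_def, Real.circleAverage_def]
  congr 1
  have h1 : ∀ t : ℝ, (circleMap 0 ρ t) ^ d = circleMap 0 (ρ ^ d) (d * t) := by
    intro t
    simp only [circleMap, zero_add, mul_pow]
    rw [← Complex.exp_nat_mul]
    push_cast
    congr 2
    ring
  simp only [h1]
  rw [intervalIntegral.integral_comp_mul_left (fun t => h (circleMap 0 (ρ ^ d) t)) hd0]
  have h2 := (br2_per (ρ := ρ ^ d) h).intervalIntegral_add_zsmul_eq (d : ℤ) 0
    (fun a b => (br2_cont hρd hh).intervalIntegrable a b)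
  have h3 : (0 : ℝ) + (d : ℤ) • (2 * Real.pi) = d * (2 * Real.pi) := by
    simp
  rw [h3, zero_add] at h2
  rw [mul_zero, h2, smul_eq_mul, zsmul_eq_mul]
  push_cast
  rw [← mul_assoc, inv_mul_cancel₀ hd0, one_mul]

theorem avg_le {ρ : ℝ} (hρ : 0 < ρ) {g : ℂ → ℝ} (hg : ContinuousOn g (sphere 0 ρ)) {B : ℝ}
    (hB : ∀ z ∈ sphere (0 : ℂ) ρ, g z ≤ B) : circleAverage g 0 ρ ≤ B := by
  apply Real.circleAverage_mono_on_of_le_circle (br2_circInt hρ hg)
  rw [abs_of_pos hρ]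
  exact hB

theorem avg_step {d : ℕ} (hd : 0 < d) {ρ : ℝ} (hρ : 0 < ρ) {g h : ℂ → ℝ}
    (hg : ContinuousOn g (sphere 0 ρ)) (hh : ContinuousOn h (sphere 0 (ρ ^ d)))
    (hh0 : ∀ w ∈ sphere (0 : ℂ) (ρ ^ d), 0 ≤ h w) {μ : ℝ}
    (hμ : ∀ z ∈ sphere (0 : ℂ) ρ, ∑ ζ ∈ RU d, g (ζ * z) ≤ d * μ) :
    circleAverage (fun z => g z * h (z ^ d)) 0 ρ ≤ μ * circleAverage h 0 (ρ ^ d) := by
  have hd0 : (0 : ℝ) < d := by exact_mod_cast hd
  have hρd : 0 < ρ ^ d := pow_pos hρ d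
  have hpow : ∀ z ∈ sphere (0 : ℂ) ρ, z ^ d ∈ sphere (0 : ℂ) (ρ ^ d) := by
    intro z hz
    rw [mem_sphere_zero_iff_norm] at hz ⊢
    rw [norm_pow, hz]
  have hrot : ∀ ζ ∈ RU d, ∀ z ∈ sphere (0 : ℂ) ρ, ζ * z ∈ sphere (0 : ℂ) ρ := by
    intro ζ hζ z hz
    rw [mem_sphere_zero_iff_norm] at hz ⊢
    rw [norm_mul, norm_RU hd hζ, hz, one_mul]
  have hH : ContinuousOn (fun z : ℂ => h (z ^ d)) (sphere 0 ρ) :=
    hh.comp (continuous_pow d).continuousOn hpow
  have hG : ContinuousOn (fun z : ℂ => g z * h (z ^ d)) (sphere 0 ρ) := hg.mul hH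
  have hgr : ∀ ζ ∈ RU d, ContinuousOn (fun z : ℂ => g (ζ * z)) (sphere 0 ρ) := by
    intro ζ hζ
    exact hg.comp (continuous_const.mul continuous_id).continuousOn (hrot ζ hζ)
  have h1 : ∀ ζ ∈ RU d, circleAverage (fun z => g (ζ * z) * h (z ^ d)) 0 ρ =
      circleAverage (fun z => g z * h (z ^ d)) 0 ρ := by
    intro ζ hζ
    rw [← avg_rot (norm_RU hd hζ) hρ hG]
    congr 1
    funext z
    rw [mul_pow, (mem_RU hd).1 hζ, one_mul]
  have h2 : ∑ ζ ∈ RU d, circleAverage (fun z => g (ζ * z) * h (z ^ d)) 0 ρ =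
      d * circleAverage (fun z => g z * h (z ^ d)) 0 ρ := by
    rw [Finset.sum_congr rfl h1, Finset.sum_const, card_RU hd, nsmul_eq_mul]
  have h3 : ∑ ζ ∈ RU d, circleAverage (fun z => g (ζ * z) * h (z ^ d)) 0 ρ =
      circleAverage (fun z => ∑ ζ ∈ RU d, g (ζ * z) * h (z ^ d)) 0 ρ := by
    rw [Real.circleAverage_fun_sum]
    intro ζ hζ
    exact br2_circInt hρ ((hgr ζ hζ).mul hH)
  have h4 : circleAverage (fun z => ∑ ζ ∈ RU d, g (ζ * z) * h (z ^ d)) 0 ρ ≤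
      circleAverage (fun z => (d * μ) * h (z ^ d)) 0 ρ := by
    apply Real.circleAverage_mono
    · exact br2_circInt hρ (continuousOn_finsetSum _ (fun ζ hζ => (hgr ζ hζ).mul hH))
    · exact br2_circInt hρ (continuousOn_const.mul hH)
    · rw [abs_of_pos hρ]
      intro z hz
      rw [← Finset.sum_mul]
      exact mul_le_mul_of_nonneg_right (hμ z hz) (hh0 _ (hpow z hz))
  have h5 : circleAverage (fun z => (d * μ) * h (z ^ d)) 0 ρ =
      (d * μ) * circleAverage h 0 (ρ ^ d) := by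
    rw [← avg_pow hd hρ hh]
    exact Real.circleAverage_fun_smul (a := (d * μ : ℝ)) (f := fun z : ℂ => h (z ^ d))
  have h6 : (d : ℝ) * circleAverage (fun z => g z * h (z ^ d)) 0 ρ ≤
      d * (μ * circleAverage h 0 (ρ ^ d)) := by
    rw [← h2, h3]
    refine h4.trans (le_of_eq ?_)
    rw [h5]; ring
  exact le_of_mul_le_mul_left h6 hd0

end Pool.Agent.H58.BR
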