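import Pool.Agent.H58.BR.Defs

/-! Row BR-4: perimeters of triangles in `S` and `T` when `v ^ d + c ∈ T` for `v ∈ S`. -/

set_option autoImplicit false

namespace Pool.Agent.H58.BR

open Metric Set

theorem parallelo (x y : ℂ) :
    (‖x - y‖ + ‖x + y‖) ^ 2 = 2 * (‖x‖ ^ 2 + ‖y‖ ^ 2 + ‖x ^ 2 - y ^ 2‖) := by
  have h1 : ‖x - y‖ * ‖x + y‖ = ‖x ^ 2 - y ^ 2‖ := by
    rw [← norm_mul]
    congr 1
    ring
  have h2 := parallelogram_law_with_norm ℝ x y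
  nlinarith [h1, h2]

/-- what the perimeters of `T` say about two points of `S` -/
theorem pair_bound {S T : Set ℂ} {c : ℂ} {p : ℝ} {d : ℕ} (hST : ∀ v ∈ S, v ^ d + c ∈ T)
    (hc : c ∈ T) (hT : PB T p) {x y : ℂ} (hx : x ∈ S) (hy : y ∈ S) :
    ‖x‖ ^ d + ‖y‖ ^ d + ‖x ^ d - y ^ d‖ ≤ p ∧ ‖x‖ ^ d ≤ p / 2 ∧ ‖y‖ ^ d ≤ p / 2 := by
  have key : ∀ v : ℂ, v ∈ S → ‖v‖ ^ d ≤ p / 2 := by
    intro v hv
    have h := hT c hc c hc (v ^ d + c) (hST v hv)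
    have e1 : ‖c - (v ^ d + c)‖ = ‖v‖ ^ d := by
      rw [← norm_pow, ← norm_neg]
      congr 1
      ring
    have e2 : ‖v ^ d + c - c‖ = ‖v‖ ^ d := by
      rw [← norm_pow]
      congr 1
      ring
    rw [e1, e2, sub_self, norm_zero] at h
    linarith
  refine ⟨?_, key x hx, key y hy⟩
  have h := hT c hc (x ^ d + c) (hST x hx) (y ^ d + c) (hST y hy)
  have e1 : ‖c - (x ^ d + c)‖ = ‖x‖ ^ d := by
    rw [← norm_pow, ← norm_neg]
    congr 1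
    ring
  have e2 : ‖y ^ d + c - c‖ = ‖y‖ ^ d := by
    rw [← norm_pow]
    congr 1
    ring
  have e3 : ‖x ^ d + c - (y ^ d + c)‖ = ‖x ^ d - y ^ d‖ := by
    congr 1
    ring
  rw [e1, e2, e3] at h
  linarith

theorem perim_two {S T : Set ℂ} {c : ℂ} {p : ℝ} (hS : ∀ v ∈ S, -v ∈ S)
    (hST : ∀ v ∈ S, v ^ 2 + c ∈ T) (hc : c ∈ T) (hT : PB T p) :
    PB S (2 * Real.sqrt (2 * p)) := by
  have _ := hS
  have key : ∀ x ∈ S, ∀ y ∈ S, ‖x - y‖ + ‖x + y‖ ≤ Real.sqrt (2 * p) := by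
    intro x hx y hy
    apply Real.le_sqrt_of_sq_le
    rw [parallelo]
    have h := (pair_bound hST hc hT hx hy).1
    linarith
  intro a ha b hb e he
  have h1 := key a ha b hb
  have h2 := key b hb e he
  have h3 := key e he a ha
  have t1 : ‖a - b‖ ≤ ‖e + a‖ + ‖b + e‖ := by
    have h := norm_sub_le (e + a) (b + e)
    have e1 : e + a - (b + e) = a - b := by ring
    rwa [e1] at h
  have t2 : ‖b - e‖ ≤ ‖a + b‖ + ‖e + a‖ := by
    have h := norm_sub_le (a + b) (e + a)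
    have e1 : a + b - (e + a) = b - e := by ring
    rwa [e1] at h
  have t3 : ‖e - a‖ ≤ ‖b + e‖ + ‖a + b‖ := by
    have h := norm_sub_le (b + e) (a + b)
    have e1 : b + e - (a + b) = e - a := by ring
    rwa [e1] at h
  linarith

theorem perim_ge {S T : Set ℂ} {c : ℂ} {p : ℝ} {d : ℕ} (hd : 1 ≤ d)
    (hST : ∀ v ∈ S, v ^ d + c ∈ T) (hc : c ∈ T) (hT : PB T p) :
    PB S (3 * Real.sqrt 3 * (p / 2) ^ (1 / (d : ℝ))) := by
  have hp : 0 ≤ p := by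
    have h := hT c hc c hc c hc
    simp at h
    exact h
  have hR : 0 ≤ (p / 2) ^ (1 / (d : ℝ)) := Real.rpow_nonneg (by linarith) _
  have key : ∀ v ∈ S, ‖v‖ ≤ (p / 2) ^ (1 / (d : ℝ)) := by
    intro v hv
    have h := (pair_bound hST hc hT hv hv).2.1
    have e : ‖v‖ = (‖v‖ ^ d) ^ (1 / (d : ℝ)) := by
      rw [one_div, Real.pow_rpow_inv_natCast (norm_nonneg v) (by omega)]
    rw [e]
    exact Real.rpow_le_rpow (pow_nonneg (norm_nonneg v) _) h (by positivity)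
  intro a ha b hb e he
  have ka := key a ha
  have kb := key b hb
  have ke := key e he
  generalize (p / 2) ^ (1 / (d : ℝ)) = R at hR ka kb ke
  have id1 : ‖a - b‖ ^ 2 + ‖b - e‖ ^ 2 + ‖e - a‖ ^ 2 =
      3 * (‖a‖ ^ 2 + ‖b‖ ^ 2 + ‖e‖ ^ 2) - ‖a + b + e‖ ^ 2 := by
    simp only [Complex.sq_norm, Complex.normSq_apply, Complex.sub_re, Complex.sub_im,
      Complex.add_re, Complex.add_im]
    ring
  have sa : ‖a‖ ^ 2 ≤ R ^ 2 := pow_le_pow_left₀ (norm_nonneg a) ka 2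
  have sb : ‖b‖ ^ 2 ≤ R ^ 2 := pow_le_pow_left₀ (norm_nonneg b) kb 2
  have se : ‖e‖ ^ 2 ≤ R ^ 2 := pow_le_pow_left₀ (norm_nonneg e) ke 2
  have s3 : Real.sqrt 3 ^ 2 = 3 := Real.sq_sqrt (by norm_num)
  have h0 : (0 : ℝ) ≤ 3 * Real.sqrt 3 * R := by positivity
  apply le_of_sq_le_sq _ h0
  have e1 : (3 * Real.sqrt 3 * R) ^ 2 = 27 * R ^ 2 := by
    rw [mul_pow, mul_pow, s3]
    ring
  rw [e1]
  nlinarith [sq_nonneg (‖a - b‖ - ‖b - e‖), sq_nonneg (‖b - e‖ - ‖e - a‖),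
    sq_nonneg (‖e - a‖ - ‖a - b‖), sq_nonneg (‖a + b + e‖)]

end Pool.Agent.H58.BR
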