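import Pool.Agent.H58.BR.Roots
import Pool.Agent.H58.BR.Perim

/-!
# The one-step estimate (row BR-5, MP_f801da_an)
-/

set_option autoImplicit false

namespace Pool.Agent.H58.BR

open Metric Set Filter Topology
open Real (circleAverage)

theorem pair_two {x y : ℂ} {p α : ℝ} (hα : 1 ≤ α)
    (hp : ‖x‖ ^ 2 + ‖y‖ ^ 2 + ‖x ^ 2 - y ^ 2‖ ≤ p) :
    ∑ ζ ∈ RU 2, ‖ζ * x - y‖ ^ α ≤ 2 * ((2 * p) ^ (α / 2) / 2) := by
  rw [sum_RU_two fun ζ => ‖ζ * x - y‖ ^ α]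
  have h1 : ‖1 * x - y‖ = ‖x - y‖ := by rw [one_mul]
  have h2 : ‖-1 * x - y‖ = ‖x + y‖ := by
    rw [← norm_neg]
    congr 1
    ring
  rw [h1, h2]
  have h3 := Real.add_rpow_le_rpow_add (norm_nonneg (x - y)) (norm_nonneg (x + y)) hα
  have h4 := parallelo x y
  have h5 : 0 ≤ ‖x - y‖ + ‖x + y‖ := add_nonneg (norm_nonneg _) (norm_nonneg _)
  have h6 : (‖x - y‖ + ‖x + y‖) ^ α = ((‖x - y‖ + ‖x + y‖) ^ 2) ^ (α / 2) := by
    rw [← Real.rpow_natCast_mul h5]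
    congr 1
    push_cast
    ring
  have h7 : ((‖x - y‖ + ‖x + y‖) ^ 2) ^ (α / 2) ≤ (2 * p) ^ (α / 2) := by
    apply Real.rpow_le_rpow (sq_nonneg _) _ (by linarith)
    rw [h4]
    linarith
  rw [h6] at h3
  linarith

/-- Schur's inequality -/
theorem br5_schur {u v t : ℝ} (hu : 0 ≤ u) (hv : 0 ≤ v) (ht : 0 ≤ t) :
    4 * (u + v + t) * (u * v + v * t + t * u) ≤ (u + v + t) ^ 3 + 9 * (u * v * t) := by
  have key : ∀ a b c : ℝ, 0 ≤ c → c ≤ b → b ≤ a →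
      4 * (a + b + c) * (a * b + b * c + c * a) ≤ (a + b + c) ^ 3 + 9 * (a * b * c) := by
    intro a b c hc hcb hba
    have h1 : 0 ≤ (a - b) * (a - b) * (a + b - c) :=
      mul_nonneg (mul_self_nonneg _) (by linarith)
    have h2 : 0 ≤ c * ((a - c) * (b - c)) :=
      mul_nonneg hc (mul_nonneg (by linarith) (by linarith))
    nlinarith [h1, h2]
  rcases le_total u v with h1 | h1 <;> rcases le_total v t with h2 | h2 <;>
    rcases le_total u t with h3 | h3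
  · have := key t v u hu h1 h2; linarith
  · have := key t v u hu h1 h2; linarith
  · have := key v t u hu h3 h2; linarith
  · have := key v u t ht h3 h1; linarith
  · have := key t u v hv h1 h3; linarith
  · have := key u t v hv h2 h3; linarith
  · have := key u v t ht h2 h1; linarith
  · have := key u v t ht h2 h1; linarith

/-- the cubic inequality -/
theorem br5_cubic {u v t m r k : ℝ} (hu : 0 ≤ u) (hv : 0 ≤ v) (ht : 0 ≤ t) (hm : 0 ≤ m)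
    (hQ : u ^ 2 + v ^ 2 + t ^ 2 = 6 * m ^ 2) (hr : u * v * t = r) (hk0 : 0 < k) (hk : k ^ 2 = 3) :
    (u + v + t) ^ 3 ≤ 12 * k * (2 * m ^ 3 + r) := by
  have hr0 : 0 ≤ r := by rw [← hr]; exact mul_nonneg (mul_nonneg hu hv) ht
  have hk1 : 3 / 2 < k := by nlinarith
  set s := u + v + t with hs
  have hs0 : 0 ≤ s := by positivity
  rcases le_total s (2 * k * m) with h | h
  · have h1 : s ^ 3 ≤ (2 * k * m) ^ 3 := pow_le_pow_left₀ hs0 h 3
    have h2 : (2 * k * m) ^ 3 = 24 * k * m ^ 3 := by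
      have : (2 * k * m) ^ 3 = 8 * k * k ^ 2 * m ^ 3 := by ring
      rw [this, hk]
      ring
    have h3 : 0 ≤ 12 * k * r := by positivity
    nlinarith
  · have h1 := br5_schur hu hv ht
    rw [← hs, hr] at h1
    have h2 : u * v + v * t + t * u = (s ^ 2 - 6 * m ^ 2) / 2 := by
      rw [← hQ, hs]
      ring
    rw [h2] at h1
    have h3 : s * (s ^ 2 - 12 * m ^ 2) / 9 ≤ r := by nlinarith
    have h4 : 12 * k * (2 * m ^ 3 + s * (s ^ 2 - 12 * m ^ 2) / 9) - s ^ 3 =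
        (s - 2 * k * m) * ((4 * k / 3 - 1) * s ^ 2 + 2 * k * (4 * k / 3 - 1) * m * s
          - 12 * m ^ 2) := by
      have h5 : 12 * k * (2 * m ^ 3 + s * (s ^ 2 - 12 * m ^ 2) / 9) - s ^ 3 -
        (s - 2 * k * m) * ((4 * k / 3 - 1) * s ^ 2 + 2 * k * (4 * k / 3 - 1) * m * s
          - 12 * m ^ 2) = (k ^ 2 - 3) * (4 * (4 * k / 3 - 1) * m ^ 2 * s) := by ring
      rw [hk, sub_self, zero_mul] at h5
      linarith
    have h5 : 0 ≤ (4 * k / 3 - 1) * s ^ 2 + 2 * k * (4 * k / 3 - 1) * m * s - 12 * m ^ 2 := by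
      have h6 : (2 * k * m) ^ 2 ≤ s ^ 2 := pow_le_pow_left₀ (by positivity) h 2
      have h7 : (2 * k * m) ^ 2 = 12 * m ^ 2 := by
        have : (2 * k * m) ^ 2 = 4 * k ^ 2 * m ^ 2 := by ring
        rw [this, hk]
        ring
      rw [h7] at h6
      have h8 : 1 ≤ 4 * k / 3 - 1 := by linarith
      have h9 : 12 * m ^ 2 ≤ (4 * k / 3 - 1) * s ^ 2 := by nlinarith [sq_nonneg s]
      have h10 : 0 ≤ 2 * k * (4 * k / 3 - 1) * m * s := by
        have : 0 ≤ 4 * k / 3 - 1 := by linarith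
        positivity
      linarith
    have h6 : 0 ≤ (s - 2 * k * m) * ((4 * k / 3 - 1) * s ^ 2 + 2 * k * (4 * k / 3 - 1) * m * s
          - 12 * m ^ 2) := mul_nonneg (by linarith) h5
    rw [← h4] at h6
    have h7 : 12 * k * (2 * m ^ 3 + s * (s ^ 2 - 12 * m ^ 2) / 9) ≤ 12 * k * (2 * m ^ 3 + r) :=
      mul_le_mul_of_nonneg_left (by linarith) (by positivity)
    linarith

theorem pair_three {x y : ℂ} {p : ℝ} (hp : ‖x‖ ^ 3 + ‖y‖ ^ 3 + ‖x ^ 3 - y ^ 3‖ ≤ p) :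
    ∑ ζ ∈ RU 3, ‖ζ * x - y‖ ≤ 3 * (4 * p / (3 * Real.sqrt 3)) ^ (1 / 3 : ℝ) := by
  obtain ⟨w, hw1, hw2⟩ := sum_RU_three
  have hQ := sum_sq_RU (d := 3) (by norm_num) x y
  rw [hw1 fun ζ => ‖ζ * x - y‖ ^ 2] at hQ
  rw [hw1 fun ζ => ‖ζ * x - y‖]
  have h2 := hw2 x y
  simp only [one_mul] at hQ ⊢
  set m : ℝ := Real.sqrt ((‖x‖ ^ 2 + ‖y‖ ^ 2) / 2) with hm
  have hm2 : m ^ 2 = (‖x‖ ^ 2 + ‖y‖ ^ 2) / 2 := Real.sq_sqrt (by positivity)
  have hm0 : 0 ≤ m := Real.sqrt_nonneg _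
  have hk : Real.sqrt 3 ^ 2 = 3 := Real.sq_sqrt (by norm_num)
  have hk0 : 0 < Real.sqrt 3 := Real.sqrt_pos.2 (by norm_num)
  have h3 := br5_cubic (norm_nonneg (x - y)) (norm_nonneg (w * x - y))
    (norm_nonneg (w ^ 2 * x - y)) hm0 (by rw [hQ, hm2]; push_cast; ring) h2 hk0 hk
  have hx0 := norm_nonneg x
  have hy0 := norm_nonneg y
  have h4 : 2 * m ^ 3 ≤ ‖x‖ ^ 3 + ‖y‖ ^ 3 := by
    have h5 : 3 * ‖x‖ ^ 2 * m ≤ 2 * ‖x‖ ^ 3 + m ^ 3 := by
      nlinarith [mul_nonneg (add_nonneg (add_nonneg hx0 hx0) hm0) (sq_nonneg (‖x‖ - m))]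
    have h6 : 3 * ‖y‖ ^ 2 * m ≤ 2 * ‖y‖ ^ 3 + m ^ 3 := by
      nlinarith [mul_nonneg (add_nonneg (add_nonneg hy0 hy0) hm0) (sq_nonneg (‖y‖ - m))]
    have h7 : 3 * ‖x‖ ^ 2 * m + 3 * ‖y‖ ^ 2 * m = 6 * m ^ 3 := by
      have : 3 * ‖x‖ ^ 2 * m + 3 * ‖y‖ ^ 2 * m = 6 * ((‖x‖ ^ 2 + ‖y‖ ^ 2) / 2) * m := by ring
      rw [this, ← hm2]
      ring
    linarith
  set s := ‖x - y‖ + ‖w * x - y‖ + ‖w ^ 2 * x - y‖ with hs
  have hs0 : 0 ≤ s := by positivity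
  have h5 : s ^ 3 ≤ 12 * Real.sqrt 3 * p := by
    refine h3.trans (mul_le_mul_of_nonneg_left ?_ (by positivity))
    linarith
  have h6 : (s / 3) ^ 3 ≤ 4 * p / (3 * Real.sqrt 3) := by
    rw [le_div_iff₀ (by positivity)]
    have h7 : (s / 3) ^ 3 * (3 * Real.sqrt 3) = s ^ 3 * Real.sqrt 3 / 9 := by ring
    rw [h7]
    have h8 : s ^ 3 * Real.sqrt 3 ≤ 12 * Real.sqrt 3 * p * Real.sqrt 3 :=
      mul_le_mul_of_nonneg_right h5 hk0.le
    have h9 : 12 * Real.sqrt 3 * p * Real.sqrt 3 = 36 * p := by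
      have : 12 * Real.sqrt 3 * p * Real.sqrt 3 = 12 * Real.sqrt 3 ^ 2 * p := by ring
      rw [this, hk]
      ring
    linarith
  have h7 : s / 3 = ((s / 3) ^ 3) ^ (1 / 3 : ℝ) := by
    rw [← Real.rpow_natCast_mul (by positivity)]
    norm_num
  have h8 : ((s / 3) ^ 3) ^ (1 / 3 : ℝ) ≤ (4 * p / (3 * Real.sqrt 3)) ^ (1 / 3 : ℝ) :=
    Real.rpow_le_rpow (by positivity) h6 (by norm_num)
  rw [← h7] at h8
  linarith

/-- squares from powers -/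
theorem br5_sq {e : ℕ} (he : 2 ≤ e) {X p : ℝ} (hX : 0 ≤ X) (h : X ^ e ≤ p / 2) :
    X ^ 2 ≤ (p / 2) ^ (2 / (e : ℝ)) := by
  have he0 : (e : ℝ) ≠ 0 := by
    have : (0 : ℝ) < e := by exact_mod_cast (by omega : 0 < e)
    exact this.ne'
  have h1 : (X ^ e) ^ (2 / (e : ℝ)) ≤ (p / 2) ^ (2 / (e : ℝ)) :=
    Real.rpow_le_rpow (by positivity) h (by positivity)
  rw [← Real.rpow_natCast_mul hX, mul_div_cancel₀ _ he0] at h1
  rwa [show (2 : ℝ) = ((2 : ℕ) : ℝ) by norm_num, Real.rpow_natCast] at h1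

theorem pair_gen {e : ℕ} (he : 2 ≤ e) {x y : ℂ} {p α : ℝ} (hα : 0 ≤ α) (hα2 : α ≤ 2)
    (hx : ‖x‖ ^ e ≤ p / 2) (hy : ‖y‖ ^ e ≤ p / 2) :
    ∑ ζ ∈ RU e, ‖ζ * x - y‖ ^ α ≤ e * (2 * (p / 2) ^ (2 / (e : ℝ))) ^ (α / 2) := by
  have he0 : (0 : ℝ) < e := by exact_mod_cast (by omega : 0 < e)
  have h1 := (Real.concaveOn_rpow (p := α / 2) (by linarith) (by linarith)).le_map_sum
    (t := RU e) (w := fun _ => (1 / (e : ℝ))) (p := fun ζ => ‖ζ * x - y‖ ^ 2)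
    (fun _ _ => by positivity)
    (by rw [Finset.sum_const, card_RU (by omega), nsmul_eq_mul, mul_one_div_cancel he0.ne'])
    (fun ζ _ => Set.mem_Ici.2 (sq_nonneg _))
  simp only [smul_eq_mul] at h1
  rw [← Finset.mul_sum, ← Finset.mul_sum, sum_sq_RU he] at h1
  have h2 : ∀ ζ ∈ RU e, (‖ζ * x - y‖ ^ 2) ^ (α / 2) = ‖ζ * x - y‖ ^ α := by
    intro ζ _
    rw [← Real.rpow_natCast_mul (norm_nonneg _)]
    congr 1
    push_cast
    ring
  rw [Finset.sum_congr rfl h2] at h1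
  have h3 : 1 / (e : ℝ) * (e * (‖x‖ ^ 2 + ‖y‖ ^ 2)) = ‖x‖ ^ 2 + ‖y‖ ^ 2 := by
    field_simp
  rw [h3] at h1
  have h4 : (‖x‖ ^ 2 + ‖y‖ ^ 2) ^ (α / 2) ≤ (2 * (p / 2) ^ (2 / (e : ℝ))) ^ (α / 2) := by
    apply Real.rpow_le_rpow (by positivity) _ (by linarith)
    have := br5_sq he (norm_nonneg x) hx
    have := br5_sq he (norm_nonneg y) hy
    linarith
  have h5 := h1.trans h4
  rw [one_div, inv_mul_le_iff₀ he0] at h5
  exact h5

/-- the one-step estimate with `p = 8 q` -/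
theorem pair_all {d e : ℕ} (hd : 2 ≤ d) (he : 2 ≤ e) {x y : ℂ} {q : ℝ} (hq : 0 < q)
    (hp : ‖x‖ ^ e + ‖y‖ ^ e + ‖x ^ e - y ^ e‖ ≤ 8 * q) (hx : ‖x‖ ^ e ≤ 4 * q)
    (hy : ‖y‖ ^ e ≤ 4 * q) :
    ∑ ζ ∈ RU e, ‖ζ * x - y‖ ^ al d ≤ e * (MM d e * q ^ (al d / e)) := by
  have hd0 : (2 : ℝ) ≤ d := by exact_mod_cast hd
  have hd1 : 0 < 2 / (d : ℝ) := by positivity
  have hd2 : 2 / (d : ℝ) ≤ 1 := by
    rw [div_le_one (by linarith)]
    exact hd0
  have ha1 : 1 ≤ al d := by unfold al; linarith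
  have ha2 : al d ≤ 2 := by unfold al; linarith
  have ha : al d / 2 = 1 - 1 / (d : ℝ) := by unfold al; ring
  by_cases he2 : e = 2
  · subst he2
    have h1 := pair_two (α := al d) ha1 hp
    refine h1.trans (le_of_eq ?_)
    unfold MM
    rw [if_pos rfl, show (2 : ℝ) * (8 * q) = 16 * q by ring,
      Real.mul_rpow (by norm_num) hq.le, ha]
    push_cast
    rw [ha]
    ring
  · by_cases h23 : d = 2 ∧ e = 3
    · obtain ⟨rfl, rfl⟩ := h23
      have hal : al 2 = 1 := by unfold al; norm_num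
      have h1 := pair_three hp
      rw [hal]
      simp only [Real.rpow_one]
      refine h1.trans (le_of_eq ?_)
      unfold MM
      rw [if_neg he2, if_pos ⟨rfl, rfl⟩,
        show 4 * (8 * q) / (3 * Real.sqrt 3) = 32 / (3 * Real.sqrt 3) * q by ring,
        Real.mul_rpow (by positivity) hq.le]
      push_cast
      ring
    · have h1 := pair_gen he (x := x) (y := y) (p := 8 * q) (α := al d) (by linarith) ha2
        (by linarith) (by linarith)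
      refine h1.trans (le_of_eq ?_)
      unfold MM
      rw [if_neg he2, if_neg h23, show 8 * q / 2 = 4 * q by ring,
        Real.mul_rpow (by norm_num) hq.le, ← mul_assoc,
        Real.mul_rpow (by positivity) (by positivity), ← Real.rpow_mul hq.le, ha]
      congr 3
      rw [← ha]
      ring

end Pool.Agent.H58.BR
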