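import Pool.Agent.H58.BR.Defs

/-!
# BR-6: the constants of the one-step estimate
-/

set_option autoImplicit false

namespace Pool.Agent.H58.BR

open Real

private theorem br6_inv_le {d : ℕ} (hd : 2 ≤ d) : 1 / (d : ℝ) ≤ 1 / 2 := by
  have h : (2 : ℝ) ≤ d := by exact_mod_cast hd
  exact one_div_le_one_div_of_le (by norm_num) h

private theorem br6_inv_pos {d : ℕ} (hd : 2 ≤ d) : 0 < 1 / (d : ℝ) := by
  have h : (2 : ℝ) ≤ d := by exact_mod_cast hd
  positivity

private theorem br6_cube {x : ℝ} (hx : 0 ≤ x) : (x ^ (1 / 3 : ℝ)) ^ 3 = x := by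
  rw [← Real.rpow_natCast, ← Real.rpow_mul hx]
  norm_num

private theorem br6_sixteen : (16 : ℝ) ^ (1 / 2 : ℝ) = 4 := by
  rw [← Real.sqrt_eq_rpow, show (16 : ℝ) = 4 ^ 2 by norm_num, Real.sqrt_sq (by norm_num)]

theorem psi_le {d : ℕ} (hd : 2 ≤ d) : psi d ≤ 4 := by
  have h : (2 : ℝ) ≤ d := by exact_mod_cast hd
  have h0 := br6_inv_pos hd
  have h1 : (16 : ℝ) ^ (1 - 1 / (d : ℝ)) ≤ 16 := by
    calc (16 : ℝ) ^ (1 - 1 / (d : ℝ)) ≤ 16 ^ (1 : ℝ) :=
          Real.rpow_le_rpow_of_exponent_le (by norm_num) (by linarith)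
      _ = 16 := Real.rpow_one _
  unfold psi
  rw [div_le_iff₀ (by positivity)]
  linarith

private theorem br6_four_le {d : ℕ} (hd : 2 ≤ d) : 4 ≤ (16 : ℝ) ^ (1 - 1 / (d : ℝ)) := by
  have h0 := br6_inv_le hd
  calc (4 : ℝ) = 16 ^ (1 / 2 : ℝ) := br6_sixteen.symm
    _ ≤ 16 ^ (1 - 1 / (d : ℝ)) :=
        Real.rpow_le_rpow_of_exponent_le (by norm_num) (by linarith)

theorem psi_ge {d : ℕ} (hd : 2 ≤ d) : 2 / (d : ℝ) ≤ psi d := by
  have h : (2 : ℝ) ≤ d := by exact_mod_cast hd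
  have h1 := br6_four_le hd
  unfold psi
  rw [div_le_div_iff₀ (by positivity) (by positivity)]
  nlinarith

private theorem br6_kap3 : (3 * Real.sqrt 3 * 4 ^ (1 / 3 : ℝ) / 8) ^ 3 =
    81 * Real.sqrt 3 / 128 := by
  have h1 : Real.sqrt 3 ^ 2 = 3 := Real.sq_sqrt (by norm_num)
  have h2 : ((4 : ℝ) ^ (1 / 3 : ℝ)) ^ 3 = 4 := br6_cube (by norm_num)
  have h3 : (3 * Real.sqrt 3 * 4 ^ (1 / 3 : ℝ) / 8) ^ 3 =
      27 * (Real.sqrt 3 ^ 2 * Real.sqrt 3) * ((4 : ℝ) ^ (1 / 3 : ℝ)) ^ 3 / 512 := by ring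
  rw [h3, h1, h2]
  ring

theorem kap_ge (d : ℕ) : 1 ≤ kap d := by
  unfold kap
  split_ifs with h
  · have h1 := br6_kap3
    have h2 : (1.7 : ℝ) ≤ Real.sqrt 3 := by
      apply Real.le_sqrt_of_sq_le
      norm_num
    have h3 : (1 : ℝ) ^ 3 ≤ (3 * Real.sqrt 3 * 4 ^ (1 / 3 : ℝ) / 8) ^ 3 := by
      rw [h1]
      linarith
    exact le_of_pow_le_pow_left₀ (by norm_num) (by positivity) h3
  · exact le_rfl

/-- perimeter recursion in terms of `q = p / 8` -/
theorem perim_q {d : ℕ} (hd : 3 ≤ d) {q : ℝ} (hq : 0 < q) :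
    3 * Real.sqrt 3 * (8 * q / 2) ^ (1 / (d : ℝ)) ≤ 8 * (kap d * q ^ (1 / (d : ℝ))) := by
  have h1 : (8 * q / 2) ^ (1 / (d : ℝ)) = 4 ^ (1 / (d : ℝ)) * q ^ (1 / (d : ℝ)) := by
    rw [← Real.mul_rpow (by norm_num) hq.le]
    congr 1
    ring
  have hq' : 0 < q ^ (1 / (d : ℝ)) := Real.rpow_pos_of_pos hq _
  rw [h1]
  by_cases h3 : d = 3
  · subst h3
    unfold kap
    rw [if_pos rfl]
    apply le_of_eq
    push_cast
    ring
  · have h4 : 4 ≤ d := by omega
    have h4' : (4 : ℝ) ≤ d := by exact_mod_cast h4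
    have h5 : (4 : ℝ) ^ (1 / (d : ℝ)) ≤ Real.sqrt 2 := by
      have h6 : (4 : ℝ) ^ (1 / (d : ℝ)) ≤ 4 ^ (1 / 4 : ℝ) := by
        apply Real.rpow_le_rpow_of_exponent_le (by norm_num)
        exact one_div_le_one_div_of_le (by norm_num) h4'
      have h7 : (4 : ℝ) ^ (1 / 4 : ℝ) = Real.sqrt 2 := by
        rw [Real.sqrt_eq_rpow, show (4 : ℝ) = 2 ^ (2 : ℝ) by norm_num,
          ← Real.rpow_mul (by norm_num)]
        norm_num
      rw [← h7]
      exact h6
    have h8 : 3 * Real.sqrt 3 * 4 ^ (1 / (d : ℝ)) ≤ 8 := by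
      have h9 : Real.sqrt 3 ≤ 1.75 := by
        rw [Real.sqrt_le_left (by norm_num)]
        norm_num
      have h10 : Real.sqrt 2 ≤ 1.5 := by
        rw [Real.sqrt_le_left (by norm_num)]
        norm_num
      have h11 : (0 : ℝ) < 4 ^ (1 / (d : ℝ)) := Real.rpow_pos_of_pos (by norm_num) _
      have h12 : 0 ≤ Real.sqrt 3 := Real.sqrt_nonneg 3
      nlinarith [mul_le_mul h9 (h5.trans h10) h11.le (by norm_num : (0 : ℝ) ≤ 1.75)]
    unfold kap
    rw [if_neg h3, one_mul, ← mul_assoc]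
    exact mul_le_mul_of_nonneg_right h8 hq'.le

private theorem br6_psi_two : psi 2 = 1 := by
  unfold psi
  rw [show (1 : ℝ) - 1 / ((2 : ℕ) : ℝ) = 1 / 2 by norm_num, br6_sixteen]
  norm_num

private theorem br6_four_third : (16 : ℝ) ^ (1 - 1 / ((3 : ℕ) : ℝ)) * 4 ^ (2 / 3 : ℝ) = 16 := by
  have h1 : (16 : ℝ) = 4 ^ (2 : ℝ) := by norm_num
  nth_rewrite 1 [h1]
  rw [← Real.rpow_mul (by norm_num), ← Real.rpow_add (by norm_num), h1]
  norm_num

/-- the right hand side of `pot_step` -/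
private theorem br6_rhs {d e : ℕ} (hd : 2 ≤ d) (he : 2 ≤ e) :
    d * (psi d / psi e) = 16 ^ (1 - 1 / (d : ℝ)) * (e / 16 ^ (1 - 1 / (e : ℝ))) := by
  have h1 : (0 : ℝ) < 16 ^ (1 - 1 / (d : ℝ)) := Real.rpow_pos_of_pos (by norm_num) _
  have h2 : (0 : ℝ) < 16 ^ (1 - 1 / (e : ℝ)) := Real.rpow_pos_of_pos (by norm_num) _
  have hd' : (d : ℝ) ≠ 0 := by positivity
  have he' : (e : ℝ) ≠ 0 := by positivity
  unfold psi
  field_simp

theorem pot_step {d e : ℕ} (hd : 2 ≤ d) (he : 2 ≤ e) {w : ℝ} (hw0 : 0 ≤ w)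
    (hw : w ≤ 2 / (d : ℝ)) : MM d e * kap e ^ w ≤ d * (psi d / psi e) := by
  have hdR : (2 : ℝ) ≤ d := by exact_mod_cast hd
  have hd1 := br6_inv_le hd
  have hd0 := br6_inv_pos hd
  rcases Nat.lt_or_ge e 3 with he3 | he3
  · -- e = 2
    have he2 : e = 2 := by omega
    subst he2
    unfold MM kap
    rw [if_pos rfl, if_neg (by norm_num), Real.one_rpow, mul_one, br6_psi_two, div_one]
    unfold psi
    apply le_of_eq
    field_simp
  rcases Nat.lt_or_ge e 4 with he4 | he4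
  · -- e = 3
    have he2 : e = 3 := by omega
    subst he2
    have hk := kap_ge 3
    have hkv : kap 3 = 3 * Real.sqrt 3 * 4 ^ (1 / 3 : ℝ) / 8 := by
      unfold kap
      rw [if_pos rfl]
    rw [br6_rhs hd he]
    have h16 := br6_four_third
    have h16p : (0 : ℝ) < 16 ^ (1 - 1 / ((3 : ℕ) : ℝ)) := Real.rpow_pos_of_pos (by norm_num) _
    have h4p : (0 : ℝ) < 4 ^ (2 / 3 : ℝ) := Real.rpow_pos_of_pos (by norm_num) _
    have hr : (((3 : ℕ) : ℝ) / 16 ^ (1 - 1 / ((3 : ℕ) : ℝ))) = 3 * 4 ^ (2 / 3 : ℝ) / 16 := by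
      rw [div_eq_div_iff h16p.ne' (by norm_num)]
      push_cast at h16 ⊢
      linarith
    rw [hr]
    by_cases hd2 : d = 2
    · subst hd2
      have h1 : kap 3 ^ w ≤ kap 3 := by
        calc kap 3 ^ w ≤ kap 3 ^ (1 : ℝ) := by
              apply Real.rpow_le_rpow_of_exponent_le hk
              refine hw.trans ?_
              norm_num
          _ = kap 3 := Real.rpow_one _
      have h2 : MM 2 3 = (32 / (3 * Real.sqrt 3)) ^ (1 / 3 : ℝ) := by
        unfold MM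
        rw [if_neg (by norm_num), if_pos ⟨rfl, rfl⟩]
      have h3 : 0 ≤ MM 2 3 := by rw [h2]; positivity
      have h4 : (16 : ℝ) ^ (1 - 1 / ((2 : ℕ) : ℝ)) = 4 := by
        rw [show (1 : ℝ) - 1 / ((2 : ℕ) : ℝ) = 1 / 2 by norm_num, br6_sixteen]
      rw [h4]
      refine (mul_le_mul_of_nonneg_left h1 h3).trans ?_
      have h5 : (MM 2 3 * kap 3) ^ 3 = (4 * (3 * (4 : ℝ) ^ (2 / 3 : ℝ) / 16)) ^ 3 := by
        rw [mul_pow, h2, hkv, br6_kap3, br6_cube (by positivity)]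
        have h6 : ((4 : ℝ) ^ (2 / 3 : ℝ)) ^ 3 = 16 := by
          rw [← Real.rpow_natCast, ← Real.rpow_mul (by norm_num)]
          norm_num
        have h7 : (4 * (3 * (4 : ℝ) ^ (2 / 3 : ℝ) / 16)) ^ 3 =
            27 / 64 * ((4 : ℝ) ^ (2 / 3 : ℝ)) ^ 3 := by ring
        rw [h7, h6]
        have h8 : Real.sqrt 3 ≠ 0 := by positivity
        field_simp
        norm_num
      exact le_of_pow_le_pow_left₀ (by norm_num) (by positivity) h5.le
    · -- e = 3, d ≥ 3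
      have hd3 : 3 ≤ d := by omega
      have hd3R : (3 : ℝ) ≤ d := by exact_mod_cast hd3
      have h1 : kap 3 ^ w ≤ kap 3 ^ (2 / (d : ℝ)) := Real.rpow_le_rpow_of_exponent_le hk hw
      set X : ℝ := 4 ^ (2 / 3 : ℝ) / 8 with hX
      have hXp : 0 < X := by positivity
      have h2 : MM d 3 = 16 ^ (1 - 1 / (d : ℝ)) * X ^ (1 - 1 / (d : ℝ)) := by
        unfold MM
        rw [if_neg (by norm_num), if_neg (fun h => hd2 h.1), ← Real.mul_rpow (by norm_num) hXp.le]
        congr 1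
        rw [hX]
        push_cast
        ring
      have h3 : kap 3 ^ (2 / (d : ℝ)) = (27 / 8 : ℝ) ^ (1 / (d : ℝ)) * X ^ (1 / (d : ℝ)) := by
        rw [← Real.mul_rpow (by norm_num) hXp.le]
        have h4 : (27 / 8 : ℝ) * X = kap 3 ^ (2 : ℝ) := by
          rw [Real.rpow_two, hkv, hX]
          have h5 : Real.sqrt 3 ^ 2 = 3 := Real.sq_sqrt (by norm_num)
          have h6 : ((4 : ℝ) ^ (1 / 3 : ℝ)) ^ 2 = 4 ^ (2 / 3 : ℝ) := by
            rw [← Real.rpow_natCast, ← Real.rpow_mul (by norm_num)]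
            norm_num
          have h7 : (3 * Real.sqrt 3 * (4 : ℝ) ^ (1 / 3 : ℝ) / 8) ^ 2 =
              9 / 64 * Real.sqrt 3 ^ 2 * ((4 : ℝ) ^ (1 / 3 : ℝ)) ^ 2 := by ring
          rw [h7, h5, h6]
          ring
        rw [h4, ← Real.rpow_mul (by linarith)]
        congr 1
        ring
      have h4 : (27 / 8 : ℝ) ^ (1 / (d : ℝ)) ≤ 3 / 2 := by
        have h5 : (27 / 8 : ℝ) ^ (1 / (d : ℝ)) ≤ (27 / 8) ^ (1 / 3 : ℝ) := by
          apply Real.rpow_le_rpow_of_exponent_le (by norm_num)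
          exact one_div_le_one_div_of_le (by norm_num) hd3R
        have h6 : (27 / 8 : ℝ) ^ (1 / 3 : ℝ) ≤ 3 / 2 := by
          apply le_of_pow_le_pow_left₀ (n := 3) (by norm_num) (by norm_num)
          rw [br6_cube (by norm_num)]
          norm_num
        exact h5.trans h6
      have h5 : X ^ (1 - 1 / (d : ℝ)) * X ^ (1 / (d : ℝ)) = X := by
        rw [← Real.rpow_add hXp, sub_add_cancel, Real.rpow_one]
      have h6 : 0 ≤ MM d 3 := by rw [h2]; positivity
      have h16d : (0 : ℝ) < 16 ^ (1 - 1 / (d : ℝ)) := Real.rpow_pos_of_pos (by norm_num) _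
      calc MM d 3 * kap 3 ^ w ≤ MM d 3 * kap 3 ^ (2 / (d : ℝ)) :=
            mul_le_mul_of_nonneg_left h1 h6
        _ = 16 ^ (1 - 1 / (d : ℝ)) * ((X ^ (1 - 1 / (d : ℝ)) * X ^ (1 / (d : ℝ))) *
              (27 / 8 : ℝ) ^ (1 / (d : ℝ))) := by
            rw [h2, h3]
            ring
        _ ≤ 16 ^ (1 - 1 / (d : ℝ)) * (3 * 4 ^ (2 / 3 : ℝ) / 16) := by
            apply mul_le_mul_of_nonneg_left _ h16d.le
            rw [h5]
            have h7 : X * (27 / 8 : ℝ) ^ (1 / (d : ℝ)) ≤ X * (3 / 2) :=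
              mul_le_mul_of_nonneg_left h4 hXp.le
            refine h7.trans (le_of_eq ?_)
            rw [hX]
            ring
  · -- e ≥ 4
    have he4R : (4 : ℝ) ≤ e := by exact_mod_cast he4
    rw [br6_rhs hd he]
    have hkap : kap e = 1 := by
      unfold kap
      rw [if_neg (by omega)]
    rw [hkap, Real.one_rpow, mul_one]
    set b : ℝ := 4 ^ (1 / (e : ℝ)) with hb
    have hb0 : 0 < b := Real.rpow_pos_of_pos (by norm_num) _
    have hb1 : 1 ≤ b := Real.one_le_rpow (by norm_num) (by positivity)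
    have hb2 : b ^ 2 = 4 ^ (2 / (e : ℝ)) := by
      rw [hb, ← Real.rpow_natCast, ← Real.rpow_mul (by norm_num)]
      congr 1
      push_cast
      ring
    have hb4 : b ^ 4 ≤ 4 := by
      have h1 : b ^ 4 = 4 ^ (4 / (e : ℝ)) := by
        rw [hb, ← Real.rpow_natCast, ← Real.rpow_mul (by norm_num)]
        congr 1
        push_cast
        ring
      rw [h1]
      calc (4 : ℝ) ^ (4 / (e : ℝ)) ≤ 4 ^ (1 : ℝ) := by
            apply Real.rpow_le_rpow_of_exponent_le (by norm_num)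
            rw [div_le_one (by positivity)]
            exact he4R
        _ = 4 := Real.rpow_one _
    have hb2' : b ^ 2 ≤ 2 := by nlinarith [sq_nonneg (b ^ 2 - 2), sq_nonneg b]
    set Y : ℝ := b ^ 2 / 8 with hY
    have hY0 : 0 < Y := by positivity
    have hY1 : Y ≤ 1 := by rw [hY]; linarith
    have h16d : (0 : ℝ) < 16 ^ (1 - 1 / (d : ℝ)) := Real.rpow_pos_of_pos (by norm_num) _
    have h2 : MM d e = 16 ^ (1 - 1 / (d : ℝ)) * Y ^ (1 - 1 / (d : ℝ)) := by
      unfold MM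
      rw [if_neg (by omega), if_neg (fun h => by omega), ← Real.mul_rpow (by norm_num) hY0.le,
        ← hb2]
      congr 1
      rw [hY]
      ring
    -- the right hand side
    have h3 : (e : ℝ) / 16 ^ (1 - 1 / (e : ℝ)) = e * b ^ 2 / 16 := by
      have h4 : (16 : ℝ) ^ (1 - 1 / (e : ℝ)) * b ^ 2 = 16 := by
        have h5 : b ^ 2 = 16 ^ (1 / (e : ℝ)) := by
          rw [show (16 : ℝ) = 4 ^ (2 : ℝ) by norm_num, ← Real.rpow_mul (by norm_num), hb2]
          congr 1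
          ring
        rw [h5, ← Real.rpow_add (by norm_num), sub_add_cancel, Real.rpow_one]
      have h6 : (0 : ℝ) < 16 ^ (1 - 1 / (e : ℝ)) := Real.rpow_pos_of_pos (by norm_num) _
      rw [div_eq_div_iff h6.ne' (by norm_num)]
      linear_combination (-(e : ℝ)) * h4
    rw [h2, h3]
    apply mul_le_mul_of_nonneg_left _ h16d.le
    have h4 : Y ^ (1 - 1 / (d : ℝ)) ≤ Real.sqrt Y := by
      rw [Real.sqrt_eq_rpow]
      exact Real.rpow_le_rpow_of_exponent_ge hY0 hY1 (by linarith)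
    refine h4.trans ?_
    rw [Real.sqrt_le_left (by positivity), hY]
    -- `b ^ 2 / 8 ≤ (e b ^ 2 / 16) ^ 2`, i.e. `32 ≤ e ^ 2 b ^ 2`
    have h5 : 32 ≤ (e : ℝ) ^ 2 * b ^ 2 := by
      rcases Nat.lt_or_ge e 6 with h6 | h6
      · rcases Nat.lt_or_ge e 5 with h7 | h7
        · have h8 : e = 4 := by omega
          subst h8
          have h9 : b ^ 2 = 2 := by
            rw [hb2, show (4 : ℝ) = 2 ^ (2 : ℝ) by norm_num, ← Real.rpow_mul (by norm_num)]
            norm_num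
          rw [h9]
          norm_num
        · have h8 : e = 5 := by omega
          subst h8
          have h9 : b ^ 5 = 4 := by
            rw [hb, ← Real.rpow_natCast, ← Real.rpow_mul (by norm_num)]
            norm_num
          have h10 : 1.14 ≤ b := by
            by_contra hcon
            push Not at hcon
            have h11 : b ^ 5 < 1.14 ^ 5 := pow_lt_pow_left₀ hcon hb0.le (by norm_num)
            rw [h9] at h11
            norm_num at h11
          push_cast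
          nlinarith
      · have h7 : (6 : ℝ) ≤ e := by exact_mod_cast h6
        nlinarith [mul_le_mul h7 hb1 (by norm_num) (by linarith : (0 : ℝ) ≤ e)]
    have hb2p : 0 < b ^ 2 := by positivity
    nlinarith [mul_le_mul_of_nonneg_right h5 hb2p.le]

end Pool.Agent.H58.BR
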