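import Pool.Agent.H58.BR.Defs

/-!
# Basic facts on towers of Riemann maps (row BR-3, MP_f801da_an)
-/

set_option autoImplicit false

namespace Pool.Agent.H58.BR

open Metric Set Filter Topology

section
variable {d : ℕ → ℕ} {c : ℕ → ℂ} {f : ℕ → ℂ → ℂ}

theorem br3_mem {n : ℕ} (hn : 2 ≤ n) {ζ : ℂ} : ζ ∈ RU n ↔ ζ ^ n = 1 :=
  Polynomial.mem_nthRootsFinset (by omega) (1 : ℂ)

theorem br3_norm {n : ℕ} (hn : 2 ≤ n) {ζ : ℂ} (h : ζ ^ n = 1) : ‖ζ‖ = 1 :=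
  Complex.norm_eq_one_of_pow_eq_one h (by omega)

theorem br3_norm_mul {n : ℕ} (hn : 2 ≤ n) {ζ : ℂ} (h : ζ ^ n = 1) (z : ℂ) : ‖ζ * z‖ = ‖z‖ := by
  rw [norm_mul, br3_norm hn h, one_mul]

theorem br3_ball {n : ℕ} (hn : 2 ≤ n) {ζ : ℂ} (h : ζ ^ n = 1) {z : ℂ}
    (hz : z ∈ ball (0 : ℂ) 1) : ζ * z ∈ ball (0 : ℂ) 1 := by
  rw [mem_ball_zero_iff] at hz ⊢
  rwa [br3_norm_mul hn h]

theorem br3_root_ne {n : ℕ} (hn : 2 ≤ n) {ζ : ℂ} (h : ζ ^ n = 1) : ζ ≠ 0 := by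
  intro h0
  rw [h0, zero_pow (by omega)] at h
  exact zero_ne_one h

theorem br3_pow_ball {n : ℕ} (hn : 2 ≤ n) {z : ℂ} (hz : z ∈ ball (0 : ℂ) 1) :
    z ^ n ∈ ball (0 : ℂ) 1 := by
  rw [mem_ball_zero_iff] at hz ⊢
  rw [norm_pow]
  exact pow_lt_one₀ (norm_nonneg z) hz (by omega)

theorem Tower.ne (h : Tower d c f) (j : ℕ) {z : ℂ} (hz : z ∈ ball (0 : ℂ) 1) (hz0 : z ≠ 0) :
    f j z ≠ 0 := by
  intro h0
  exact hz0 (h.inj j hz (mem_ball_self one_pos) (h0.trans (h.zero j).symm))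

theorem Tower.inv_eq (h : Tower d c f) (j : ℕ) {z : ℂ} (hz : z ∈ ball (0 : ℂ) 1) (hz0 : z ≠ 0) :
    (f j z)⁻¹ ^ d j + c j = (f (j + 1) (z ^ d j))⁻¹ := by
  have hF : f j z ^ d j ≠ 0 := pow_ne_zero _ (h.ne j hz hz0)
  have hG : f (j + 1) (z ^ d j) ≠ 0 :=
    h.ne (j + 1) (br3_pow_ball (h.deg j) hz) (pow_ne_zero _ hz0)
  have he := h.eq j z hz
  apply eq_inv_of_mul_eq_one_left
  apply mul_left_cancel₀ hF
  rw [mul_one, inv_pow]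
  calc f j z ^ d j * (((f j z ^ d j)⁻¹ + c j) * f (j + 1) (z ^ d j))
      = f (j + 1) (z ^ d j) * (f j z ^ d j * (f j z ^ d j)⁻¹ + c j * f j z ^ d j) := by ring
    _ = f j z ^ d j := by rw [mul_inv_cancel₀ hF, ← he]

theorem br3_pow_eq (h : Tower d c f) (j : ℕ) {z ζ : ℂ} (hz : z ∈ ball (0 : ℂ) 1) (hz0 : z ≠ 0)
    (hζ : ζ ^ d j = 1) : (f j (ζ * z))⁻¹ ^ d j = (f j z)⁻¹ ^ d j := by
  have h1 := h.inv_eq j hz hz0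
  have h2 := h.inv_eq j (br3_ball (h.deg j) hζ hz)
    (mul_ne_zero (br3_root_ne (h.deg j) hζ) hz0)
  rw [mul_pow, hζ, one_mul, ← h1] at h2
  exact add_right_cancel h2

theorem br3_maps (h : Tower d c f) (j : ℕ) {z : ℂ} (hz : z ∈ ball (0 : ℂ) 1) (hz0 : z ≠ 0)
    {ζ : ℂ} (hζ : ζ ∈ RU (d j)) : f j z * (f j (ζ * z))⁻¹ ∈ RU (d j) := by
  rw [br3_mem (h.deg j)] at hζ ⊢
  rw [mul_pow, br3_pow_eq h j hz hz0 hζ, inv_pow, mul_inv_cancel₀ (pow_ne_zero _ (h.ne j hz hz0))]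

theorem br3_inj (h : Tower d c f) (j : ℕ) {z : ℂ} (hz : z ∈ ball (0 : ℂ) 1) (hz0 : z ≠ 0)
    {ζ η : ℂ} (hζ : ζ ∈ RU (d j)) (hη : η ∈ RU (d j))
    (he : f j z * (f j (ζ * z))⁻¹ = f j z * (f j (η * z))⁻¹) : ζ = η := by
  rw [br3_mem (h.deg j)] at hζ hη
  have h1 := inv_injective (mul_left_cancel₀ (h.ne j hz hz0) he)
  exact mul_right_cancel₀ hz0
    (h.inj j (br3_ball (h.deg j) hζ hz) (br3_ball (h.deg j) hη hz) h1)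

theorem br3_surj (h : Tower d c f) (j : ℕ) {z : ℂ} (hz : z ∈ ball (0 : ℂ) 1) (hz0 : z ≠ 0)
    {η : ℂ} (hη : η ∈ RU (d j)) : ∃ ζ ∈ RU (d j), f j z * (f j (ζ * z))⁻¹ = η := by
  have h1 := Finset.surjOn_of_injOn_of_card_le (s := RU (d j)) (t := RU (d j))
    (fun ζ => f j z * (f j (ζ * z))⁻¹) (fun ζ hζ => br3_maps h j hz hz0 hζ)
    (fun ζ hζ ξ hξ he => br3_inj h j hz hz0 hζ hξ he) le_rfl
  obtain ⟨ζ, hζ, he⟩ := h1 hη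
  exact ⟨ζ, hζ, he⟩

theorem Tower.roots (h : Tower d c f) (j : ℕ) {z v : ℂ} (hz : z ∈ ball (0 : ℂ) 1) (hz0 : z ≠ 0)
    (hv : v ^ d j = (f j z)⁻¹ ^ d j) : ∃ ζ : ℂ, ζ ^ d j = 1 ∧ v = (f j (ζ * z))⁻¹ := by
  have hF := h.ne j hz hz0
  have h1 : f j z * v ∈ RU (d j) := by
    rw [br3_mem (h.deg j), mul_pow, hv, inv_pow, mul_inv_cancel₀ (pow_ne_zero _ hF)]
  obtain ⟨ζ, hζ, he⟩ := br3_surj h j hz hz0 h1
  exact ⟨ζ, (br3_mem (h.deg j)).mp hζ, (mul_left_cancel₀ hF he).symm⟩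

theorem Tower.sum_roots (h : Tower d c f) (j : ℕ) {z : ℂ} (hz : z ∈ ball (0 : ℂ) 1) (hz0 : z ≠ 0)
    (G : ℂ → ℝ) :
    ∑ ζ ∈ RU (d j), G ((f j (ζ * z))⁻¹) = ∑ ζ ∈ RU (d j), G (ζ * (f j z)⁻¹) := by
  have hF := h.ne j hz hz0
  refine Finset.sum_bij (fun ζ _ => f j z * (f j (ζ * z))⁻¹)
    (fun ζ hζ => br3_maps h j hz hz0 hζ)
    (fun ζ hζ ξ hξ he => br3_inj h j hz hz0 hζ hξ he)
    (fun η hη => ?_) (fun ζ _ => ?_)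
  · obtain ⟨ζ, hζ, he⟩ := br3_surj h j hz hz0 hη
    exact ⟨ζ, hζ, he⟩
  · congr 1
    rw [mul_comm (f j z), mul_assoc, mul_inv_cancel₀ hF, mul_one]

theorem zero_mem_KK (f : ℂ → ℂ) (ρ : ℝ) : (0 : ℂ) ∈ KK f ρ := by
  intro z _ _
  rw [zero_mul]
  exact zero_ne_one

theorem br3_exists_root {n : ℕ} (hn : 2 ≤ n) {ρ : ℝ} (h0 : 0 ≤ ρ) {w : ℂ} (hw : 0 < ‖w‖)
    (hw' : ‖w‖ < ρ ^ n) : ∃ z : ℂ, z ^ n = w ∧ 0 < ‖z‖ ∧ ‖z‖ < ρ := by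
  obtain ⟨z, hz⟩ := IsAlgClosed.exists_pow_nat_eq w (show 0 < n by omega)
  refine ⟨z, hz, ?_, ?_⟩
  · rw [norm_pos_iff]
    intro hz0
    rw [hz0, zero_pow (by omega)] at hz
    rw [← hz, norm_zero] at hw
    exact lt_irrefl _ hw
  · rw [← hz, norm_pow] at hw'
    exact lt_of_pow_lt_pow_left₀ n h0 hw'

theorem Tower.map_mem (h : Tower d c f) (j : ℕ) {ρ : ℝ} (h0 : 0 < ρ) (h1 : ρ ≤ 1) {v : ℂ}
    (hv : v ∈ KK (f j) ρ) : v ^ d j + c j ∈ KK (f (j + 1)) (ρ ^ d j) := by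
  intro w hw hw' he
  obtain ⟨z, hz, hz0, hzρ⟩ := br3_exists_root (h.deg j) h0.le hw hw'
  have hzb : z ∈ ball (0 : ℂ) 1 := by
    rw [mem_ball_zero_iff]
    exact lt_of_lt_of_le hzρ h1
  have hz0' : z ≠ 0 := norm_pos_iff.mp hz0
  have h2 := h.inv_eq j hzb hz0'
  rw [hz, ← eq_inv_of_mul_eq_one_left he] at h2
  obtain ⟨ζ, hζ, hvζ⟩ := h.roots j hzb hz0' (add_right_cancel h2).symm
  have hn := br3_norm_mul (h.deg j) hζ z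
  refine hv (ζ * z) (by rw [hn]; exact hz0) (by rw [hn]; exact hzρ) ?_
  rw [hvζ]
  exact inv_mul_cancel₀ (h.ne j (br3_ball (h.deg j) hζ hzb)
    (mul_ne_zero (br3_root_ne (h.deg j) hζ) hz0'))

theorem Tower.c_mem (h : Tower d c f) (j : ℕ) {ρ : ℝ} (h1 : ρ ≤ 1) :
    c j ∈ KK (f (j + 1)) ρ := by
  intro w hw hw' he
  obtain ⟨z, hz, hz0, hzρ⟩ := br3_exists_root (h.deg j) zero_le_one hw
    (by rw [one_pow]; exact lt_of_lt_of_le hw' h1)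
  have hzb : z ∈ ball (0 : ℂ) 1 := by
    rw [mem_ball_zero_iff]
    exact hzρ
  have hz0' : z ≠ 0 := norm_pos_iff.mp hz0
  have h2 := h.inv_eq j hzb hz0'
  rw [hz, ← eq_inv_of_mul_eq_one_left he] at h2
  have h3 : (f j z)⁻¹ ^ d j = 0 := by
    have := congrArg (fun t => t - c j) h2
    simpa using this
  exact inv_ne_zero (h.ne j hzb hz0') (pow_eq_zero_iff (by have := h.deg j; omega) |>.mp h3)

theorem Tower.rot_mem (h : Tower d c f) (j : ℕ) {ρ : ℝ} (h1 : ρ ≤ 1) {v ζ : ℂ}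
    (hv : v ∈ KK (f j) ρ) (hζ : ζ ^ d j = 1) : ζ * v ∈ KK (f j) ρ := by
  intro z hz hz' he
  have hzb : z ∈ ball (0 : ℂ) 1 := by
    rw [mem_ball_zero_iff]
    exact lt_of_lt_of_le hz' h1
  have hz0 : z ≠ 0 := norm_pos_iff.mp hz
  have h2 : v ^ d j = (f j z)⁻¹ ^ d j := by
    rw [← eq_inv_of_mul_eq_one_left he, mul_pow, hζ, one_mul]
  obtain ⟨η, hη, hvη⟩ := h.roots j hzb hz0 h2
  have hn := br3_norm_mul (h.deg j) hη z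
  refine hv (η * z) (by rw [hn]; exact hz) (by rw [hn]; exact hz') ?_
  rw [hvη]
  exact inv_mul_cancel₀ (h.ne j (br3_ball (h.deg j) hη hzb)
    (mul_ne_zero (br3_root_ne (h.deg j) hη) hz0))

theorem Tower.inv_mem (h : Tower d c f) (j : ℕ) {ρ : ℝ} (h0 : 0 < ρ) {z : ℂ}
    (hz : z ∈ ball (0 : ℂ) 1) (hρ : ρ ≤ ‖z‖) : (f j z)⁻¹ ∈ KK (f j) ρ := by
  intro w _ hw' he
  have hz0 : z ≠ 0 := norm_pos_iff.mp (lt_of_lt_of_le h0 hρ)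
  have hF := h.ne j hz hz0
  have hwb : w ∈ ball (0 : ℂ) 1 := by
    rw [mem_ball_zero_iff] at hz ⊢
    linarith
  have h2 : f j w = f j z := by
    have := congrArg (fun t => f j z * t) he
    simp only [mul_one, mul_inv_cancel_left₀ hF] at this
    exact this
  have h3 := h.inj j hwb hz h2
  rw [h3] at hw'
  exact absurd hw' (not_lt.mpr hρ)

end

end Pool.Agent.H58.BR
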