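import Pool.Agent.H58.BR.Sym
import Pool.Agent.H83.Lo.Inj

/-!
# The weight `1 / |(1 / f)'| ^ 2` along a tower (row BR-9, MP_f801da_an)
-/

set_option autoImplicit false

namespace Pool.Agent.H58.BR

open Metric Set Filter Topology

section
variable {d : ℕ → ℕ} {c : ℕ → ℂ} {f : ℕ → ℂ → ℂ}

theorem wt_cont {f : ℂ → ℂ} (hd : DifferentiableOn ℂ f (ball 0 1)) (hi : InjOn f (ball 0 1)) :
    ContinuousOn (wt f) (ball 0 1) := by
  have h1 : ContinuousOn (fun z => ‖f z‖ ^ 4) (ball 0 1) := (hd.continuousOn.norm).pow 4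
  have h2 : ContinuousOn (fun z => ‖deriv f z‖ ^ 2) (ball 0 1) :=
    (((hd.deriv isOpen_ball).continuousOn).norm).pow 2
  exact h1.div h2 (fun z hz => pow_ne_zero _ (norm_ne_zero_iff.mpr
    (Pool.Agent.H83.Lo.deriv_ne_zero isOpen_ball hd hi hz)))

theorem wt_nonneg (f : ℂ → ℂ) (z : ℂ) : 0 ≤ wt f z := by
  unfold wt
  positivity

theorem br9_al_nonneg {n : ℕ} (hn : 2 ≤ n) : 0 ≤ al n := by
  unfold al
  have h : (2 : ℝ) ≤ n := by exact_mod_cast hn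
  have h2 : 2 / (n : ℝ) ≤ 1 := (div_le_one (by linarith)).mpr h
  linarith

theorem Tower.HH_cont (h : Tower d c f) (j : ℕ) :
    ContinuousOn (HH d c f j) (ball 0 1 \ {0}) := by
  have hf : ContinuousOn (f (j + 1)) (ball 0 1 \ {0}) :=
    (h.diff (j + 1)).continuousOn.mono sdiff_subset
  have h1 : ContinuousOn (fun z => (f (j + 1) z)⁻¹) (ball 0 1 \ {0}) :=
    hf.inv₀ (fun z hz => h.ne (j + 1) hz.1 (fun h0 => hz.2 (by simpa using h0)))
  have h2 : ContinuousOn (fun z => ‖(f (j + 1) z)⁻¹ - c j‖ ^ al (d j)) (ball 0 1 \ {0}) :=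
    ((h1.sub continuousOn_const).norm).rpow_const
      (fun z _ => Or.inr (br9_al_nonneg (h.deg j)))
  exact h2.mul ((wt_cont (h.diff (j + 1)) (h.inj (j + 1))).mono sdiff_subset)

theorem Tower.wt_eq (h : Tower d c f) (j : ℕ) {z : ℂ} (hz : z ∈ ball (0 : ℂ) 1) (hz0 : z ≠ 0) :
    wt (f j) z = (‖z‖ ^ (2 * (d j - 1)))⁻¹ * HH d c f j (z ^ d j) := by
  have hd := h.deg j
  obtain ⟨m, hm⟩ : ∃ m, d j = m + 1 := ⟨d j - 1, by omega⟩
  have hw : z ^ d j ∈ ball (0 : ℂ) 1 := br3_pow_ball hd hz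
  have hw0 : z ^ d j ≠ 0 := pow_ne_zero _ hz0
  have hF : f j z ≠ 0 := h.ne j hz hz0
  have hG : f (j + 1) (z ^ d j) ≠ 0 := h.ne (j + 1) hw hw0
  have hF' : deriv (f j) z ≠ 0 :=
    Pool.Agent.H83.Lo.deriv_ne_zero isOpen_ball (h.diff j) (h.inj j) hz
  have hG' : deriv (f (j + 1)) (z ^ d j) ≠ 0 :=
    Pool.Agent.H83.Lo.deriv_ne_zero isOpen_ball (h.diff (j + 1)) (h.inj (j + 1)) hw
  have hdF : HasDerivAt (f j) (deriv (f j) z) z :=
    ((h.diff j).differentiableAt (isOpen_ball.mem_nhds hz)).hasDerivAt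
  have hdG : HasDerivAt (f (j + 1)) (deriv (f (j + 1)) (z ^ d j)) (z ^ d j) :=
    ((h.diff (j + 1)).differentiableAt (isOpen_ball.mem_nhds hw)).hasDerivAt
  -- the two sides of the functional equation
  have h1 : HasDerivAt (fun w => (f j w)⁻¹ ^ d j + c j)
      ((d j : ℂ) * (f j z)⁻¹ ^ (d j - 1) * (-deriv (f j) z / f j z ^ 2)) z :=
    ((hdF.inv hF).pow (d j)).add_const (c j)
  have h2 : HasDerivAt (fun w => (f (j + 1) (w ^ d j))⁻¹)
      (-(deriv (f (j + 1)) (z ^ d j) * ((d j : ℂ) * z ^ (d j - 1))) /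
        f (j + 1) (z ^ d j) ^ 2) z := by
    have h3 : HasDerivAt (fun w : ℂ => w ^ d j) ((d j : ℂ) * z ^ (d j - 1)) z :=
      hasDerivAt_pow (d j) z
    have h4 : HasDerivAt (fun w => f (j + 1) (w ^ d j))
        (deriv (f (j + 1)) (z ^ d j) * ((d j : ℂ) * z ^ (d j - 1))) z :=
      HasDerivAt.comp z hdG h3
    exact h4.inv hG
  have h5 : (fun w => (f j w)⁻¹ ^ d j + c j) =ᶠ[𝓝 z] fun w => (f (j + 1) (w ^ d j))⁻¹ := by
    filter_upwards [isOpen_ball.mem_nhds hz, isOpen_compl_singleton.mem_nhds hz0] with w hw1 hw2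
    exact h.inv_eq j hw1 hw2
  have h6 := (h2.congr_of_eventuallyEq h5).unique h1
  have hdc : (d j : ℂ) ≠ 0 := by
    have : d j ≠ 0 := by omega
    exact_mod_cast this
  have h7 : deriv (f (j + 1)) (z ^ d j) * z ^ (d j - 1) / f (j + 1) (z ^ d j) ^ 2 =
      (f j z)⁻¹ ^ (d j - 1) * deriv (f j) z / f j z ^ 2 := by
    apply mul_left_cancel₀ hdc
    have e1 : (d j : ℂ) * (deriv (f (j + 1)) (z ^ d j) * z ^ (d j - 1) /
        f (j + 1) (z ^ d j) ^ 2) = -(-(deriv (f (j + 1)) (z ^ d j) *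
        ((d j : ℂ) * z ^ (d j - 1))) / f (j + 1) (z ^ d j) ^ 2) := by ring
    have e2 : (d j : ℂ) * ((f j z)⁻¹ ^ (d j - 1) * deriv (f j) z / f j z ^ 2) =
        -((d j : ℂ) * (f j z)⁻¹ ^ (d j - 1) * (-deriv (f j) z / f j z ^ 2)) := by ring
    rw [e1, e2, h6]
  -- norms
  have h8 := congrArg (fun t => ‖t‖) h7
  simp only [norm_div, norm_mul, norm_pow, norm_inv] at h8
  have ha : 0 < ‖f j z‖ := norm_pos_iff.mpr hF
  have hb : 0 < ‖deriv (f j) z‖ := norm_pos_iff.mpr hF'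
  have ha1 : 0 < ‖f (j + 1) (z ^ d j)‖ := norm_pos_iff.mpr hG
  have hb1 : 0 < ‖deriv (f (j + 1)) (z ^ d j)‖ := norm_pos_iff.mpr hG'
  have hzp : 0 < ‖z‖ := norm_pos_iff.mpr hz0
  have h9 : (f (j + 1) (z ^ d j))⁻¹ - c j = (f j z)⁻¹ ^ d j := by
    rw [← h.inv_eq j hz hz0]
    ring
  have h10 : ‖(f (j + 1) (z ^ d j))⁻¹ - c j‖ ^ al (d j) = (‖f j z‖⁻¹ ^ (d j - 1)) ^ 2 := by
    rw [h9, norm_pow, norm_inv, ← Real.rpow_natCast, ← Real.rpow_mul (by positivity),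
      ← pow_mul, ← Real.rpow_natCast]
    congr 1
    have hdr : (d j : ℝ) ≠ 0 := by
      have : d j ≠ 0 := by omega
      exact_mod_cast this
    unfold al
    rw [Nat.cast_mul, Nat.cast_sub (by omega)]
    field_simp
    push_cast
    ring
  unfold HH
  rw [h10]
  unfold wt
  have h11 : ‖z‖ ^ (2 * (d j - 1)) = (‖z‖ ^ (d j - 1)) ^ 2 := by
    rw [← pow_mul, mul_comm]
  rw [h11]
  have hZ : 0 < ‖z‖ ^ (d j - 1) := pow_pos hzp _
  clear h1 h2 h5 h6 h7 h9 h10 h11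
  generalize ‖z‖ ^ (d j - 1) = Z at *
  generalize ‖f j z‖⁻¹ ^ (d j - 1) = A at *
  generalize ‖f j z‖ = a at *
  generalize ‖deriv (f j) z‖ = b at *
  generalize ‖f (j + 1) (z ^ d j)‖ = a1 at *
  generalize ‖deriv (f (j + 1)) (z ^ d j)‖ = b1 at *
  have h12 : b1 * Z * a ^ 2 = A * b * a1 ^ 2 := by
    rw [div_eq_div_iff (by positivity) (by positivity)] at h8
    exact h8
  have h13 : (b1 * Z * a ^ 2) ^ 2 = (A * b * a1 ^ 2) ^ 2 := by rw [h12]
  rw [← mul_div_assoc, ← div_eq_inv_mul, div_div, div_eq_div_iff (by positivity) (by positivity)]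
  linear_combination h13

end

end Pool.Agent.H58.BR
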