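import Pool.Agent.H58.BR.Roots
import Pool.Agent.H58.BR.Avg
import Pool.Agent.H58.BR.Sym
import Pool.Agent.H58.BR.Perim
import Pool.Agent.H58.BR.Pair
import Pool.Agent.H58.BR.Pot
import Pool.Agent.H58.BR.Koe
import Pool.Agent.H58.BR.Wt

/-!
# One step of the iteration (project BR, row 10)
-/

set_option autoImplicit false

namespace Pool.Agent.H58.BR

open Metric Set Filter Topology
open Real (circleAverage)

theorem br10_al_nonneg {d : ℕ} (hd : 2 ≤ d) : 0 ≤ al d := by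
  unfold al
  have h2 : (2 : ℝ) ≤ d := by exact_mod_cast hd
  have : 2 / (d : ℝ) ≤ 1 := (div_le_one (by linarith)).2 h2
  linarith

theorem br10_al_le (d : ℕ) : al d ≤ 2 := by
  unfold al
  have : (0 : ℝ) ≤ 2 / (d : ℝ) := by positivity
  linarith

theorem br10_rpow_le {x B a : ℝ} (hx : 0 ≤ x) (hxB : x ≤ B) (hB : 1 ≤ B) (ha : 0 ≤ a)
    (ha2 : a ≤ 2) : x ^ a ≤ B ^ 2 := by
  calc x ^ a ≤ B ^ a := Real.rpow_le_rpow hx hxB ha
    _ ≤ B ^ (2 : ℝ) := Real.rpow_le_rpow_of_exponent_le hB ha2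
    _ = B ^ 2 := by norm_cast

theorem br10_HH_nonneg (d : ℕ → ℕ) (c : ℕ → ℂ) (f : ℕ → ℂ → ℂ) (j : ℕ) (z : ℂ) :
    0 ≤ HH d c f j z :=
  mul_nonneg (Real.rpow_nonneg (norm_nonneg _) _) (wt_nonneg _ _)

theorem br10_sphere_sub {r : ℝ} (h0 : 0 < r) (h1 : r < 1) :
    sphere (0 : ℂ) r ⊆ ball 0 1 \ {0} := by
  intro z hz
  rw [mem_sphere_zero_iff_norm] at hz
  refine ⟨?_, ?_⟩
  · rw [mem_ball_zero_iff, hz]; exact h1
  · intro hz0
    rw [mem_singleton_iff] at hz0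
    rw [hz0, norm_zero] at hz
    linarith

section
variable {d : ℕ → ℕ} {c : ℕ → ℂ} {f : ℕ → ℂ → ℂ}

theorem Tower.step_zero (h : Tower d c f) {ρ : ℝ} (h0 : 0 < ρ) (h1 : ρ < 1) :
    circleAverage (wt (f 0)) 0 ρ =
      (ρ ^ (2 * (d 0 - 1)))⁻¹ * circleAverage (HH d c f 0) 0 (ρ ^ d 0) := by
  have hd := h.deg 0
  have hpos : 0 < ρ ^ d 0 := pow_pos h0 _
  have hlt : ρ ^ d 0 < 1 := pow_lt_one₀ h0.le h1 (by omega)
  have hcont : ContinuousOn (HH d c f 0) (sphere 0 (ρ ^ d 0)) :=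
    (h.HH_cont 0).mono (br10_sphere_sub hpos hlt)
  rw [← avg_pow (by omega) h0 hcont, ← smul_eq_mul, ← Real.circleAverage_fun_smul]
  apply Real.circleAverage_congr_sphere
  intro z hz
  rw [abs_of_pos h0] at hz
  obtain ⟨hz1, hz2⟩ := br10_sphere_sub h0 h1 hz
  rw [mem_sphere_zero_iff_norm] at hz
  have hz0 : z ≠ 0 := fun hh => hz2 (by rw [hh]; exact mem_singleton 0)
  show wt (f 0) z = (ρ ^ (2 * (d 0 - 1)))⁻¹ • HH d c f 0 (z ^ d 0)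
  rw [h.wt_eq 0 hz1 hz0, hz, smul_eq_mul]

theorem Tower.step_succ (h : Tower d c f) (j : ℕ) {ρ q : ℝ} (h0 : 0 < ρ) (h1 : ρ < 1)
    (hq : 0 < q) (hp : PB (KK (f (j + 2)) (ρ ^ d (j + 1))) (8 * q)) :
    circleAverage (HH d c f j) 0 ρ ≤ (ρ ^ (2 * (d (j + 1) - 1)))⁻¹ *
      (MM (d j) (d (j + 1)) * q ^ (al (d j) / d (j + 1))) *
      circleAverage (HH d c f (j + 1)) 0 (ρ ^ d (j + 1)) := by
  have hd := h.deg j
  have he := h.deg (j + 1)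
  have hpos : 0 < ρ ^ d (j + 1) := pow_pos h0 _
  have hlt : ρ ^ d (j + 1) < 1 := pow_lt_one₀ h0.le h1 (by omega)
  have hcont : ContinuousOn (HH d c f (j + 1)) (sphere 0 (ρ ^ d (j + 1))) :=
    (h.HH_cont (j + 1)).mono (br10_sphere_sub hpos hlt)
  have hsub := br10_sphere_sub h0 h1
  have hne : ∀ z ∈ sphere (0 : ℂ) ρ, z ∈ ball (0 : ℂ) 1 ∧ z ≠ 0 := by
    intro z hz
    obtain ⟨hz1, hz2⟩ := hsub hz
    exact ⟨hz1, fun hh => hz2 (by rw [hh]; exact mem_singleton 0)⟩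
  have hinv : ContinuousOn (fun z => (f (j + 1) z)⁻¹ - c j) (sphere 0 ρ) := by
    refine ContinuousOn.sub (ContinuousOn.inv₀ ?_ ?_) continuousOn_const
    · exact (h.diff (j + 1)).continuousOn.mono (fun z hz => (hne z hz).1)
    · intro z hz
      exact h.ne (j + 1) (hne z hz).1 (hne z hz).2
  have hgc : ContinuousOn (fun z => (ρ ^ (2 * (d (j + 1) - 1)))⁻¹ *
      ‖(f (j + 1) z)⁻¹ - c j‖ ^ al (d j)) (sphere 0 ρ) := by
    refine continuousOn_const.mul ?_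
    exact hinv.norm.rpow_const (fun z _ => Or.inr (br10_al_nonneg hd))
  have key := avg_step (d := d (j + 1)) (by omega) h0 hgc hcont
    (fun w _ => br10_HH_nonneg d c f (j + 1) w)
    (μ := (ρ ^ (2 * (d (j + 1) - 1)))⁻¹ *
      (MM (d j) (d (j + 1)) * q ^ (al (d j) / d (j + 1)))) ?_
  · refine le_trans (le_of_eq ?_) key
    apply Real.circleAverage_congr_sphere
    intro z hz
    rw [abs_of_pos h0] at hz
    obtain ⟨hz1, hz0⟩ := hne z hz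
    rw [mem_sphere_zero_iff_norm] at hz
    show HH d c f j z = (ρ ^ (2 * (d (j + 1) - 1)))⁻¹ *
      ‖(f (j + 1) z)⁻¹ - c j‖ ^ al (d j) * HH d c f (j + 1) (z ^ d (j + 1))
    conv_lhs => rw [HH]
    rw [h.wt_eq (j + 1) hz1 hz0, hz]
    ring
  · intro z hz
    obtain ⟨hz1, hz0⟩ := hne z hz
    rw [mem_sphere_zero_iff_norm] at hz
    have hsum := h.sum_roots (j + 1) hz1 hz0 (fun v => ‖v - c j‖ ^ al (d j))
    show ∑ ζ ∈ RU (d (j + 1)), (ρ ^ (2 * (d (j + 1) - 1)))⁻¹ *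
      ‖(f (j + 1) (ζ * z))⁻¹ - c j‖ ^ al (d j) ≤ _
    rw [← Finset.mul_sum, hsum]
    have hpb := pair_bound (S := KK (f (j + 1)) ρ) (T := KK (f (j + 2)) (ρ ^ d (j + 1)))
      (c := c (j + 1)) (p := 8 * q) (d := d (j + 1))
      (fun v hv => h.map_mem (j + 1) h0 h1.le hv) (h.c_mem (j + 1) hlt.le) hp
      (x := (f (j + 1) z)⁻¹) (y := c j) (h.inv_mem (j + 1) h0 hz1 hz.ge) (h.c_mem j h1.le)
    have hpair := pair_all hd he hq hpb.1 (by linarith [hpb.2.1]) (by linarith [hpb.2.2])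
    calc _ ≤ (ρ ^ (2 * (d (j + 1) - 1)))⁻¹ *
          ((d (j + 1) : ℝ) * (MM (d j) (d (j + 1)) * q ^ (al (d j) / d (j + 1)))) :=
          mul_le_mul_of_nonneg_left hpair (by positivity)
      _ = _ := by ring

theorem br10_PB_mono {S : Set ℂ} {p p' : ℝ} (h : PB S p) (hp : p ≤ p') : PB S p' :=
  fun a ha b hb e he => (h a ha b hb e he).trans hp

theorem Tower.perim (h : Tower d c f) (j : ℕ) {ρ q : ℝ} (h0 : 0 < ρ) (h1 : ρ ≤ 1) (hq : 0 < q)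
    (hp : PB (KK (f (j + 1)) (ρ ^ d j)) (8 * q)) :
    PB (KK (f j) ρ) (8 * (kap (d j) * q ^ (1 / (d j : ℝ)))) := by
  have hd := h.deg j
  have hpow : ρ ^ d j ≤ 1 := pow_le_one₀ h0.le h1
  have hmap : ∀ v ∈ KK (f j) ρ, v ^ d j + c j ∈ KK (f (j + 1)) (ρ ^ d j) :=
    fun v hv => h.map_mem j h0 h1 hv
  have hc : c j ∈ KK (f (j + 1)) (ρ ^ d j) := h.c_mem j hpow
  rcases Nat.lt_or_ge (d j) 3 with h3 | h3
  · have hd2 : d j = 2 := by omega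
    have hneg : ∀ v ∈ KK (f j) ρ, -v ∈ KK (f j) ρ := by
      intro v hv
      have := h.rot_mem j h1 hv (ζ := -1) (by rw [hd2]; norm_num)
      simpa using this
    have hm2 : ∀ v ∈ KK (f j) ρ, v ^ 2 + c j ∈ KK (f (j + 1)) (ρ ^ d j) := by
      intro v hv
      have := hmap v hv
      rwa [hd2] at this ⊢
    have key := perim_two hneg hm2 hc hp
    refine br10_PB_mono key (le_of_eq ?_)
    have hk : kap (d j) = 1 := by
      rw [hd2]; unfold kap; norm_num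
    rw [hk, hd2, one_mul]
    have e1 : (1 : ℝ) / ((2 : ℕ) : ℝ) = 1 / 2 := by norm_num
    rw [e1, ← Real.sqrt_eq_rpow]
    have e2 : 2 * (8 * q) = 4 ^ 2 * q := by ring
    rw [e2, Real.sqrt_mul (by positivity), Real.sqrt_sq (by norm_num)]
    ring
  · have key := perim_ge (by omega) hmap hc hp
    exact br10_PB_mono key (perim_q h3 hq)

/-- bound of the last average -/
theorem top_bound : ∃ C : ℝ, 0 < C ∧ ∀ (d : ℕ → ℕ) (c : ℕ → ℂ) (f : ℕ → ℂ → ℂ), Tower d c f →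
    ∀ (n : ℕ) (ρ : ℝ), 1 / 4 ≤ ρ → ρ < 1 → ρ ^ d n < 1 / 4 → ∀ z ∈ sphere (0 : ℂ) ρ,
      wt (f n) z ≤ C ∧ ∀ m : ℕ, n = m + 1 → HH d c f m z ≤ C := by
  obtain ⟨C0, hC0, hdist⟩ := distortion
  refine ⟨1024 * (64 * C0 ^ 6), by positivity, ?_⟩
  intro d c f h n ρ hρ4 hρ1 hρn z hz
  have hρ0 : 0 < ρ := by linarith
  have hdn := h.deg n
  obtain ⟨hz1, hz2⟩ := br10_sphere_sub hρ0 hρ1 hz
  have hz0 : z ≠ 0 := fun hh => hz2 (by rw [hh]; exact mem_singleton 0)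
  rw [mem_sphere_zero_iff_norm] at hz
  -- the point `w`
  set w : ℂ := z ^ d n with hw
  have hwn : ‖w‖ = ρ ^ d n := by rw [hw, norm_pow, hz]
  have hw0 : w ≠ 0 := pow_ne_zero _ hz0
  have hs0 : 0 < ‖w‖ := norm_pos_iff.2 hw0
  have hs1 : ‖w‖ < 1 / 4 := by rw [hwn]; exact hρn
  have hwb : w ∈ ball (0 : ℂ) 1 := by rw [mem_ball_zero_iff]; linarith
  obtain ⟨hf1, hf2⟩ := hdist (f (n + 1)) (h.diff _) (h.inj _) (h.zero _) (h.one _) w hs1.le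
  -- the weight at `w`
  have hwt : wt (f (n + 1)) w ≤ C0 ^ 6 * ‖w‖ ^ 4 := by
    unfold wt
    have hC0' : 0 < C0 := by linarith
    have hder : 0 < ‖deriv (f (n + 1)) w‖ := lt_of_lt_of_le (by positivity) hf2
    rw [div_le_iff₀ (by positivity)]
    have h4 : ‖f (n + 1) w‖ ^ 4 ≤ (C0 * ‖w‖) ^ 4 := by gcongr
    have h2 : 1 ≤ C0 ^ 2 * ‖deriv (f (n + 1)) w‖ ^ 2 := by
      have : 1 ≤ C0 * ‖deriv (f (n + 1)) w‖ := by
        have := mul_le_mul_of_nonneg_left hf2 hC0'.le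
        rwa [mul_one_div_cancel hC0'.ne'] at this
      calc (1 : ℝ) = 1 ^ 2 := by norm_num
        _ ≤ (C0 * ‖deriv (f (n + 1)) w‖) ^ 2 := by gcongr
        _ = _ := by ring
    calc ‖f (n + 1) w‖ ^ 4 ≤ (C0 * ‖w‖) ^ 4 := h4
      _ = (C0 * ‖w‖) ^ 4 * 1 := by ring
      _ ≤ (C0 * ‖w‖) ^ 4 * (C0 ^ 2 * ‖deriv (f (n + 1)) w‖ ^ 2) := by gcongr
      _ = _ := by ring
  have hval : ‖(f (n + 1) w)⁻¹ - c n‖ ≤ 8 / ‖w‖ := by
    have a1 : ‖(f (n + 1) w)⁻¹‖ ≤ 4 / ‖w‖ :=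
      norm_le_of_KK (h.diff _) (h.inj _) (h.zero _) (h.one _) hs0 (by linarith)
        (h.inv_mem (n + 1) hs0 hwb le_rfl)
    have a2 : ‖c n‖ ≤ 4 / ‖w‖ :=
      norm_le_of_KK (h.diff _) (h.inj _) (h.zero _) (h.one _) hs0 (by linarith)
        (h.c_mem n (by linarith))
    calc ‖(f (n + 1) w)⁻¹ - c n‖ ≤ ‖(f (n + 1) w)⁻¹‖ + ‖c n‖ := norm_sub_le _ _
      _ ≤ 4 / ‖w‖ + 4 / ‖w‖ := add_le_add a1 a2
      _ = 8 / ‖w‖ := by ring
  have h8 : 1 ≤ 8 / ‖w‖ := by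
    rw [le_div_iff₀ hs0]; linarith
  have hHH : HH d c f n w ≤ (8 / ‖w‖) ^ 2 * (C0 ^ 6 * ‖w‖ ^ 4) := by
    unfold HH
    exact mul_le_mul (br10_rpow_le (norm_nonneg _) hval h8 (br10_al_nonneg hdn) (br10_al_le _))
      hwt (wt_nonneg _ _) (by positivity)
  have hpref : (‖z‖ ^ (2 * (d n - 1)))⁻¹ ≤ (‖w‖ ^ 2)⁻¹ := by
    apply inv_anti₀ (by positivity)
    rw [hwn, hz, ← pow_mul]
    exact pow_le_pow_of_le_one hρ0.le hρ1.le (by omega)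
  have hmain : wt (f n) z ≤ 64 * C0 ^ 6 := by
    rw [h.wt_eq n hz1 hz0, ← hw]
    calc (‖z‖ ^ (2 * (d n - 1)))⁻¹ * HH d c f n w
        ≤ (‖w‖ ^ 2)⁻¹ * ((8 / ‖w‖) ^ 2 * (C0 ^ 6 * ‖w‖ ^ 4)) :=
          mul_le_mul hpref hHH (br10_HH_nonneg _ _ _ _ _) (by positivity)
      _ = 64 * C0 ^ 6 := by
          field_simp
          ring
  have hCpos : 0 < 64 * C0 ^ 6 := by positivity
  refine ⟨by nlinarith, ?_⟩
  intro m hm
  subst hm
  have b1 : ‖(f (m + 1) z)⁻¹‖ ≤ 4 / ρ :=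
    norm_le_of_KK (h.diff _) (h.inj _) (h.zero _) (h.one _) hρ0 hρ1.le
      (h.inv_mem (m + 1) hρ0 hz1 hz.ge)
  have b2 : ‖c m‖ ≤ 4 / ρ :=
    norm_le_of_KK (h.diff _) (h.inj _) (h.zero _) (h.one _) hρ0 hρ1.le (h.c_mem m hρ1.le)
  have b3 : 4 / ρ ≤ 16 := by
    rw [div_le_iff₀ hρ0]; linarith
  have b4 : ‖(f (m + 1) z)⁻¹ - c m‖ ≤ 32 := by
    have := norm_sub_le ((f (m + 1) z)⁻¹) (c m)
    linarith
  unfold HH
  calc ‖(f (m + 1) z)⁻¹ - c m‖ ^ al (d m) * wt (f (m + 1)) z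
      ≤ 32 ^ 2 * (64 * C0 ^ 6) :=
        mul_le_mul (br10_rpow_le (norm_nonneg _) b4 (by norm_num) (br10_al_nonneg (h.deg m))
          (br10_al_le _)) hmain (wt_nonneg _ _) (by positivity)
    _ = 1024 * (64 * C0 ^ 6) := by norm_num

end

end Pool.Agent.H58.BR
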