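import Pool.Agent.H58.BR.Prod
import Pool.Agent.H58.BR.Step

/-!
# Project BR: the bound for towers (BR-11)
-/

set_option autoImplicit false

namespace Pool.Agent.H58.BR

open Metric Set Filter Topology
open Real (circleAverage)

theorem DD_zero (d : ℕ → ℕ) : DD d 0 = 1 := by simp [DD]

theorem DD_succ (d : ℕ → ℕ) (n : ℕ) : DD d (n + 1) = DD d n * d n := by
  simp [DD, Finset.prod_range_succ]

theorem DD_pos {d : ℕ → ℕ} (hd : ∀ j, 2 ≤ d j) (n : ℕ) : 1 ≤ DD d n := by
  induction n with
  | zero => rw [DD_zero]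
  | succ n ih =>
    rw [DD_succ]
    have := hd n
    nlinarith

theorem DD_ge {d : ℕ → ℕ} (hd : ∀ j, 2 ≤ d j) (n : ℕ) : n + 1 ≤ DD d n := by
  induction n with
  | zero => rw [DD_zero]
  | succ n ih =>
    rw [DD_succ]
    have := hd n
    nlinarith

/-- the perimeter bounds -/
noncomputable def br11q (d : ℕ → ℕ) (n : ℕ) (a : ℝ) : ℕ → ℝ
  | 0 => a
  | i + 1 => kap (d (n - 1 - i)) * br11q d n a i ^ (1 / (d (n - 1 - i) : ℝ))

theorem br11q_pos (d : ℕ → ℕ) (n : ℕ) {a : ℝ} (ha : 0 < a) (i : ℕ) : 0 < br11q d n a i := by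
  induction i with
  | zero => exact ha
  | succ i ih =>
    rw [br11q]
    have := kap_ge (d (n - 1 - i))
    positivity

section
variable {d : ℕ → ℕ} {c : ℕ → ℂ} {f : ℕ → ℂ → ℂ}

theorem Tower.br11_PB (h : Tower d c f) {r : ℝ} (h0 : 0 < r) (h1 : r ≤ 1) (n : ℕ) (i : ℕ)
    (hi : i ≤ n) :
    PB (KK (f (n - i)) (r ^ DD d (n - i))) (8 * br11q d n (3 / r ^ DD d n) i) := by
  induction i with
  | zero =>
    have hr0 : 0 < r ^ DD d n := by positivity
    have hr1 : r ^ DD d n ≤ 1 := pow_le_one₀ h0.le h1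
    intro a ha b hb e he
    have e1 : ∀ v ∈ KK (f n) (r ^ DD d n), ‖v‖ ≤ 4 / r ^ DD d n := fun v hv =>
      norm_le_of_KK (h.diff n) (h.inj n) (h.zero n) (h.one n) hr0 hr1 hv
    have ea := e1 a ha
    have eb := e1 b hb
    have ee := e1 e he
    have t1 := norm_sub_le a b
    have t2 := norm_sub_le b e
    have t3 := norm_sub_le e a
    rw [br11q]
    have e2 : 8 * (3 / r ^ DD d n) = 6 * (4 / r ^ DD d n) := by ring
    rw [e2]
    linarith
  | succ i ih =>
    have ih' := ih (by omega)
    have e1 : n - i = (n - (i + 1)) + 1 := by omega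
    rw [e1, DD_succ, pow_mul] at ih'
    have h2 := h.perim (n - (i + 1)) (ρ := r ^ DD d (n - (i + 1))) (by positivity)
      (pow_le_one₀ h0.le h1) (br11q_pos d n (by positivity) i) ih'
    rw [br11q]
    have e3 : n - 1 - i = n - (i + 1) := by omega
    rw [e3]
    exact h2

/-- the chain of one-step estimates -/
theorem Tower.br11_chain (h : Tower d c f) {r : ℝ} (h0 : 0 < r) (h1 : r < 1) {q : ℕ → ℝ} {n : ℕ}
    (hq0 : ∀ j, 0 < q j) (hPB : ∀ j ≤ n, PB (KK (f j) (r ^ DD d j)) (8 * q j)) (m : ℕ)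
    (hm : m < n) :
    circleAverage (wt (f 0)) 0 r ≤ (r ^ (2 * (DD d (m + 1) - 1)))⁻¹ *
      (∏ j ∈ Finset.range m, (MM (d j) (d (j + 1)) * q (j + 2) ^ (al (d j) / d (j + 1)))) *
      circleAverage (HH d c f m) 0 (r ^ DD d (m + 1)) := by
  have hMM : ∀ a b : ℕ, 0 ≤ MM a b := by
    intro a b
    unfold MM
    split_ifs <;> positivity
  induction m with
  | zero =>
    rw [h.step_zero h0 h1, Finset.range_zero, Finset.prod_empty, mul_one, zero_add, DD_succ,
      DD_zero, one_mul]
  | succ m ih =>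
    refine (ih (by omega)).trans ?_
    have hpos : 0 < r ^ DD d (m + 1) := by positivity
    have hlt : r ^ DD d (m + 1) < 1 := pow_lt_one₀ h0.le h1 (by have := DD_pos h.deg (m + 1); omega)
    have h2 := h.step_succ m (ρ := r ^ DD d (m + 1)) (q := q (m + 2)) hpos hlt (hq0 _) (by
      rw [← pow_mul, ← DD_succ]
      exact hPB (m + 2) (by omega))
    rw [← pow_mul, ← pow_mul, ← DD_succ] at h2
    have hA : 0 ≤ (r ^ (2 * (DD d (m + 1) - 1)))⁻¹ *
        (∏ j ∈ Finset.range m, (MM (d j) (d (j + 1)) * q (j + 2) ^ (al (d j) / d (j + 1)))) := by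
      apply mul_nonneg (by positivity)
      apply Finset.prod_nonneg
      intro j _
      exact mul_nonneg (hMM _ _) (Real.rpow_nonneg (hq0 _).le _)
    refine (mul_le_mul_of_nonneg_left h2 hA).trans (le_of_eq ?_)
    rw [Finset.prod_range_succ]
    have e1 : 2 * (DD d (m + 1 + 1) - 1)
        = 2 * (DD d (m + 1) - 1) + DD d (m + 1) * (2 * (d (m + 1) - 1)) := by
      rw [DD_succ d (m + 1)]
      obtain ⟨a, ha⟩ := Nat.exists_eq_add_of_le (DD_pos h.deg (m + 1))
      obtain ⟨b, hb⟩ := Nat.exists_eq_add_of_le (h.deg (m + 1))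
      rw [ha, hb]
      have : (1 + a) * (2 + b) - 1 = (1 + a - 1) + (1 + a) * (2 + b - 1) := by
        have e3 : 1 + a - 1 = a := by omega
        have e4 : 2 + b - 1 = 1 + b := by omega
        rw [e3, e4]
        have : (1 + a) * (2 + b) = a + (1 + a) * (1 + b) + 1 := by ring
        omega
      rw [this]
      ring
    rw [e1, pow_add, mul_inv]
    ring

end

theorem br11_log {r : ℝ} (h0 : 0 < r) {N : ℕ} (h : 1 / 4 ≤ r ^ N) : (N : ℝ) * (1 - r) ≤ 2 := by
  have h1 : Real.log r ≤ r - 1 := Real.log_le_sub_one_of_pos h0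
  have h2 : Real.log (1 / 4) ≤ Real.log (r ^ N) := Real.log_le_log (by norm_num) h
  rw [Real.log_pow] at h2
  have h3 : Real.log (1 / 4) = -(2 * Real.log 2) := by
    rw [show (1 / 4 : ℝ) = (2 ^ 2)⁻¹ by norm_num, Real.log_inv, Real.log_pow]
    norm_num
  have h4 := Real.log_two_lt_d9
  have h5 : (N : ℝ) * Real.log r ≤ N * (r - 1) := mul_le_mul_of_nonneg_left h1 (Nat.cast_nonneg N)
  rw [h3] at h2
  nlinarith

theorem tower_bound : ∃ C : ℝ, 0 < C ∧ ∀ (d : ℕ → ℕ) (c : ℕ → ℂ) (f : ℕ → ℂ → ℂ), Tower d c f →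
    ∀ r : ℝ, 0 < r → r < 1 →
      circleAverage (fun z => (‖deriv (f 0) z‖ ^ 2)⁻¹) 0 r ≤ C / (1 - r) ∧
        circleAverage (wt (f 0)) 0 r ≤ C / (1 - r) := by
  obtain ⟨Cw, hCw, hw⟩ := top_bound
  obtain ⟨Cd, hCd, hdist⟩ := distortion
  refine ⟨16 ^ 4 * (16 * 24 * Cw * 2) + Cd ^ 6, by positivity, ?_⟩
  intro d c f h r h0 h1
  have h1r : 0 < 1 - r := by linarith
  have hCw' : 0 < 16 ^ 4 * (16 * 24 * Cw * 2) := by positivity
  have hCd6 : 0 < Cd ^ 6 := by positivity
  have hderiv : ∀ z ∈ ball (0 : ℂ) 1, deriv (f 0) z ≠ 0 := fun z hz =>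
    Pool.Agent.H83.Lo.deriv_ne_zero isOpen_ball (h.diff 0) (h.inj 0) hz
  have hsph : ∀ {ρ : ℝ}, ρ < 1 → sphere (0 : ℂ) ρ ⊆ ball 0 1 := by
    intro ρ hρ z hz
    rw [mem_sphere_zero_iff_norm] at hz
    rw [mem_ball_zero_iff, hz]
    exact hρ
  have hcd : ContinuousOn (fun z => (‖deriv (f 0) z‖ ^ 2)⁻¹) (sphere (0 : ℂ) r) := by
    have h2 : ContinuousOn (deriv (f 0)) (ball 0 1) :=
      ((h.diff 0).deriv isOpen_ball).continuousOn
    have h3 : ContinuousOn (fun z => ‖deriv (f 0) z‖ ^ 2) (ball 0 1) := h2.norm.pow 2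
    refine (h3.inv₀ ?_).mono (hsph h1)
    intro z hz
    have := hderiv z hz
    positivity
  have hwt : ContinuousOn (wt (f 0)) (sphere (0 : ℂ) r) :=
    (wt_cont (h.diff 0) (h.inj 0)).mono (hsph h1)
  rcases lt_or_ge r (1 / 4) with hr | hr
  · -- small radius
    have hinv : ∀ z ∈ sphere (0 : ℂ) r, (‖deriv (f 0) z‖ ^ 2)⁻¹ ≤ Cd ^ 2 := by
      intro z hz
      have hz' : ‖z‖ ≤ 1 / 4 := by rw [mem_sphere_zero_iff_norm.1 hz]; exact hr.le
      have h3 := (hdist (f 0) (h.diff 0) (h.inj 0) (h.zero 0) (h.one 0) z hz').2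
      have h4 : (1 / Cd) ^ 2 ≤ ‖deriv (f 0) z‖ ^ 2 := by gcongr
      have h5 := inv_anti₀ (by positivity) h4
      refine h5.trans (le_of_eq ?_)
      rw [one_div, inv_pow, inv_inv]
    have hfin : ∀ x : ℝ, x ≤ Cd ^ 6 →
        x ≤ (16 ^ 4 * (16 * 24 * Cw * 2) + Cd ^ 6) / (1 - r) := by
      intro x hx
      rw [le_div_iff₀ h1r]
      nlinarith [mul_nonneg hCd6.le h0.le]
    constructor
    · apply hfin
      refine (avg_le h0 hcd hinv).trans ?_
      exact pow_le_pow_right₀ hCd (by norm_num)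
    · apply hfin
      refine avg_le h0 hwt ?_
      intro z hz
      have hz' : ‖z‖ ≤ 1 / 4 := by rw [mem_sphere_zero_iff_norm.1 hz]; exact hr.le
      have h3 := (hdist (f 0) (h.diff 0) (h.inj 0) (h.zero 0) (h.one 0) z hz').1
      have h4 : ‖f 0 z‖ ≤ Cd := by
        refine h3.trans ?_
        nlinarith
      rw [wt, div_eq_mul_inv]
      calc ‖f 0 z‖ ^ 4 * (‖deriv (f 0) z‖ ^ 2)⁻¹ ≤ Cd ^ 4 * Cd ^ 2 := by
            gcongr
            exact hinv z hz
        _ = Cd ^ 6 := by ring
  · -- stop at the right level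
    have hex : ∃ k, r ^ DD d k < 1 / 4 := by
      obtain ⟨k, hk⟩ := exists_pow_lt_of_lt_one (by norm_num : (0 : ℝ) < 1 / 4) h1
      refine ⟨k, lt_of_le_of_lt ?_ hk⟩
      apply pow_le_pow_of_le_one h0.le h1.le
      have := DD_ge h.deg k
      omega
    obtain ⟨n, hn, hn1⟩ : ∃ n, 1 / 4 ≤ r ^ DD d n ∧ r ^ DD d (n + 1) < 1 / 4 := by
      classical
      have h2 := Nat.find_spec hex
      have h3 : Nat.find hex ≠ 0 := by
        intro h4
        rw [h4, DD_zero, pow_one] at h2
        linarith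
      obtain ⟨n, hn⟩ := Nat.exists_eq_succ_of_ne_zero h3
      refine ⟨n, ?_, ?_⟩
      · by_contra hcon
        have := Nat.find_min' hex (not_le.1 hcon)
        omega
      · rw [hn] at h2
        exact h2
    have hρ0 : 0 < r ^ DD d n := by positivity
    have hρ1 : r ^ DD d n < 1 := pow_lt_one₀ h0.le h1 (by have := DD_pos h.deg n; omega)
    have htop := hw d c f h n (r ^ DD d n) hn hρ1 (by rw [← pow_mul, ← DD_succ]; exact hn1)
    have hkey : circleAverage (wt (f 0)) 0 r ≤ 16 * 24 * Cw * DD d n := by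
      rcases Nat.eq_zero_or_pos n with hn0 | hn0
      · subst hn0
        have h2 : circleAverage (wt (f 0)) 0 r ≤ Cw := by
          refine avg_le h0 hwt ?_
          intro z hz
          have h3 := (htop z (by rw [DD_zero, pow_one]; exact hz)).1
          exact h3
        rw [DD_zero]
        push_cast
        linarith
      · obtain ⟨m, rfl⟩ := Nat.exists_eq_succ_of_ne_zero hn0.ne'
        rw [Nat.succ_eq_add_one] at *
        set q : ℕ → ℝ := fun j => br11q d (m + 1) (3 / r ^ DD d (m + 1)) (m + 1 - j) with hq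
        have hq0 : ∀ j, 0 < q j := fun j => br11q_pos d (m + 1) (by positivity) _
        have hPB : ∀ j ≤ m + 1, PB (KK (f j) (r ^ DD d j)) (8 * q j) := by
          intro j hj
          have h2 := h.br11_PB h0 h1.le (m + 1) (m + 1 - j) (by omega)
          have e1 : m + 1 - (m + 1 - j) = j := by omega
          rw [e1] at h2
          exact h2
        have hchain := h.br11_chain h0 h1 hq0 hPB m (by omega)
        have hqrec : ∀ j < m + 1, q j ≤ kap (d j) * q (j + 1) ^ (1 / (d j : ℝ)) := by
          intro j hj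
          apply le_of_eq
          have e1 : m + 1 - j = (m + 1 - (j + 1)) + 1 := by omega
          have e2 : m + 1 - 1 - (m + 1 - (j + 1)) = j := by omega
          simp only [hq]
          rw [e1, br11q, e2]
        have hprod := pot_prod h.deg hq0 hqrec m (by omega)
        have hqm : q (m + 1) = 3 / r ^ DD d (m + 1) := by
          simp only [hq, Nat.sub_self]
          rfl
        have hq1 : 1 ≤ q (m + 1) := by
          rw [hqm, le_div_iff₀ hρ0]
          linarith
        have hq12 : q (m + 1) ≤ 12 := by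
          rw [hqm, div_le_iff₀ hρ0]
          linarith
        have hdm := h.deg m
        have hdm' : (2 : ℝ) ≤ d m := by exact_mod_cast hdm
        have hexp : 2 / (d m : ℝ) - 2 / (DD d (m + 1) : ℝ) ≤ 1 := by
          have h2 : 2 / (d m : ℝ) ≤ 1 := by
            rw [div_le_one (by positivity)]
            exact hdm'
          have h3 : 0 ≤ 2 / (DD d (m + 1) : ℝ) := by positivity
          linarith
        have hqe : q (m + 1) ^ (2 / (d m : ℝ) - 2 / (DD d (m + 1) : ℝ)) ≤ 12 := by
          calc _ ≤ q (m + 1) ^ (1 : ℝ) := Real.rpow_le_rpow_of_exponent_le hq1 hexp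
            _ ≤ 12 := by rw [Real.rpow_one]; exact hq12
        have hpsi : psi (d 0) / psi (d m) ≤ 2 * d m := by
          have h2 := psi_le (h.deg 0)
          have h3 := psi_ge (h.deg m)
          have h4 : 0 < psi (d m) := lt_of_lt_of_le (by positivity) h3
          rw [div_le_iff₀ h4]
          have h5 : 2 * (d m : ℝ) * (2 / d m) = 4 := by
            field_simp
            norm_num
          have h6 : 2 * (d m : ℝ) * (2 / d m) ≤ 2 * d m * psi (d m) := by gcongr
          linarith
        have hpsi0 : 0 ≤ psi (d 0) / psi (d m) := by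
          have h2 := psi_ge (h.deg 0)
          have h3 := psi_ge (h.deg m)
          have h4 : 0 < psi (d m) := lt_of_lt_of_le (by positivity) h3
          have h5 : 0 < psi (d 0) :=
            lt_of_lt_of_le (by have := h.deg 0; positivity) h2
          positivity
        have hprod2 : ∏ j ∈ Finset.range m,
            (MM (d j) (d (j + 1)) * q (j + 2) ^ (al (d j) / d (j + 1))) ≤
            24 * DD d (m + 1) := by
          refine hprod.trans ?_
          calc (DD d m : ℝ) * (psi (d 0) / psi (d m)) *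
              q (m + 1) ^ (2 / (d m : ℝ) - 2 / (DD d (m + 1) : ℝ))
              ≤ DD d m * (2 * d m) * 12 := by gcongr
            _ = 24 * DD d (m + 1) := by
              rw [DD_succ d m]
              push_cast
              ring
        have hrad : (r ^ (2 * (DD d (m + 1) - 1)))⁻¹ ≤ 16 := by
          have h2 : r ^ (2 * DD d (m + 1)) ≤ r ^ (2 * (DD d (m + 1) - 1)) :=
            pow_le_pow_of_le_one h0.le h1.le (by omega)
          have h3 : (1 / 16 : ℝ) ≤ r ^ (2 * DD d (m + 1)) := by
            rw [mul_comm, pow_mul]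
            nlinarith
          calc (r ^ (2 * (DD d (m + 1) - 1)))⁻¹ ≤ (1 / 16 : ℝ)⁻¹ :=
                inv_anti₀ (by norm_num) (h3.trans h2)
            _ = 16 := by norm_num
        have hlast : circleAverage (HH d c f m) 0 (r ^ DD d (m + 1)) ≤ Cw := by
          refine avg_le hρ0 ?_ ?_
          · refine (h.HH_cont m).mono ?_
            intro z hz
            refine ⟨hsph hρ1 hz, ?_⟩
            rintro hz0
            rw [mem_singleton_iff] at hz0
            rw [hz0, mem_sphere_zero_iff_norm, norm_zero] at hz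
            exact hρ0.ne hz
          · intro z hz
            exact (htop z hz).2 m rfl
        have hMM : ∀ a b : ℕ, 0 ≤ MM a b := by
          intro a b
          unfold MM
          split_ifs <;> positivity
        have hprod0 : 0 ≤ ∏ j ∈ Finset.range m,
            (MM (d j) (d (j + 1)) * q (j + 2) ^ (al (d j) / d (j + 1))) := by
          apply Finset.prod_nonneg
          intro j _
          exact mul_nonneg (hMM _ _) (Real.rpow_nonneg (hq0 _).le _)
        refine hchain.trans ?_
        calc (r ^ (2 * (DD d (m + 1) - 1)))⁻¹ *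
            (∏ j ∈ Finset.range m,
              (MM (d j) (d (j + 1)) * q (j + 2) ^ (al (d j) / d (j + 1)))) *
            circleAverage (HH d c f m) 0 (r ^ DD d (m + 1))
            ≤ (r ^ (2 * (DD d (m + 1) - 1)))⁻¹ *
            (∏ j ∈ Finset.range m,
              (MM (d j) (d (j + 1)) * q (j + 2) ^ (al (d j) / d (j + 1)))) * Cw := by
              gcongr
          _ ≤ 16 * (24 * DD d (m + 1)) * Cw := by gcongr
          _ = 16 * 24 * Cw * DD d (m + 1) := by ring
    -- from the weight to the derivative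
    have hcomp : circleAverage (fun z => (‖deriv (f 0) z‖ ^ 2)⁻¹) 0 r ≤
        16 ^ 4 * circleAverage (wt (f 0)) 0 r := by
      rw [← smul_eq_mul, ← Real.circleAverage_smul]
      apply Real.circleAverage_mono
      · refine ContinuousOn.circleIntegrable h0.le hcd
      · exact (ContinuousOn.circleIntegrable h0.le hwt).const_smul
      · intro z hz
        rw [abs_of_pos h0] at hz
        have hzb := hsph h1 hz
        have hzn : ‖z‖ = r := mem_sphere_zero_iff_norm.1 hz
        have hz0 : z ≠ 0 := by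
          rw [← norm_pos_iff, hzn]; exact h0
        have hfne := h.ne 0 hzb hz0
        have hinv := h.inv_mem 0 h0 hzb hzn.ge
        have hb := norm_le_of_KK (h.diff 0) (h.inj 0) (h.zero 0) (h.one 0) h0 h1.le hinv
        have hb16 : ‖(f 0 z)⁻¹‖ ≤ 16 := by
          refine hb.trans ?_
          rw [div_le_iff₀ h0]
          linarith
        rw [norm_inv] at hb16
        have hf1 : 1 ≤ 16 * ‖f 0 z‖ := by
          have hpos : 0 < ‖f 0 z‖ := norm_pos_iff.2 hfne
          rw [inv_le_iff_one_le_mul₀ hpos] at hb16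
          linarith
        have hd0 := hderiv z hzb
        have hdpos : 0 < ‖deriv (f 0) z‖ := norm_pos_iff.2 hd0
        simp only [Pi.smul_apply, smul_eq_mul, wt]
        rw [← mul_div_assoc, ← mul_pow, ← one_div]
        gcongr
        exact one_le_pow₀ hf1
    have hN := br11_log h0 hn
    have h9 : circleAverage (wt (f 0)) 0 r * (1 - r) ≤ 16 * 24 * Cw * 2 := by
      calc circleAverage (wt (f 0)) 0 r * (1 - r) ≤ (16 * 24 * Cw * DD d n) * (1 - r) := by
            gcongr
        _ = 16 * 24 * Cw * (DD d n * (1 - r)) := by ring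
        _ ≤ 16 * 24 * Cw * 2 := by gcongr
    constructor
    · refine hcomp.trans ?_
      rw [le_div_iff₀ h1r]
      nlinarith
    · rw [le_div_iff₀ h1r]
      nlinarith

end Pool.Agent.H58.BR
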