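import Pool.Agent.H58.BR.Defs

/-!
Project BR, row BR-16: change of the base point (Poisson kernel, Fubini, mean value property).
-/

set_option autoImplicit false

namespace Pool.Agent.H58.BR

open Metric Set Filter Topology
open Real (circleAverage)
open scoped ComplexConjugate

theorem br16_den {a z : ℂ} {r : ℝ} (ha : ‖a‖ < 1) (hr : r < 1) (hz : ‖z‖ ≤ r) :
    1 - conj a * z ≠ 0 := by
  intro h
  have h1 : conj a * z = 1 := (sub_eq_zero.1 h).symm
  have h2 : ‖conj a * z‖ = 1 := by rw [h1, norm_one]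
  rw [norm_mul, Complex.norm_conj] at h2
  nlinarith [norm_nonneg a, norm_nonneg z]

theorem br16_psi {a z : ℂ} {r : ℝ} (ha : ‖a‖ < 1) (h0 : 0 ≤ r) (hr : r < 1) (hz : ‖z‖ ≤ r) :
    ‖(z - a) / (1 - conj a * z)‖ ≤ (r + ‖a‖) / (1 + r * ‖a‖) := by
  have hd := br16_den ha hr hz
  have ha0 := norm_nonneg a
  have hz0 := norm_nonneg z
  have e1 : ‖z - a‖ ^ 2 = ‖z‖ ^ 2 + ‖a‖ ^ 2 - 2 * (conj a * z).re := by
    rw [← Complex.normSq_eq_norm_sq, ← Complex.normSq_eq_norm_sq, ← Complex.normSq_eq_norm_sq,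
      Complex.normSq_sub, mul_comm z (conj a)]
  have e2 : ‖1 - conj a * z‖ ^ 2 = 1 + ‖a‖ ^ 2 * ‖z‖ ^ 2 - 2 * (conj a * z).re := by
    rw [← Complex.normSq_eq_norm_sq, ← Complex.normSq_eq_norm_sq, ← Complex.normSq_eq_norm_sq,
      Complex.normSq_sub, one_mul, Complex.conj_re, map_one, map_mul, Complex.normSq_conj]
  have e3 : -(‖a‖ * ‖z‖) ≤ (conj a * z).re := by
    have h := (abs_le.1 (Complex.abs_re_le_norm (conj a * z))).1
    rw [norm_mul, Complex.norm_conj] at h
    exact h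
  rw [norm_div, div_le_div_iff₀ (norm_pos_iff.2 hd) (by positivity)]
  rw [← pow_le_pow_iff_left₀ (by positivity) (by positivity) two_ne_zero, mul_pow, mul_pow, e1, e2]
  generalize (conj a * z).re = t at *
  generalize ‖a‖ = α at *
  generalize ‖z‖ = s at *
  have h1 : (s + α) * (1 + r * α) ≤ (r + α) * (1 + α * s) := by
    nlinarith [mul_nonneg (sub_nonneg.2 hz) (by nlinarith : (0 : ℝ) ≤ 1 - α ^ 2)]
  have h2 : ((s + α) * (1 + r * α)) ^ 2 ≤ ((r + α) * (1 + α * s)) ^ 2 :=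
    pow_le_pow_left₀ (by positivity) h1 2
  have h3 : 0 ≤ (1 + r * α) ^ 2 - (r + α) ^ 2 := by
    have : (1 + r * α) ^ 2 - (r + α) ^ 2 = (1 - r ^ 2) * (1 - α ^ 2) := by ring
    rw [this]
    exact mul_nonneg (by nlinarith) (by nlinarith)
  have h4 : 0 ≤ 2 * (t + α * s) * ((1 + r * α) ^ 2 - (r + α) ^ 2) :=
    mul_nonneg (by linarith) h3
  nlinarith

theorem br16_poisson {G : ℂ → ℂ} (hG : DifferentiableOn ℂ G (ball 0 1)) {R : ℝ} (h0 : 0 < R)
    (h1 : R < 1) {w : ℂ} (hw : ‖w‖ < R) :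
    ‖G w‖ ^ 2 ≤ (2 * Real.pi)⁻¹ * ∫ θ in (0 : ℝ)..2 * Real.pi,
      ((circleMap 0 R θ + w) / (circleMap 0 R θ - w)).re * ‖G (circleMap 0 R θ)‖ ^ 2 := by
  have hF : DiffContOnCl ℂ (fun w => G w ^ 2) (ball 0 R) := by
    apply DifferentiableOn.diffContOnCl
    rw [closure_ball 0 h0.ne']
    exact (hG.mono (closedBall_subset_ball h1)).pow 2
  have h := hF.circleAverage_re_herglotzRieszKernel_smul (w := w) (by simpa using hw)
  rw [Real.circleAverage_def] at h
  have h2 : ‖G w‖ ^ 2 = ‖G w ^ 2‖ := by rw [norm_pow]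
  rw [h2, ← h, norm_smul, Real.norm_of_nonneg (by positivity)]
  refine mul_le_mul_of_nonneg_left ?_ (by positivity)
  refine (intervalIntegral.norm_integral_le_integral_norm (by positivity)).trans (le_of_eq ?_)
  apply intervalIntegral.integral_congr
  intro θ _
  have hz : circleMap 0 R θ ∈ sphere (0 : ℂ) R := circleMap_mem_sphere 0 h0.le θ
  have h3 := le_re_herglotzRieszKernel hz (w := w) (by simpa using hw)
  simp only [sub_zero] at h3
  have h4 : (0 : ℝ) ≤ (R - ‖w‖) / (R + ‖w‖) :=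
    div_nonneg (by linarith) (by linarith [norm_nonneg w])
  simp only [Pi.smul_apply', Function.comp_apply, herglotzRieszKernel_def, sub_zero, norm_smul,
    norm_pow]
  rw [Real.norm_of_nonneg (h4.trans h3)]

theorem avg_mobius {G : ℂ → ℂ} (hG : DifferentiableOn ℂ G (ball 0 1)) {a : ℂ} (ha : ‖a‖ < 1)
    {r R : ℝ} (h0 : 0 < r) (h1 : r < 1) (hR : (r + ‖a‖) / (1 + r * ‖a‖) < R) (hR1 : R < 1) :
    circleAverage (fun z => ‖G ((z - a) / (1 - conj a * z))‖ ^ 2) 0 r ≤
      (R + ‖a‖) / (R - ‖a‖) * circleAverage (fun w => ‖G w‖ ^ 2) 0 R := by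
  have ha0 := norm_nonneg a
  have hR0 : 0 < R := lt_of_le_of_lt (by positivity) hR
  have haR : ‖a‖ < R := by
    refine lt_of_le_of_lt ?_ hR
    rw [le_div_iff₀ (by positivity)]
    nlinarith [mul_nonneg h0.le (by nlinarith : (0 : ℝ) ≤ 1 - ‖a‖ ^ 2)]
  set ψ : ℂ → ℂ := fun z => (z - a) / (1 - conj a * z) with hψ
  have hψR : ∀ z : ℂ, ‖z‖ ≤ r → ‖ψ z‖ < R := fun z hz => (br16_psi ha h0.le h1 hz).trans_lt hR
  have hzn : ∀ φ : ℝ, ‖circleMap 0 r φ‖ ≤ r := fun φ => by
    rw [norm_circleMap_zero, abs_of_pos h0]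
  have hζn : ∀ θ : ℝ, ‖circleMap 0 R θ‖ = R := fun θ => by
    rw [norm_circleMap_zero, abs_of_pos hR0]
  have hne : ∀ (w : ℂ) (θ : ℝ), ‖w‖ < R → circleMap 0 R θ - w ≠ 0 := by
    intro w θ hw h
    rw [sub_eq_zero] at h
    rw [← h, hζn] at hw
    exact lt_irrefl _ hw
  have hψc : Continuous fun φ : ℝ => ψ (circleMap 0 r φ) := by
    refine Continuous.div (by fun_prop) (by fun_prop) fun φ => br16_den ha h1 (hzn φ)
  have hGc : ContinuousOn G (ball 0 1) := hG.continuousOn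
  have hGζ : Continuous fun θ : ℝ => G (circleMap 0 R θ) :=
    hGc.comp_continuous (by fun_prop) fun θ => by
      rw [mem_ball_zero_iff, hζn]
      exact hR1
  have hGψ : Continuous fun φ : ℝ => G (ψ (circleMap 0 r φ)) :=
    hGc.comp_continuous hψc fun φ => by
      rw [mem_ball_zero_iff]
      exact (hψR _ (hzn φ)).trans hR1
  set J : ℝ → ℝ → ℝ := fun φ θ =>
    ((circleMap 0 R θ + ψ (circleMap 0 r φ)) / (circleMap 0 R θ - ψ (circleMap 0 r φ))).re *
      ‖G (circleMap 0 R θ)‖ ^ 2 with hJ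
  have hJc : Continuous (Function.uncurry J) := by
    have c1 : Continuous fun p : ℝ × ℝ => circleMap 0 R p.2 := by fun_prop
    have c2 : Continuous fun p : ℝ × ℝ => ψ (circleMap 0 r p.1) := hψc.comp continuous_fst
    have c3 : Continuous fun p : ℝ × ℝ => G (circleMap 0 R p.2) := hGζ.comp continuous_snd
    exact (Complex.continuous_re.comp ((c1.add c2).div (c1.sub c2)
      fun p => hne _ _ (hψR _ (hzn _)))).mul ((continuous_norm.comp c3).pow 2)
  have hπ : (0 : ℝ) ≤ 2 * Real.pi := by positivity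
  have hπ0 : (0 : ℝ) < 2 * Real.pi := by positivity
  -- first step: Poisson formula
  have s1 : circleAverage (fun z => ‖G (ψ z)‖ ^ 2) 0 r ≤ (2 * Real.pi)⁻¹ *
      ∫ φ in (0 : ℝ)..2 * Real.pi, (2 * Real.pi)⁻¹ * ∫ θ in (0 : ℝ)..2 * Real.pi, J φ θ := by
    rw [Real.circleAverage_def, smul_eq_mul]
    refine mul_le_mul_of_nonneg_left ?_ (by positivity)
    refine intervalIntegral.integral_mono_on hπ ?_ ?_ ?_
    · exact ((continuous_norm.comp hGψ).pow 2).intervalIntegrable _ _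
    · exact (continuous_const.mul
        (intervalIntegral.continuous_parametric_intervalIntegral_of_continuous' hJc _ _)).intervalIntegrable
          _ _
    · intro φ _
      exact br16_poisson hG hR0 hR1 (hψR _ (hzn φ))
  -- the mean value property
  have s2 : ∀ θ : ℝ, ∫ φ in (0 : ℝ)..2 * Real.pi, J φ θ ≤
      2 * Real.pi * ((R + ‖a‖) / (R - ‖a‖) * ‖G (circleMap 0 R θ)‖ ^ 2) := by
    intro θ
    set H : ℂ → ℂ := fun z => (circleMap 0 R θ + ψ z) / (circleMap 0 R θ - ψ z) with hH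
    have d1 : DifferentiableOn ℂ ψ (closedBall 0 r) := by
      refine DifferentiableOn.div (by fun_prop) (by fun_prop) fun z hz => br16_den ha h1 ?_
      simpa using hz
    have d2 : DifferentiableOn ℂ H (closedBall 0 r) := by
      refine DifferentiableOn.div (d1.const_add _) (d1.const_sub _) fun z hz => hne _ _ (hψR z ?_)
      simpa using hz
    have d3 : DiffContOnCl ℂ H (ball 0 |r|) := by
      apply DifferentiableOn.diffContOnCl
      rw [abs_of_pos h0, closure_ball 0 h0.ne']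
      exact d2
    have d4 := d3.circleAverage
    have d5 : CircleIntegrable H 0 r :=
      (d2.continuousOn.mono sphere_subset_closedBall).circleIntegrable h0.le
    have d6 := Complex.reCLM.circleAverage_comp_comm d5
    rw [d4] at d6
    have d7 : Complex.reCLM (H 0) ≤ (R + ‖a‖) / (R - ‖a‖) := by
      have hζ : circleMap 0 R θ ∈ sphere (0 : ℂ) R := circleMap_mem_sphere 0 hR0.le θ
      have h := re_herglotzRieszKernel_le hζ (w := -a) (by simpa using haR)
      simp only [sub_zero, norm_neg] at h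
      simpa [hH, hψ] using h
    rw [← d6, Real.circleAverage_def, smul_eq_mul] at d7
    have d8 : ∫ φ in (0 : ℝ)..2 * Real.pi, J φ θ =
        (∫ φ in (0 : ℝ)..2 * Real.pi, (Complex.reCLM ∘ H) (circleMap 0 r φ)) *
          ‖G (circleMap 0 R θ)‖ ^ 2 := by
      rw [← intervalIntegral.integral_mul_const]
      rfl
    rw [d8, ← mul_assoc]
    refine mul_le_mul_of_nonneg_right ?_ (by positivity)
    rw [inv_mul_le_iff₀ hπ0] at d7
    exact d7
  -- exchange of the integrals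
  have hsw : Continuous (Function.uncurry fun θ φ => J φ θ) := by
    have hsw' : Continuous (fun p : ℝ × ℝ => Function.uncurry J (p.2, p.1)) :=
      hJc.comp (continuous_snd.prodMk continuous_fst)
    exact hsw'
  clear_value J
  have hI : MeasureTheory.IntegrableOn (Function.uncurry J)
      (Set.uIoc (0 : ℝ) (2 * Real.pi) ×ˢ Set.uIoc (0 : ℝ) (2 * Real.pi)) := by
    have hK : IsCompact (Set.Icc (0 : ℝ) (2 * Real.pi) ×ˢ Set.Icc (0 : ℝ) (2 * Real.pi)) :=
      isCompact_Icc.prod isCompact_Icc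
    have hI0 : MeasureTheory.IntegrableOn (Function.uncurry J)
        (Set.Icc (0 : ℝ) (2 * Real.pi) ×ˢ Set.Icc (0 : ℝ) (2 * Real.pi)) :=
      hJc.continuousOn.integrableOn_compact hK
    rw [Set.uIoc_of_le hπ]
    exact hI0.mono_set (Set.prod_mono Set.Ioc_subset_Icc_self Set.Ioc_subset_Icc_self)
  have s3' := MeasureTheory.intervalIntegral_intervalIntegral_swap (F := J) hI
  have s3 : ∫ φ in (0 : ℝ)..2 * Real.pi, (2 * Real.pi)⁻¹ * ∫ θ in (0 : ℝ)..2 * Real.pi, J φ θ =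
      (2 * Real.pi)⁻¹ * ∫ θ in (0 : ℝ)..2 * Real.pi, ∫ φ in (0 : ℝ)..2 * Real.pi, J φ θ := by
    rw [intervalIntegral.integral_const_mul, s3']
  have s4 : ∫ θ in (0 : ℝ)..2 * Real.pi, ∫ φ in (0 : ℝ)..2 * Real.pi, J φ θ ≤
      ∫ θ in (0 : ℝ)..2 * Real.pi, 2 * Real.pi * ((R + ‖a‖) / (R - ‖a‖) *
        ‖G (circleMap 0 R θ)‖ ^ 2) := by
    refine intervalIntegral.integral_mono_on hπ ?_ ?_ (fun θ _ => s2 θ)
    · exact (intervalIntegral.continuous_parametric_intervalIntegral_of_continuous'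
        hsw _ _).intervalIntegrable _ _
    · exact (continuous_const.mul (continuous_const.mul
        ((continuous_norm.comp hGζ).pow 2))).intervalIntegrable _ _
  rw [intervalIntegral.integral_const_mul, intervalIntegral.integral_const_mul] at s4
  rw [s3] at s1
  refine s1.trans ?_
  rw [Real.circleAverage_def, smul_eq_mul]
  have s5 : (2 * Real.pi)⁻¹ * ((2 * Real.pi)⁻¹ *
      ∫ θ in (0 : ℝ)..2 * Real.pi, ∫ φ in (0 : ℝ)..2 * Real.pi, J φ θ) ≤
      (2 * Real.pi)⁻¹ * ((2 * Real.pi)⁻¹ * (2 * Real.pi * ((R + ‖a‖) / (R - ‖a‖) *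
        ∫ θ in (0 : ℝ)..2 * Real.pi, ‖G (circleMap 0 R θ)‖ ^ 2))) := by
    gcongr
  refine s5.trans (le_of_eq ?_)
  field_simp

end Pool.Agent.H58.BR
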