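import Mathlib

/-!
# Non-autonomous iteration of unicritical polynomials and integral means of `|f'| ^ (-2)`

Definitions for MP_f801da_an (project BR).
-/

set_option autoImplicit false

namespace Pool.Agent.H58.BR

open Metric Set

/-! ### Definitions used in the final statement -/

/-- The orbit of `z` under the maps `z ↦ z ^ d j + c j`, `z ↦ z ^ d (j + 1) + c (j + 1)`, … -/
def orb (d : ℕ → ℕ) (c : ℕ → ℂ) (j : ℕ) (z : ℂ) : ℕ → ℂ
  | 0 => z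
  | n + 1 => orb d c j z n ^ d (j + n) + c (j + n)

/-- The filled Julia set of the iteration which starts at time `j`: the points whose orbit under
`z ↦ z ^ d j + c j`, `z ↦ z ^ d (j + 1) + c (j + 1)`, … is bounded. -/
def K (d : ℕ → ℕ) (c : ℕ → ℂ) (j : ℕ) : Set ℂ := {z | ∃ B : ℝ, ∀ n, ‖orb d c j z n‖ ≤ B}

/-! ### Auxiliary definitions -/

/-- the `d`-th roots of unity -/
noncomputable def RU (d : ℕ) : Finset ℂ := Polynomial.nthRootsFinset d (1 : ℂ)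

/-- Normalised Riemann maps at all times; `(f j z)⁻¹ ^ d j + c j = (f (j + 1) (z ^ d j))⁻¹`. -/
structure Tower (d : ℕ → ℕ) (c : ℕ → ℂ) (f : ℕ → ℂ → ℂ) : Prop where
  deg : ∀ j, 2 ≤ d j
  diff : ∀ j, DifferentiableOn ℂ (f j) (ball 0 1)
  inj : ∀ j, InjOn (f j) (ball 0 1)
  zero : ∀ j, f j 0 = 0
  one : ∀ j, deriv (f j) 0 = 1
  eq : ∀ j, ∀ z ∈ ball (0 : ℂ) 1,
    f j z ^ d j = f (j + 1) (z ^ d j) * (1 + c j * f j z ^ d j)

/-- the complement of the values of `1 / f` on `0 < |z| < ρ` -/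
def KK (f : ℂ → ℂ) (ρ : ℝ) : Set ℂ := {v | ∀ z, 0 < ‖z‖ → ‖z‖ < ρ → v * f z ≠ 1}

/-- all triangles with vertices in `S` have perimeter at most `p` -/
def PB (S : Set ℂ) (p : ℝ) : Prop :=
  ∀ a ∈ S, ∀ b ∈ S, ∀ e ∈ S, ‖a - b‖ + ‖b - e‖ + ‖e - a‖ ≤ p

/-- the weight `1 / |(1 / f)'| ^ 2` -/
noncomputable def wt (f : ℂ → ℂ) (z : ℂ) : ℝ := ‖f z‖ ^ 4 / ‖deriv f z‖ ^ 2

/-- the exponent `2 - 2 / d` -/
noncomputable def al (d : ℕ) : ℝ := 2 - 2 / (d : ℝ)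

/-- the function averaged after `j + 1` steps: `|1 / f (j + 1) - c j| ^ (2 - 2 / d j)` times the
weight -/
noncomputable def HH (d : ℕ → ℕ) (c : ℕ → ℂ) (f : ℕ → ℂ → ℂ) (j : ℕ) (z : ℂ) : ℝ :=
  ‖(f (j + 1) z)⁻¹ - c j‖ ^ al (d j) * wt (f (j + 1)) z

/-- the products of the degrees -/
def DD (d : ℕ → ℕ) (n : ℕ) : ℕ := ∏ i ∈ Finset.range n, d i

/-- constants of the perimeter recursion -/
noncomputable def kap (d : ℕ) : ℝ :=
  if d = 3 then 3 * Real.sqrt 3 * 4 ^ (1 / 3 : ℝ) / 8 else 1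

/-- the potential -/
noncomputable def psi (d : ℕ) : ℝ := 16 ^ (1 - 1 / (d : ℝ)) / (2 * d)

/-- constants of the one-step estimate -/
noncomputable def MM (d e : ℕ) : ℝ :=
  if e = 2 then 16 ^ (1 - 1 / (d : ℝ)) / 2
  else if d = 2 ∧ e = 3 then (32 / (3 * Real.sqrt 3)) ^ (1 / 3 : ℝ)
  else (2 * 4 ^ (2 / (e : ℝ))) ^ (1 - 1 / (d : ℝ))

end Pool.Agent.H58.BR
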