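import Pool.Agent.H58.BR.Defs

/-!
Project BR (MP_f801da_an), row BR-12: a function invariant under `z ↦ ζ z` is a function of
`z ^ d` (helper47 for helper58).
-/

set_option autoImplicit false

namespace Pool.Agent.H58.BR

open Metric Set Filter Topology

theorem br12_eq {d : ℕ} (hd : 1 ≤ d) {G : ℂ → ℂ}
    (hs : ∀ z ∈ ball (0 : ℂ) 1, ∀ ζ : ℂ, ζ ^ d = 1 → G (ζ * z) = G z) {z v : ℂ}
    (hz : z ∈ ball (0 : ℂ) 1) (hv : v ^ d = z ^ d) : G v = G z := by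
  have hd0 : d ≠ 0 := by omega
  by_cases h0 : z = 0
  · rw [h0, zero_pow hd0] at hv
    rw [eq_zero_of_pow_eq_zero hv, h0]
  · have h1 : (v / z) ^ d = 1 := by
      rw [div_pow, hv, div_self (pow_ne_zero d h0)]
    have h2 := hs z hz (v / z) h1
    rwa [div_mul_cancel₀ v h0] at h2

theorem br12_norm {d : ℕ} {z w : ℂ} (h : z ^ d = w) (hw : w ∈ ball (0 : ℂ) 1) :
    z ∈ ball (0 : ℂ) 1 := by
  rw [mem_ball_zero_iff] at hw ⊢
  by_contra hcon
  rw [← h, norm_pow] at hw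
  exact absurd hw (not_lt.2 (one_le_pow₀ (not_lt.1 hcon)))

theorem descent {d : ℕ} (hd : 1 ≤ d) {G : ℂ → ℂ} (hG : DifferentiableOn ℂ G (ball 0 1))
    (hs : ∀ z ∈ ball (0 : ℂ) 1, ∀ ζ : ℂ, ζ ^ d = 1 → G (ζ * z) = G z) :
    ∃ g : ℂ → ℂ, DifferentiableOn ℂ g (ball 0 1) ∧ ∀ z ∈ ball (0 : ℂ) 1, G z = g (z ^ d) := by
  have hd0 : d ≠ 0 := by omega
  have hroot : ∀ w : ℂ, (w ^ ((d : ℂ)⁻¹)) ^ d = w := fun w => Complex.cpow_nat_inv_pow w hd0
  have hg : ∀ w ∈ ball (0 : ℂ) 1, ∀ v : ℂ, v ^ d = w → G (w ^ ((d : ℂ)⁻¹)) = G v := by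
    intro w hw v hv
    exact br12_eq hd hs (br12_norm hv hw) (by rw [hroot, hv])
  refine ⟨fun w => G (w ^ ((d : ℂ)⁻¹)), ?_, ?_⟩
  · rw [← Complex.differentiableOn_compl_singleton_and_continuousAt_iff
      (c := (0 : ℂ)) (ball_mem_nhds 0 one_pos)]
    constructor
    · intro w0 hw0
      obtain ⟨hw0b, hw0n⟩ := hw0
      have hne : w0 ≠ 0 := hw0n
      set z0 : ℂ := w0 ^ ((d : ℂ)⁻¹) with hz0
      have hφd : DifferentiableAt ℂ (fun w : ℂ => z0 * (w / w0) ^ ((d : ℂ)⁻¹)) w0 := by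
        apply DifferentiableAt.const_mul
        apply DifferentiableAt.cpow_const
        · exact differentiableAt_id.div_const w0
        · rw [div_self hne]
          exact Complex.one_mem_slitPlane
      have hφ : ∀ w : ℂ, (z0 * (w / w0) ^ ((d : ℂ)⁻¹)) ^ d = w := by
        intro w
        rw [mul_pow, hroot (w / w0), hz0, hroot w0, mul_div_cancel₀ w hne]
      have hφ0 : z0 * (w0 / w0) ^ ((d : ℂ)⁻¹) ∈ ball (0 : ℂ) 1 := br12_norm (hφ w0) hw0b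
      have hGd : DifferentiableAt ℂ G (z0 * (w0 / w0) ^ ((d : ℂ)⁻¹)) :=
        hG.differentiableAt (isOpen_ball.mem_nhds hφ0)
      have hcomp : DifferentiableAt ℂ (fun w : ℂ => G (z0 * (w / w0) ^ ((d : ℂ)⁻¹))) w0 :=
        hGd.comp w0 hφd
      have heq : (fun w : ℂ => G (w ^ ((d : ℂ)⁻¹))) =ᶠ[𝓝 w0]
          fun w : ℂ => G (z0 * (w / w0) ^ ((d : ℂ)⁻¹)) := by
        filter_upwards [isOpen_ball.mem_nhds hw0b] with w hw
        exact hg w hw _ (hφ w)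
      exact (hcomp.congr_of_eventuallyEq heq).differentiableWithinAt
    · have hre : 0 < ((d : ℂ)⁻¹).re := by
        have h2 : ((d : ℂ)⁻¹) = (((d : ℝ)⁻¹ : ℝ) : ℂ) := by push_cast; rfl
        rw [h2, Complex.ofReal_re]
        positivity
      have h1 : ContinuousAt (fun w : ℂ => w ^ ((d : ℂ)⁻¹)) 0 :=
        Complex.continuousAt_cpow_const_of_re_pos (Or.inl (by simp)) hre
      have h3 : ((0 : ℂ) ^ ((d : ℂ)⁻¹)) = 0 :=
        Complex.zero_cpow (inv_ne_zero (by exact_mod_cast hd0))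
      have h4 : ContinuousAt G ((0 : ℂ) ^ ((d : ℂ)⁻¹)) := by
        rw [h3]
        exact (hG.differentiableAt (ball_mem_nhds 0 one_pos)).continuousAt
      exact ContinuousAt.comp (f := fun w : ℂ => w ^ ((d : ℂ)⁻¹)) h4 h1
  · intro z hz
    have hz' : z ^ d ∈ ball (0 : ℂ) 1 := by
      rw [mem_ball_zero_iff] at hz ⊢
      rw [norm_pow]
      exact pow_lt_one₀ (norm_nonneg z) hz hd0
    exact (hg (z ^ d) hz' z rfl).symm

end Pool.Agent.H58.BR
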