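import Pool.Agent.H58.BR.Defs
import Pool.Agent.H83.Lo.Inj

/-!
# BR-13: a Riemann map of a domain with rotational symmetry is symmetric
(helper75 for helper58, MP_f801da_an)
-/

set_option autoImplicit false

namespace Pool.Agent.H58.BR

open Metric Set Filter Topology

theorem symmetric {f : ℂ → ℂ} (hf : DifferentiableOn ℂ f (ball 0 1)) (hi : InjOn f (ball 0 1))
    (h0 : f 0 = 0) {d : ℕ} (hd : 1 ≤ d) {ζ : ℂ} (hζ : ζ ^ d = 1)
    (hs : ∀ w ∈ f '' ball 0 1, ζ * w ∈ f '' ball 0 1) {z : ℂ} (hz : z ∈ ball (0 : ℂ) 1) :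
    f (ζ * z) = ζ * f z := by
  have h0b : (0 : ℂ) ∈ ball (0 : ℂ) 1 := mem_ball_self one_pos
  obtain ⟨g, hg⟩ : ∃ g : ℂ → ℂ, ∀ w ∈ ball (0 : ℂ) 1, g (f w) = w :=
    ⟨Function.invFunOn f (ball 0 1), fun w hw => hi.leftInvOn_invFunOn hw⟩
  have hgd : DifferentiableOn ℂ g (f '' ball 0 1) :=
    Pool.Agent.H83.Lo.differentiableOn_inv isOpen_ball hf hi hg
  obtain ⟨h, hh⟩ : ∃ h : ℂ → ℂ, h = fun w => g (ζ * f w) := ⟨_, rfl⟩
  have hmap : ∀ w ∈ ball (0 : ℂ) 1, h w ∈ ball (0 : ℂ) 1 ∧ f (h w) = ζ * f w := by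
    intro w hw
    obtain ⟨y, hy, hyw⟩ := hs (f w) (mem_image_of_mem f hw)
    have h1 : h w = y := by
      rw [hh]
      simp only
      rw [← hyw, hg y hy]
    rw [h1]
    exact ⟨hy, hyw⟩
  have hd1 : DifferentiableOn ℂ h (ball 0 1) := by
    rw [hh]
    exact hgd.comp (hf.const_mul ζ) (fun w hw => hs (f w) (mem_image_of_mem f hw))
  have hh0 : h 0 = 0 := by
    rw [hh]
    simp only
    rw [h0, mul_zero, ← h0, hg 0 h0b, h0]
  have hmaps : MapsTo h (ball 0 1) (closedBall 0 1) := fun w hw =>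
    ball_subset_closedBall (hmap w hw).1
  have hle : ∀ w ∈ ball (0 : ℂ) 1, ‖h w‖ ≤ ‖w‖ := fun w hw =>
    Complex.norm_le_norm_of_mapsTo_ball hd1 hmaps hh0 (mem_ball_zero_iff.1 hw)
  -- the iterates
  have hit : ∀ n : ℕ, ∀ w ∈ ball (0 : ℂ) 1, h^[n] w ∈ ball (0 : ℂ) 1 ∧
      f (h^[n] w) = ζ ^ n * f w ∧ ‖h^[n] w‖ ≤ ‖w‖ := by
    intro n
    induction n with
    | zero =>
      intro w hw
      exact ⟨hw, by simp, le_refl _⟩
    | succ n ih =>
      intro w hw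
      obtain ⟨h1, h2, h3⟩ := ih w hw
      rw [Function.iterate_succ_apply']
      refine ⟨(hmap _ h1).1, ?_, (hle _ h1).trans h3⟩
      rw [(hmap _ h1).2, h2, pow_succ]
      ring
  have heq : ∀ w ∈ ball (0 : ℂ) 1, ‖h w‖ = ‖w‖ := by
    intro w hw
    refine le_antisymm (hle w hw) ?_
    obtain ⟨e, rfl⟩ : ∃ e, d = e + 1 := ⟨d - 1, by omega⟩
    have h1 : h^[e + 1] w = w := by
      apply hi (hit (e + 1) w hw).1 hw
      rw [(hit (e + 1) w hw).2.1, hζ, one_mul]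
    have h2 := (hit e (h w) (hmap w hw).1).2.2
    rwa [← Function.iterate_succ_apply, h1] at h2
  -- `h` is a rotation
  have hhalf : ((1 / 2 : ℝ) : ℂ) ∈ ball (0 : ℂ) 1 := by
    rw [mem_ball_zero_iff, Complex.norm_real]
    norm_num
  obtain ⟨C, -, hC⟩ := Complex.affine_of_mapsTo_ball_of_exists_norm_dslope_eq_div'
    (c := (0 : ℂ)) (R₁ := 1) (R₂ := 1) hd1 (by rwa [hh0])
    ⟨((1 / 2 : ℝ) : ℂ), hhalf, by
      have hne : ((1 / 2 : ℝ) : ℂ) ≠ 0 := by
        rw [Ne, Complex.ofReal_eq_zero]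
        norm_num
      rw [dslope_of_ne _ hne, slope_def_module, hh0, sub_zero, sub_zero, norm_smul, norm_inv,
        heq _ hhalf, div_one, inv_mul_cancel₀ (norm_ne_zero_iff.2 hne)]⟩
  have hCz : ∀ w ∈ ball (0 : ℂ) 1, h w = C * w := by
    intro w hw
    have h1 := hC hw
    simp only [hh0, sub_zero, zero_add, smul_eq_mul] at h1
    rw [h1, mul_comm]
  have hfC : ∀ w ∈ ball (0 : ℂ) 1, f (C * w) = ζ * f w := fun w hw => by
    rw [← hCz w hw, (hmap w hw).2]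
  -- the derivative at `0`
  have hf0 : HasDerivAt f (deriv f 0) 0 :=
    (hf.differentiableAt (isOpen_ball.mem_nhds h0b)).hasDerivAt
  have hne : deriv f 0 ≠ 0 := Pool.Agent.H83.Lo.deriv_ne_zero isOpen_ball hf hi h0b
  have h1 : HasDerivAt (fun w => f (C * w)) (deriv f 0 * C) 0 := by
    have h2 : HasDerivAt (fun w : ℂ => C * w) C 0 := by
      simpa using (hasDerivAt_id (0 : ℂ)).const_mul C
    have h3 : HasDerivAt f (deriv f 0) (C * 0) := by rwa [mul_zero]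
    exact h3.comp (0 : ℂ) h2
  have h2 : HasDerivAt (fun w => f (C * w)) (ζ * deriv f 0) 0 := by
    refine (hf0.const_mul ζ).congr_of_eventuallyEq ?_
    filter_upwards [isOpen_ball.mem_nhds h0b] with w hw
    exact hfC w hw
  have h3 : C = ζ := by
    have h4 := h1.unique h2
    rw [mul_comm] at h4
    exact mul_right_cancel₀ hne h4
  rw [← h3, hfC z hz, h3]

end Pool.Agent.H58.BR
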