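import Pool.Agent.H58.BR.Descent
import Pool.Agent.H58.BR.Schwarz
import Pool.Agent.H83.Lo.Inj

/-!
Project BR (MP_f801da_an), row BR-14: the tower of Riemann maps of a non-autonomous iteration.
-/

set_option autoImplicit false

namespace Pool.Agent.H58.BR

open Metric Set Filter Topology

theorem br14_orb (d : ℕ → ℕ) (c : ℕ → ℂ) (j : ℕ) (z : ℂ) (n : ℕ) :
    orb d c j z (n + 1) = orb d c (j + 1) (z ^ d j + c j) n := by
  induction n with
  | zero => rfl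
  | succ n ih =>
    have h1 : orb d c j z (n + 1 + 1) =
      orb d c j z (n + 1) ^ d (j + (n + 1)) + c (j + (n + 1)) := rfl
    have h2 : orb d c (j + 1) (z ^ d j + c j) (n + 1) =
      orb d c (j + 1) (z ^ d j + c j) n ^ d (j + 1 + n) + c (j + 1 + n) := rfl
    rw [h1, h2, ih, show j + (n + 1) = j + 1 + n by omega]

theorem mem_K_iff (d : ℕ → ℕ) (c : ℕ → ℂ) (j : ℕ) (z : ℂ) :
    z ∈ K d c j ↔ z ^ d j + c j ∈ K d c (j + 1) := by
  constructor
  · rintro ⟨B, hB⟩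
    exact ⟨B, fun n => by rw [← br14_orb]; exact hB (n + 1)⟩
  · rintro ⟨B, hB⟩
    refine ⟨max B ‖z‖, fun n => ?_⟩
    cases n with
    | zero => exact le_max_right _ _
    | succ n =>
      rw [br14_orb]
      exact (hB n).trans (le_max_left _ _)

theorem br14_root {d : ℕ} (hd : 0 < d) {u : ℂ} (hu : u ∈ ball (0 : ℂ) 1) :
    ∃ z ∈ ball (0 : ℂ) 1, z ^ d = u := by
  obtain ⟨z, hz⟩ := IsAlgClosed.exists_pow_nat_eq u hd
  refine ⟨z, ?_, hz⟩
  rw [mem_ball_zero_iff] at hu ⊢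
  by_contra h
  rw [not_lt] at h
  rw [← hz, norm_pow] at hu
  exact absurd (one_le_pow₀ h) (not_le.2 hu)

theorem br14_pow_mem {d : ℕ} (hd : 0 < d) {z : ℂ} (hz : z ∈ ball (0 : ℂ) 1) :
    z ^ d ∈ ball (0 : ℂ) 1 := by
  rw [mem_ball_zero_iff] at hz ⊢
  rw [norm_pow]
  exact pow_lt_one₀ (norm_nonneg _) hz hd.ne'

theorem next {d : ℕ} (hd : 2 ≤ d) {c : ℂ} {A B : Set ℂ} (hAB : ∀ z, z ∈ A ↔ z ^ d + c ∈ B)
    (hA : (0 : ℂ) ∈ A) (hB : (0 : ℂ) ∈ B) {f : ℂ → ℂ} (hf : DifferentiableOn ℂ f (ball 0 1))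
    (hi : InjOn f (ball 0 1)) (h0 : f 0 = 0) (him : f '' ball 0 1 = {w | w = 0 ∨ w⁻¹ ∉ A}) :
    ∃ g : ℂ → ℂ, DifferentiableOn ℂ g (ball 0 1) ∧ InjOn g (ball 0 1) ∧ g 0 = 0 ∧
      g '' ball 0 1 = {w | w = 0 ∨ w⁻¹ ∉ B} ∧
      ∀ z ∈ ball (0 : ℂ) 1, f z ^ d = g (z ^ d) * (1 + c * f z ^ d) := by
  have hd0 : 0 < d := by omega
  have hrot : ∀ ζ : ℂ, ζ ^ d = 1 → ∀ w, w ∈ A → ζ * w ∈ A := by
    intro ζ hζ w hw
    rw [hAB] at hw ⊢
    rwa [mul_pow, hζ, one_mul]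
  have hzero : (0 : ℂ) ∈ ball (0 : ℂ) 1 := mem_ball_self one_pos
  have hz0 : ∀ z ∈ ball (0 : ℂ) 1, f z = 0 → z = 0 := by
    intro z hz h
    exact hi hz hzero (h.trans h0.symm)
  have hnot : ∀ z ∈ ball (0 : ℂ) 1, f z ≠ 0 → (f z)⁻¹ ∉ A := by
    intro z hz h
    have h1 : f z ∈ f '' ball 0 1 := ⟨z, hz, rfl⟩
    rw [him] at h1
    exact h1.resolve_left h
  have hsym : ∀ ζ : ℂ, ζ ^ d = 1 → ∀ z ∈ ball (0 : ℂ) 1, f (ζ * z) = ζ * f z := by
    intro ζ hζ z hz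
    refine symmetric hf hi h0 (by omega) hζ ?_ hz
    intro w hw
    rw [him] at hw ⊢
    rcases hw with hw | hw
    · left
      rw [hw, mul_zero]
    · right
      intro h
      apply hw
      have h1 := hrot ζ hζ _ h
      have hζ0 : ζ ≠ 0 := by
        rintro rfl
        rw [zero_pow hd0.ne'] at hζ
        exact zero_ne_one hζ
      rw [mul_inv, ← mul_assoc, mul_inv_cancel₀ hζ0, one_mul] at h1
      exact h1
  have hnorm : ∀ ζ : ℂ, ζ ^ d = 1 → ‖ζ‖ = 1 := by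
    intro ζ hζ
    exact Complex.norm_eq_one_of_pow_eq_one hζ hd0.ne'
  have hrotb : ∀ ζ : ℂ, ζ ^ d = 1 → ∀ z ∈ ball (0 : ℂ) 1, ζ * z ∈ ball (0 : ℂ) 1 := by
    intro ζ hζ z hz
    rw [mem_ball_zero_iff] at hz ⊢
    rw [norm_mul, hnorm ζ hζ, one_mul]
    exact hz
  have hD : ∀ z ∈ ball (0 : ℂ) 1, 1 + c * f z ^ d ≠ 0 := by
    intro z hz h
    by_cases hf0 : f z = 0
    · rw [hf0, zero_pow hd0.ne', mul_zero, add_zero] at h
      exact one_ne_zero h
    · have h1 : (f z)⁻¹ ^ d + c ∉ B := fun h2 => hnot z hz hf0 ((hAB _).2 h2)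
      apply h1
      have h2 : (f z)⁻¹ ^ d + c = 0 := by
        have h3 : (f z)⁻¹ ^ d + c = (f z)⁻¹ ^ d * (1 + c * f z ^ d) := by
          rw [mul_add, mul_one, mul_comm c, ← mul_assoc, ← mul_pow, inv_mul_cancel₀ hf0, one_pow,
            one_mul]
        rw [h3, h, mul_zero]
      rw [h2]
      exact hB
  obtain ⟨g, hg, hG⟩ := descent (d := d) (by omega) (G := fun z => f z ^ d / (1 + c * f z ^ d))
    ((hf.pow d).div ((differentiableOn_const _).add ((differentiableOn_const _).mul (hf.pow d)))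
      hD) (by
      intro z hz ζ hζ
      rw [hsym ζ hζ z hz, mul_pow, hζ, one_mul])
  have heq : ∀ z ∈ ball (0 : ℂ) 1, f z ^ d = g (z ^ d) * (1 + c * f z ^ d) := by
    intro z hz
    rw [← hG z hz, div_mul_cancel₀ _ (hD z hz)]
  refine ⟨g, hg, ?_, ?_, ?_, heq⟩
  · intro u hu u' hu' h
    obtain ⟨z, hz, rfl⟩ := br14_root hd0 hu
    obtain ⟨z', hz', rfl⟩ := br14_root hd0 hu'
    have h1 := heq z hz
    have h2 := heq z' hz'
    have h3 : f z ^ d = f z' ^ d := by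
      rw [h] at h1
      have hD1 := hD z hz
      have hD2 := hD z' hz'
      -- f^d = g (1 + c f^d), f'^d = g (1 + c f'^d)
      have h4 : f z ^ d * (1 - g (z' ^ d) * c) = g (z' ^ d) := by linear_combination h1
      have h5 : f z' ^ d * (1 - g (z' ^ d) * c) = g (z' ^ d) := by linear_combination h2
      by_cases h6 : 1 - g (z' ^ d) * c = 0
      · exfalso
        rw [h6, mul_zero] at h4
        rw [← h4, zero_mul, sub_zero] at h6
        exact one_ne_zero h6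
      · exact mul_right_cancel₀ h6 (h4.trans h5.symm)
    by_cases hf0 : f z' = 0
    · rw [hf0, zero_pow hd0.ne'] at h3
      have h4 : f z = 0 := pow_eq_zero_iff hd0.ne' |>.1 h3
      rw [hz0 z hz h4, hz0 z' hz' hf0]
    · have hζ : (f z / f z') ^ d = 1 := by
        rw [div_pow, h3, div_self (pow_ne_zero _ hf0)]
      have h5 : f z = f ((f z / f z') * z') := by
        rw [hsym _ hζ z' hz', div_mul_cancel₀ _ hf0]
      have h6 := hi hz (hrotb _ hζ z' hz') h5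
      calc z ^ d = ((f z / f z') * z') ^ d := by rw [← h6]
        _ = z' ^ d := by rw [mul_pow, hζ, one_mul]
  · have h1 := hG 0 hzero
    rw [h0, zero_pow hd0.ne', zero_div] at h1
    exact h1.symm
  · ext w
    constructor
    · rintro ⟨u, hu, rfl⟩
      obtain ⟨z, hz, rfl⟩ := br14_root hd0 hu
      by_cases hf0 : f z = 0
      · left
        rw [← hG z hz, hf0, zero_pow hd0.ne', zero_div]
      · right
        have h1 : (f z)⁻¹ ^ d + c ∉ B := fun h2 => hnot z hz hf0 ((hAB _).2 h2)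
        have h2 : (g (z ^ d))⁻¹ = (f z)⁻¹ ^ d + c := by
          rw [← hG z hz, inv_div, add_div, one_div, inv_pow, mul_div_assoc,
            div_self (pow_ne_zero _ hf0), mul_one]
        rwa [h2]
    · rintro (hw | hw)
      · exact ⟨0, hzero, by
          have h1 := hG 0 hzero
          rw [h0, zero_pow hd0.ne', zero_div] at h1
          rw [← h1, hw]⟩
      · by_cases hw0 : w = 0
        · refine ⟨0, hzero, ?_⟩
          have h1 := hG 0 hzero
          rw [h0, zero_pow hd0.ne', zero_div] at h1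
          rw [← h1, hw0]
        obtain ⟨v, hv⟩ := IsAlgClosed.exists_pow_nat_eq (w⁻¹ - c) hd0
        have hvA : v ∉ A := by
          intro h
          apply hw
          have h1 := (hAB v).1 h
          rwa [hv, sub_add_cancel] at h1
        have hv0 : v ≠ 0 := by
          rintro rfl
          exact hvA hA
        have h1 : v⁻¹ ∈ f '' ball 0 1 := by
          rw [him]
          right
          rwa [inv_inv]
        obtain ⟨z, hz, hzv⟩ := h1
        refine ⟨z ^ d, br14_pow_mem hd0 hz, ?_⟩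
        rw [← hG z hz, hzv, inv_pow, hv]
        have hne : w⁻¹ - c ≠ 0 := by
          rw [← hv]
          exact pow_ne_zero _ hv0
        have hw1 : w⁻¹ ≠ 0 := inv_ne_zero hw0
        have h2 : (1 : ℂ) + c * (w⁻¹ - c)⁻¹ = w⁻¹ * (w⁻¹ - c)⁻¹ := by
          have h3 : (w⁻¹ - c) * (w⁻¹ - c)⁻¹ = 1 := mul_inv_cancel₀ hne
          linear_combination -h3
        rw [h2, div_mul_eq_div_div, div_right_comm, div_self (inv_ne_zero hne), one_div, inv_inv]

/-- iterated choice -/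
theorem br14_seq {α : Type*} (P : ℕ → α → Prop) (R : ℕ → α → α → Prop) (a : α) (ha : P 0 a)
    (h : ∀ j a, P j a → ∃ b, P (j + 1) b ∧ R j a b) :
    ∃ F : ℕ → α, F 0 = a ∧ ∀ j, P j (F j) ∧ R j (F j) (F (j + 1)) := by
  classical
  choose N hN1 hN2 using h
  let S : ∀ j, {a : α // P j a} := fun j => Nat.rec ⟨a, ha⟩ (fun j s => ⟨N j s.1 s.2, hN1 j s.1 s.2⟩) j
  exact ⟨fun j => (S j).1, rfl, fun j => ⟨(S j).2, hN2 j (S j).1 (S j).2⟩⟩

/-- the derivatives at the origin -/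
theorem br14_deriv {d : ℕ} (hd : 2 ≤ d) {c : ℂ} {f g : ℂ → ℂ}
    (hf : DifferentiableOn ℂ f (ball 0 1)) (hf0 : f 0 = 0)
    (hg : DifferentiableOn ℂ g (ball 0 1)) (hg0 : g 0 = 0)
    (h : ∀ z ∈ ball (0 : ℂ) 1, f z ^ d = g (z ^ d) * (1 + c * f z ^ d)) :
    deriv g 0 = deriv f 0 ^ d := by
  have hd0 : 0 < d := by omega
  have hzero : ball (0 : ℂ) 1 ∈ 𝓝 (0 : ℂ) := isOpen_ball.mem_nhds (mem_ball_self one_pos)
  have hf1 : Tendsto (fun z => z⁻¹ * f z) (𝓝[≠] 0) (𝓝 (deriv f 0)) := by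
    have h1 := (hf.differentiableAt hzero).hasDerivAt.tendsto_slope_zero
    simpa [hf0] using h1
  have hg1 : Tendsto (fun z => z⁻¹ * g z) (𝓝[≠] 0) (𝓝 (deriv g 0)) := by
    have h1 := (hg.differentiableAt hzero).hasDerivAt.tendsto_slope_zero
    simpa [hg0] using h1
  have hp : Tendsto (fun z : ℂ => z ^ d) (𝓝[≠] 0) (𝓝[≠] 0) := by
    refine tendsto_nhdsWithin_iff.2 ⟨?_, ?_⟩
    · have h1 : Tendsto (fun z : ℂ => z ^ d) (𝓝 0) (𝓝 ((0 : ℂ) ^ d)) :=
        (continuous_pow d).tendsto 0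
      rw [zero_pow hd0.ne'] at h1
      exact h1.mono_left nhdsWithin_le_nhds
    · filter_upwards [self_mem_nhdsWithin] with z hz
      exact pow_ne_zero d hz
  have hg2 := hg1.comp hp
  have hfc : Tendsto (fun z => 1 + c * f z ^ d) (𝓝[≠] 0) (𝓝 1) := by
    have h1 : ContinuousAt f 0 := (hf.differentiableAt hzero).continuousAt
    have h2 : Tendsto (fun z => 1 + c * f z ^ d) (𝓝 0) (𝓝 (1 + c * f 0 ^ d)) :=
      tendsto_const_nhds.add (tendsto_const_nhds.mul (h1.tendsto.pow d))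
    rw [hf0, zero_pow hd0.ne', mul_zero, add_zero] at h2
    exact h2.mono_left nhdsWithin_le_nhds
  have hl := hf1.pow d
  have hr := hg2.mul hfc
  rw [mul_one] at hr
  refine tendsto_nhds_unique (hr.congr' ?_) hl
  have hev : ∀ᶠ z in 𝓝[≠] (0 : ℂ), z ∈ ball (0 : ℂ) 1 := nhdsWithin_le_nhds hzero
  filter_upwards [hev, self_mem_nhdsWithin] with z hz hz0
  have hz1 : z ≠ 0 := hz0
  simp only [Function.comp_apply]
  rw [mul_assoc, ← h z hz, mul_pow, inv_pow]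

/-- a tower whose bottom is `f / f'(0)` -/
theorem exists_tower {d : ℕ → ℕ} {c : ℕ → ℂ} (hd : ∀ j, 2 ≤ d j) (h0 : ∀ j, (0 : ℂ) ∈ K d c j)
    {f : ℂ → ℂ} (hf : DifferentiableOn ℂ f (ball 0 1)) (hi : InjOn f (ball 0 1)) (hf0 : f 0 = 0)
    (him : f '' ball 0 1 = {w | w = 0 ∨ w⁻¹ ∉ K d c 0}) :
    ∃ (c' : ℕ → ℂ) (F : ℕ → ℂ → ℂ), Tower d c' F ∧ ∀ z, F 0 z = f z / deriv f 0 := by
  obtain ⟨G, hG0, hG⟩ := br14_seq
    (P := fun j f => DifferentiableOn ℂ f (ball (0 : ℂ) 1) ∧ InjOn f (ball (0 : ℂ) 1) ∧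
      f 0 = 0 ∧ f '' ball (0 : ℂ) 1 = {w | w = 0 ∨ w⁻¹ ∉ K d c j})
    (R := fun j f g => ∀ z ∈ ball (0 : ℂ) 1, f z ^ d j = g (z ^ d j) * (1 + c j * f z ^ d j))
    f ⟨hf, hi, hf0, him⟩ (by
      rintro j f ⟨h1, h2, h3, h4⟩
      obtain ⟨g, g1, g2, g3, g4, g5⟩ := next (hd j) (fun z => mem_K_iff d c j z) (h0 j)
        (h0 (j + 1)) h1 h2 h3 h4
      exact ⟨g, ⟨g1, g2, g3, g4⟩, g5⟩)
  have hzero : (0 : ℂ) ∈ ball (0 : ℂ) 1 := mem_ball_self one_pos
  have hne : ∀ j, deriv (G j) 0 ≠ 0 := fun j =>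
    Pool.Agent.H83.Lo.deriv_ne_zero isOpen_ball (hG j).1.1 (hG j).1.2.1 hzero
  have hlam : ∀ j, deriv (G (j + 1)) 0 = deriv (G j) 0 ^ d j := fun j =>
    br14_deriv (hd j) (hG j).1.1 (hG j).1.2.2.1 (hG (j + 1)).1.1 (hG (j + 1)).1.2.2.1 (hG j).2
  refine ⟨fun j => deriv (G (j + 1)) 0 * c j, fun j z => G j z / deriv (G j) 0, ?_, ?_⟩
  · refine ⟨hd, ?_, ?_, ?_, ?_, ?_⟩
    · intro j
      exact (hG j).1.1.div_const _
    · intro j z hz z' hz' h
      refine (hG j).1.2.1 hz hz' ?_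
      exact (div_left_inj' (hne j)).1 h
    · intro j
      rw [(hG j).1.2.2.1, zero_div]
    · intro j
      rw [deriv_div_const, div_self (hne j)]
    · intro j z hz
      have h1 := (hG j).2 z hz
      have h2 := hne j
      have h4 : deriv (G j) 0 ^ d j ≠ 0 := pow_ne_zero _ h2
      have h5 : deriv (G j) 0 ^ d j * c j * (G j z ^ d j / deriv (G j) 0 ^ d j) =
          c j * G j z ^ d j := by
        rw [mul_comm (deriv (G j) 0 ^ d j) (c j), mul_assoc, mul_div_cancel₀ _ h4]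
      rw [hlam j, div_pow, h5, div_mul_eq_mul_div, ← h1]
  · intro z
    simp only
    rw [hG0]

end Pool.Agent.H58.BR
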