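import Pool.Agent.H58.BR.Asm
import Pool.Agent.H58.BR.Dyn
import Pool.Agent.H58.BR.Base

/-!
# Project BR: the theorem
-/

set_option autoImplicit false

namespace Pool.Agent.H58.BR

open Metric Set Filter Topology
open Real (circleAverage)
open scoped ComplexConjugate

/-! ### disc automorphisms -/

/-- The image of the basin of infinity (the complement of the filled Julia set, with the point
`∞`) under the Moebius map `z ↦ A + B / (z - p)`, which maps `∞` to `A` and `p` to `∞`. -/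
def basinImage (d : ℕ → ℕ) (c : ℕ → ℂ) (A B p : ℂ) : Set ℂ :=
  {w | w = A ∨ ∃ z, z ∉ K d c 0 ∧ w = A + B / (z - p)}

/-- disc automorphisms -/
noncomputable def mob (a z : ℂ) : ℂ := (z + a) / (1 + conj a * z)

theorem mob_id (a z : ℂ) :
    ‖1 + conj a * z‖ ^ 2 - ‖z + a‖ ^ 2 = (1 - ‖a‖ ^ 2) * (1 - ‖z‖ ^ 2) := by
  simp only [← Complex.normSq_eq_norm_sq, Complex.normSq_apply, Complex.add_re, Complex.add_im,
    Complex.mul_re, Complex.mul_im, Complex.conj_re, Complex.conj_im, Complex.one_re,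
    Complex.one_im]
  ring

theorem mob_den {a z : ℂ} (ha : ‖a‖ < 1) (hz : ‖z‖ < 1) : 1 + conj a * z ≠ 0 := by
  intro h
  have h1 := mob_id a z
  rw [h, norm_zero] at h1
  have h2 : 0 < (1 - ‖a‖ ^ 2) * (1 - ‖z‖ ^ 2) := by
    apply mul_pos <;> nlinarith [norm_nonneg a, norm_nonneg z]
  nlinarith [sq_nonneg ‖z + a‖]

theorem mob_mem {a z : ℂ} (ha : ‖a‖ < 1) (hz : ‖z‖ < 1) : ‖mob a z‖ < 1 := by
  have h1 := mob_id a z
  have h2 : 0 < (1 - ‖a‖ ^ 2) * (1 - ‖z‖ ^ 2) := by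
    apply mul_pos <;> nlinarith [norm_nonneg a, norm_nonneg z]
  have h3 : 0 < ‖1 + conj a * z‖ := norm_pos_iff.2 (mob_den ha hz)
  rw [mob, norm_div, div_lt_one h3]
  exact lt_of_pow_lt_pow_left₀ 2 (norm_nonneg _) (by linarith)

theorem mob_inv {a z : ℂ} (ha : ‖a‖ < 1) (hz : ‖z‖ < 1) : mob a (mob (-a) z) = z := by
  have h1 : 1 + conj (-a) * z ≠ 0 := mob_den (by rwa [norm_neg]) hz
  have h2 : 1 + conj a * mob (-a) z ≠ 0 := mob_den ha (mob_mem (by rwa [norm_neg]) hz)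
  have h3 : (1 : ℂ) - conj a * a ≠ 0 := by
    intro h
    have h4 : conj a * a = 1 := (sub_eq_zero.1 h).symm
    have h5 := congrArg norm h4
    rw [norm_mul, RCLike.norm_conj, norm_one] at h5
    nlinarith [norm_nonneg a]
  rw [map_neg] at h1
  have h1' : (1 : ℂ) - conj a * z ≠ 0 := by
    intro h
    apply h1
    linear_combination h
  have e1 : mob (-a) z = (z - a) / (1 - conj a * z) := by
    unfold mob
    rw [map_neg]
    congr 1
    ring
  have e2 : mob (-a) z + a = z * (1 - conj a * a) / (1 - conj a * z) := by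
    rw [e1, eq_div_iff h1', add_mul, div_mul_cancel₀ _ h1']
    ring
  have e3 : 1 + conj a * mob (-a) z = (1 - conj a * a) / (1 - conj a * z) := by
    rw [e1, eq_div_iff h1', add_mul, mul_assoc, div_mul_cancel₀ _ h1']
    ring
  rw [mob, e2, e3, div_div_div_cancel_right₀ h1', mul_div_assoc, div_self h3, mul_one]

theorem mob_hasDerivAt {a z : ℂ} (ha : ‖a‖ < 1) (hz : ‖z‖ < 1) :
    HasDerivAt (mob a) ((1 - (‖a‖ : ℂ) ^ 2) / (1 + conj a * z) ^ 2) z := by
  have h1 := mob_den ha hz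
  have h2 : HasDerivAt (fun z : ℂ => z + a) 1 z := (hasDerivAt_id z).add_const a
  have h3 : HasDerivAt (fun z : ℂ => 1 + conj a * z) (conj a) z := by
    simpa using ((hasDerivAt_id z).const_mul (conj a)).const_add 1
  have h4 := h2.div h3 h1
  have h5 : (‖a‖ : ℂ) ^ 2 = conj a * a := by
    rw [← Complex.normSq_eq_conj_mul_self, Complex.normSq_eq_norm_sq]
    push_cast
    rfl
  rw [h5]
  refine h4.congr_deriv ?_
  congr 1
  ring

theorem mob_zero (a : ℂ) : mob a 0 = a := by simp [mob]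

theorem mob_norm_deriv {a z : ℂ} (ha : ‖a‖ < 1) (hz : ‖z‖ < 1) :
    (1 - ‖a‖ ^ 2) / 4 ≤ ‖(1 - (‖a‖ : ℂ) ^ 2) / (1 + conj a * z) ^ 2‖ := by
  have h0 : 0 < 1 - ‖a‖ ^ 2 := by nlinarith [norm_nonneg a]
  have h1 : ‖(1 - (‖a‖ : ℂ) ^ 2)‖ = 1 - ‖a‖ ^ 2 := by
    have : (1 - (‖a‖ : ℂ) ^ 2) = ((1 - ‖a‖ ^ 2 : ℝ) : ℂ) := by push_cast; rfl
    rw [this, Complex.norm_real, Real.norm_of_nonneg h0.le]
  have h2 : ‖1 + conj a * z‖ ≤ 2 := by
    refine (norm_add_le _ _).trans ?_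
    rw [norm_one, norm_mul, RCLike.norm_conj]
    nlinarith [norm_nonneg a, norm_nonneg z]
  have h3 : 0 < ‖1 + conj a * z‖ := norm_pos_iff.2 (mob_den ha hz)
  rw [norm_div, norm_pow, h1]
  gcongr
  nlinarith

/-! ### normalised maps -/

/-- the estimate for `g = h / (1 - p h)` with `h` the Riemann map of the inverted basin -/
theorem main_zero : ∃ C : ℝ, 0 < C ∧ ∀ (d : ℕ → ℕ) (c : ℕ → ℂ), (∀ j, 2 ≤ d j) →
    (∀ j, (0 : ℂ) ∈ K d c j) → ∀ (p : ℂ), p ∈ K d c 0 → ∀ g : ℂ → ℂ,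
    DifferentiableOn ℂ g (ball 0 1) → InjOn g (ball 0 1) → g 0 = 0 →
    (∀ w, w ∈ g '' ball 0 1 ↔ w = 0 ∨ ∃ z, z ∉ K d c 0 ∧ w = 1 / (z - p)) →
    ∀ R : ℝ, 0 < R → R < 1 →
      circleAverage (fun z => (‖deriv g z‖ ^ 2)⁻¹) 0 R ≤ C / (‖deriv g 0‖ ^ 2 * (1 - R)) := by
  obtain ⟨C, hC, hT⟩ := tower_bound
  refine ⟨8 * 257 * C, by positivity, ?_⟩
  intro d c hd h0K p hp g hg hgi hg0 him R hR0 hR1
  have h0b : (0 : ℂ) ∈ ball (0 : ℂ) 1 := mem_ball_self one_pos
  have hup : ∀ u, u ∉ K d c 0 → u - p ≠ 0 := by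
    intro u hu h
    exact hu ((sub_eq_zero.1 h) ▸ hp)
  have hu0 : ∀ u, u ∉ K d c 0 → u ≠ 0 := by
    intro u hu h
    exact hu (h ▸ h0K 0)
  have hgv : ∀ z ∈ ball (0 : ℂ) 1, g z = 0 ∨ ∃ u, u ∉ K d c 0 ∧ g z = 1 / (u - p) := fun z hz =>
    (him _).1 ⟨z, hz, rfl⟩
  have hden : ∀ z ∈ ball (0 : ℂ) 1, 1 + p * g z ≠ 0 := by
    intro z hz
    rcases hgv z hz with h | ⟨u, hu, h⟩
    · rw [h, mul_zero, add_zero]
      exact one_ne_zero
    · rw [h]
      have h1 := hup u hu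
      have h2 := hu0 u hu
      have h3 : 1 + p * (1 / (u - p)) = u / (u - p) := by
        field_simp
        ring
      rw [h3]
      exact div_ne_zero h2 h1
  set h : ℂ → ℂ := fun z => g z / (1 + p * g z) with hh
  have hhd : DifferentiableOn ℂ h (ball 0 1) :=
    hg.div ((differentiableOn_const _).add (hg.const_mul p)) hden
  have hhi : InjOn h (ball 0 1) := by
    intro z hz w hw hzw
    apply hgi hz hw
    simp only [hh] at hzw
    rw [div_eq_div_iff (hden z hz) (hden w hw)] at hzw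
    linear_combination hzw
  have hh0 : h 0 = 0 := by simp [hh, hg0]
  have hhval : ∀ z ∈ ball (0 : ℂ) 1, h z = 0 ∨ (h z)⁻¹ ∉ K d c 0 := by
    intro z hz
    rcases hgv z hz with h1 | ⟨u, hu, h1⟩
    · left; simp [hh, h1]
    · right
      have h2 := hup u hu
      have h3 := hu0 u hu
      have h4 : h z = u⁻¹ := by
        simp only [hh]
        rw [h1]
        have h5 : 1 + p * (1 / (u - p)) = u / (u - p) := by
          field_simp
          ring
        rw [h5]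
        field_simp
      rw [h4, inv_inv]
      exact hu
  have himh : h '' ball 0 1 = {w | w = 0 ∨ w⁻¹ ∉ K d c 0} := by
    ext w
    constructor
    · rintro ⟨z, hz, rfl⟩
      exact hhval z hz
    · rintro (hw | hw)
      · exact ⟨0, h0b, by rw [hh0, hw]⟩
      · have h1 := hup _ hw
        have h2 := hu0 _ hw
        obtain ⟨z, hz, hzw⟩ := (him (1 / (w⁻¹ - p))).2 (Or.inr ⟨w⁻¹, hw, rfl⟩)
        refine ⟨z, hz, ?_⟩
        simp only [hh]
        rw [hzw]
        have h5 : 1 + p * (1 / (w⁻¹ - p)) = w⁻¹ / (w⁻¹ - p) := by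
          rw [eq_div_iff h1, add_mul, mul_assoc, one_div, inv_mul_cancel₀ h1]
          ring
        rw [h5, div_div_div_cancel_right₀ h1, one_div, inv_inv]
  obtain ⟨c', F, hTow, hF⟩ := exists_tower hd h0K hhd hhi hh0 himh
  set l := deriv h 0 with hl
  have hl0 : l ≠ 0 := Pool.Agent.H83.Lo.deriv_ne_zero isOpen_ball hhd hhi h0b
  have hlpos : 0 < ‖l‖ := norm_pos_iff.2 hl0
  have hhF : ∀ z, h z = l * F 0 z := by
    intro z
    rw [hF z]
    field_simp
  -- derivatives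
  have hgda : ∀ z ∈ ball (0 : ℂ) 1, HasDerivAt g (deriv g z) z := fun z hz =>
    ((hg z hz).differentiableAt (isOpen_ball.mem_nhds hz)).hasDerivAt
  have hhder : ∀ z ∈ ball (0 : ℂ) 1, deriv h z = deriv g z / (1 + p * g z) ^ 2 := by
    intro z hz
    have h1 := (hgda z hz).div ((((hgda z hz)).const_mul p).const_add 1) (hden z hz)
    have h2 : deriv h z = _ := h1.deriv
    rw [h2]
    congr 1
    ring
  have hFder : ∀ z ∈ ball (0 : ℂ) 1, deriv h z = l * deriv (F 0) z := by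
    intro z hz
    have h1 : h = fun z => l * F 0 z := funext hhF
    rw [h1]
    exact deriv_const_mul l ((hTow.diff 0 z hz).differentiableAt (isOpen_ball.mem_nhds hz))
  have hlg : l = deriv g 0 := by
    rw [hl, hhder 0 h0b, hg0, mul_zero, add_zero, one_pow, div_one]
  -- `|p l| ≤ 4`
  have hpl : ‖p * l‖ ≤ 4 := by
    have h1 : p * l ∈ KK (F 0) 1 := by
      intro z hz0 hz1 hcon
      rw [mul_assoc, ← hhF] at hcon
      have hzb : z ∈ ball (0 : ℂ) 1 := mem_ball_zero_iff.2 hz1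
      rcases hhval z hzb with h2 | h2
      · rw [h2, mul_zero] at hcon
        exact zero_ne_one hcon
      · apply h2
        rw [← eq_inv_of_mul_eq_one_left hcon]
        exact hp
    have h2 := norm_le_of_KK (hTow.diff 0) (hTow.inj 0) (hTow.zero 0) (hTow.one 0) one_pos le_rfl h1
    rwa [div_one] at h2
  -- pointwise bound
  have hpt : ∀ z ∈ ball (0 : ℂ) 1, (‖deriv g z‖ ^ 2)⁻¹ ≤
      (‖l‖ ^ 2)⁻¹ * (8 * ((‖deriv (F 0) z‖ ^ 2)⁻¹ + 256 * wt (F 0) z)) := by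
    intro z hz
    have hgne : deriv g z ≠ 0 := Pool.Agent.H83.Lo.deriv_ne_zero isOpen_ball hg hgi hz
    have hFne : deriv (F 0) z ≠ 0 :=
      Pool.Agent.H83.Lo.deriv_ne_zero isOpen_ball (hTow.diff 0) (hTow.inj 0) hz
    have hFpos : 0 < ‖deriv (F 0) z‖ := norm_pos_iff.2 hFne
    have h1 : (1 + p * g z) * (1 - p * h z) = 1 := by
      simp only [hh]
      have := hden z hz
      field_simp
      ring
    have h2 : deriv g z * (1 - p * h z) ^ 2 = l * deriv (F 0) z := by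
      rw [← hFder z hz, hhder z hz]
      have h3 := hden z hz
      rw [eq_div_iff (pow_ne_zero 2 h3), mul_assoc, ← mul_pow, mul_comm (1 - p * h z), h1, one_pow,
        mul_one]
    have h3 : ‖deriv g z‖ * ‖1 - p * h z‖ ^ 2 = ‖l‖ * ‖deriv (F 0) z‖ := by
      rw [← norm_pow, ← norm_mul, h2, norm_mul]
    have h4 : ‖1 - p * h z‖ ≤ 1 + 4 * ‖F 0 z‖ := by
      refine (norm_sub_le _ _).trans ?_
      rw [norm_one, hhF, ← mul_assoc, norm_mul]
      gcongr
    have h5 : ‖1 - p * h z‖ ^ 4 ≤ 8 * (1 + 256 * ‖F 0 z‖ ^ 4) := by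
      have h6 : ‖1 - p * h z‖ ^ 4 ≤ (1 + 4 * ‖F 0 z‖) ^ 4 := by gcongr
      refine h6.trans ?_
      have hx := norm_nonneg (F 0 z)
      set x := 4 * ‖F 0 z‖ with hxdef
      have h7 : (256 : ℝ) * ‖F 0 z‖ ^ 4 = x ^ 4 := by rw [hxdef]; ring
      rw [h7]
      have h8 : (1 + x) ^ 2 ≤ 2 * (1 + x ^ 2) := by nlinarith [sq_nonneg (1 - x)]
      have h9 : (1 + x ^ 2) ^ 2 ≤ 2 * (1 + x ^ 4) := by nlinarith [sq_nonneg (1 - x ^ 2)]
      calc (1 + x) ^ 4 = ((1 + x) ^ 2) ^ 2 := by ring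
        _ ≤ (2 * (1 + x ^ 2)) ^ 2 := by gcongr
        _ = 4 * (1 + x ^ 2) ^ 2 := by ring
        _ ≤ 4 * (2 * (1 + x ^ 4)) := by gcongr
        _ = 8 * (1 + x ^ 4) := by ring
    have hgpos : 0 < ‖deriv g z‖ := norm_pos_iff.2 hgne
    have h10 : (‖deriv g z‖ ^ 2)⁻¹ =
        (‖l‖ ^ 2)⁻¹ * ((‖deriv (F 0) z‖ ^ 2)⁻¹ * ‖1 - p * h z‖ ^ 4) := by
      have h11 : ‖deriv g z‖ ^ 2 * ‖1 - p * h z‖ ^ 4 = ‖l‖ ^ 2 * ‖deriv (F 0) z‖ ^ 2 := by
        calc _ = (‖deriv g z‖ * ‖1 - p * h z‖ ^ 2) ^ 2 := by ring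
          _ = _ := by rw [h3]; ring
      field_simp
      linarith
    rw [h10, wt]
    refine mul_le_mul_of_nonneg_left ?_ (by positivity)
    calc (‖deriv (F 0) z‖ ^ 2)⁻¹ * ‖1 - p * h z‖ ^ 4
        ≤ (‖deriv (F 0) z‖ ^ 2)⁻¹ * (8 * (1 + 256 * ‖F 0 z‖ ^ 4)) := by gcongr
      _ = 8 * ((‖deriv (F 0) z‖ ^ 2)⁻¹ + 256 * (‖F 0 z‖ ^ 4 / ‖deriv (F 0) z‖ ^ 2)) := by
          rw [div_eq_mul_inv]; ring
  -- averages
  have hsph : sphere (0 : ℂ) R ⊆ ball 0 1 := by
    intro z hz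
    rw [mem_sphere_zero_iff_norm] at hz
    rw [mem_ball_zero_iff, hz]
    exact hR1
  have hcont : ∀ {k : ℂ → ℂ}, DifferentiableOn ℂ k (ball 0 1) → InjOn k (ball 0 1) →
      CircleIntegrable (fun z => (‖deriv k z‖ ^ 2)⁻¹) 0 R := by
    intro k hk hki
    apply ContinuousOn.circleIntegrable hR0.le
    have h2 : ContinuousOn (deriv k) (ball 0 1) := (hk.deriv isOpen_ball).continuousOn
    have h3 : ContinuousOn (fun z => ‖deriv k z‖ ^ 2) (ball 0 1) := h2.norm.pow 2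
    refine (h3.inv₀ ?_).mono hsph
    intro z hz
    have := Pool.Agent.H83.Lo.deriv_ne_zero isOpen_ball hk hki hz
    positivity
  have hwi : CircleIntegrable (wt (F 0)) 0 R :=
    ContinuousOn.circleIntegrable hR0.le ((wt_cont (hTow.diff 0) (hTow.inj 0)).mono hsph)
  have hFi := hcont (hTow.diff 0) (hTow.inj 0)
  obtain ⟨hT1, hT2⟩ := hT d c' F hTow R hR0 hR1
  have hR1' : 0 < 1 - R := by linarith
  have hsum : CircleIntegrable (fun z => (‖deriv (F 0) z‖ ^ 2)⁻¹ + 256 * wt (F 0) z) 0 R := by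
    have h2 : CircleIntegrable ((256 : ℝ) • wt (F 0)) 0 R := hwi.const_smul
    exact hFi.add h2
  calc circleAverage (fun z => (‖deriv g z‖ ^ 2)⁻¹) 0 R
      ≤ circleAverage (((‖l‖ ^ 2)⁻¹ * 8) •
          (fun z => (‖deriv (F 0) z‖ ^ 2)⁻¹ + 256 * wt (F 0) z)) 0 R := by
        apply Real.circleAverage_mono (hcont hg hgi) hsum.const_smul
        intro z hz
        rw [abs_of_pos hR0] at hz
        have := hpt z (hsph hz)
        simp only [Pi.smul_apply, smul_eq_mul]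
        linarith
    _ = (‖l‖ ^ 2)⁻¹ * 8 * (circleAverage (fun z => (‖deriv (F 0) z‖ ^ 2)⁻¹) 0 R
          + 256 * circleAverage (wt (F 0)) 0 R) := by
        rw [Real.circleAverage_smul, smul_eq_mul]
        congr 1
        have h2 : CircleIntegrable ((256 : ℝ) • wt (F 0)) 0 R := hwi.const_smul
        have h3 := Real.circleAverage_add hFi h2
        rw [Real.circleAverage_smul, smul_eq_mul] at h3
        exact h3
    _ ≤ (‖l‖ ^ 2)⁻¹ * 8 * (C / (1 - R) + 256 * (C / (1 - R))) := by gcongr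
    _ = 8 * 257 * C / (‖deriv g 0‖ ^ 2 * (1 - R)) := by
        rw [← hlg]
        field_simp
        ring

/-- Integral means of `|f'| ^ (-2)` for conformal maps onto the Moebius images of the basins of
infinity of non-autonomous iterations of unicritical polynomials. -/
theorem main : ∃ C : ℝ, ∀ (d : ℕ → ℕ) (c : ℕ → ℂ), (∀ j, 2 ≤ d j) → (∀ j, (0 : ℂ) ∈ K d c j) →
    ∀ A B p : ℂ, B ≠ 0 → p ∈ K d c 0 → ∀ f : ℂ → ℂ, DifferentiableOn ℂ f (ball 0 1) →
    InjOn f (ball 0 1) → f '' ball 0 1 = basinImage d c A B p → ∀ a ∈ ball (0 : ℂ) 1, f a = A →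
    ∀ r : ℝ, 0 < r → r < 1 →
      (2 * Real.pi)⁻¹ * ∫ θ in (0 : ℝ)..2 * Real.pi, (‖deriv f (circleMap 0 r θ)‖ ^ 2)⁻¹ ≤
        C / ((1 - ‖a‖) ^ 6 * ‖deriv f a‖ ^ 2 * (1 - r)) := by
  obtain ⟨C, hC, hZ⟩ := main_zero
  refine ⟨16 * 4 * 4 * C, ?_⟩
  intro d c hd h0K A B p hB hp f hf hi him a ha hfa r h0 h1
  have ha' : ‖a‖ < 1 := mem_ball_zero_iff.1 ha
  have h0b : (0 : ℂ) ∈ ball (0 : ℂ) 1 := mem_ball_self one_pos
  have hBpos : 0 < ‖B‖ := norm_pos_iff.2 hB
  have hmb : MapsTo (mob a) (ball 0 1) (ball 0 1) := fun z hz =>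
    mem_ball_zero_iff.2 (mob_mem ha' (mem_ball_zero_iff.1 hz))
  have hma : ‖-a‖ < 1 := by rwa [norm_neg]
  have hmb' : MapsTo (mob (-a)) (ball 0 1) (ball 0 1) := fun z hz =>
    mem_ball_zero_iff.2 (mob_mem hma (mem_ball_zero_iff.1 hz))
  have hmd : ∀ {b : ℂ}, ‖b‖ < 1 → DifferentiableOn ℂ (mob b) (ball 0 1) := fun hb z hz =>
    (mob_hasDerivAt hb (mem_ball_zero_iff.1 hz)).differentiableAt.differentiableWithinAt
  have hinv1 : ∀ z ∈ ball (0 : ℂ) 1, mob a (mob (-a) z) = z := fun z hz =>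
    mob_inv ha' (mem_ball_zero_iff.1 hz)
  have hinv2 : ∀ z ∈ ball (0 : ℂ) 1, mob (-a) (mob a z) = z := fun z hz => by
    have := mob_inv hma (mem_ball_zero_iff.1 hz)
    rwa [neg_neg] at this
  -- the map with base point `0`
  set g : ℂ → ℂ := fun z => (f (mob a z) - A) / B with hg
  have hgd : DifferentiableOn ℂ g (ball 0 1) :=
    ((hf.comp (hmd ha') hmb).sub_const A).div_const B
  have hgi : InjOn g (ball 0 1) := by
    intro z hz w hw hzw
    simp only [hg] at hzw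
    have h2 : f (mob a z) = f (mob a w) := by
      have := (div_left_inj' hB).1 hzw
      exact sub_left_inj.1 this
    have h3 := hi (hmb hz) (hmb hw) h2
    rw [← hinv2 z hz, ← hinv2 w hw, h3]
  have hg0 : g 0 = 0 := by simp [hg, mob_zero, hfa]
  have hgim : ∀ w, w ∈ g '' ball 0 1 ↔ w = 0 ∨ ∃ z, z ∉ K d c 0 ∧ w = 1 / (z - p) := by
    intro w
    have key : w ∈ g '' ball 0 1 ↔ A + B * w ∈ f '' ball 0 1 := by
      constructor
      · rintro ⟨z, hz, rfl⟩
        refine ⟨mob a z, hmb hz, ?_⟩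
        simp only [hg]
        field_simp
        ring
      · rintro ⟨z, hz, hzw⟩
        refine ⟨mob (-a) z, hmb' hz, ?_⟩
        simp only [hg]
        rw [hinv1 z hz, hzw]
        field_simp
        ring
    rw [key, him]
    unfold basinImage
    rw [mem_ofPred_eq]
    apply or_congr
    · constructor
      · intro h2
        have h3 : B * w = 0 := by linear_combination h2
        rcases mul_eq_zero.1 h3 with h4 | h4
        · exact absurd h4 hB
        · exact h4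
      · rintro rfl
        ring
    · apply exists_congr
      intro z
      apply and_congr_right
      intro _
      constructor
      · intro h2
        have h3 : B * w = B * (1 / (z - p)) := by
          rw [div_eq_mul_one_div B] at h2
          linear_combination h2
        exact mul_left_cancel₀ hB h3
      · rintro rfl
        rw [div_eq_mul_one_div B]
  -- radii
  set t := ‖a‖ with ht
  have ht0 : 0 ≤ t := norm_nonneg a
  set R0 : ℝ := (r + t) / (1 + r * t) with hR0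
  have hden : 0 < 1 + r * t := by positivity
  have hR0' : 1 - R0 = (1 - r) * (1 - t) / (1 + r * t) := by
    rw [hR0]
    field_simp
    ring
  have hr1 : 0 < 1 - r := by linarith
  have ht1 : 0 < 1 - t := by linarith
  have hR0lt : R0 < 1 := by
    have : 0 < 1 - R0 := by rw [hR0']; positivity
    linarith
  have hR0ge : (1 - r) * (1 - t) / 2 ≤ 1 - R0 := by
    rw [hR0']
    apply div_le_div_of_nonneg_left (by positivity) hden
    nlinarith
  have hR0t : t ≤ R0 := by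
    rw [hR0, le_div_iff₀ hden]
    nlinarith [mul_nonneg h0.le (by nlinarith : (0 : ℝ) ≤ 1 - t ^ 2)]
  set R : ℝ := (1 + R0) / 2 with hR
  have hRgt : R0 < R := by rw [hR]; linarith
  have hR1 : R < 1 := by rw [hR]; linarith
  have hRpos : 0 < R := by linarith
  have hRt : (1 - t) / 2 ≤ R - t := by rw [hR]; linarith
  have h1R : (1 - r) * (1 - t) / 4 ≤ 1 - R := by rw [hR]; linarith
  -- derivatives
  have hfda : ∀ z ∈ ball (0 : ℂ) 1, HasDerivAt f (deriv f z) z := fun z hz =>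
    ((hf z hz).differentiableAt (isOpen_ball.mem_nhds hz)).hasDerivAt
  have hgder : ∀ z ∈ ball (0 : ℂ) 1,
      deriv g z = deriv f (mob a z) * ((1 - (‖a‖ : ℂ) ^ 2) / (1 + conj a * z) ^ 2) / B := by
    intro z hz
    have h2 := ((HasDerivAt.comp z (hfda _ (hmb hz))
      (mob_hasDerivAt ha' (mem_ball_zero_iff.1 hz))).sub_const A).div_const B
    exact h2.deriv
  have hg0der : deriv g 0 = deriv f a * (1 - (t : ℂ) ^ 2) / B := by
    rw [hgder 0 h0b, mob_zero, mul_zero, add_zero, one_pow, div_one]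
  have hgne : ∀ z ∈ ball (0 : ℂ) 1, deriv g z ≠ 0 := fun z hz =>
    Pool.Agent.H83.Lo.deriv_ne_zero isOpen_ball hgd hgi hz
  set G : ℂ → ℂ := fun z => (deriv g z)⁻¹ with hG
  have hGd : DifferentiableOn ℂ G (ball 0 1) := (hgd.deriv isOpen_ball).inv hgne
  have hGn : ∀ z, ‖G z‖ ^ 2 = (‖deriv g z‖ ^ 2)⁻¹ := by
    intro z
    simp only [hG]
    rw [norm_inv, inv_pow]
  have ht2 : 0 < 1 - t ^ 2 := by nlinarith
  -- `|f'| ^ (-2)` in terms of `G`
  have hpt : ∀ z ∈ ball (0 : ℂ) 1, (‖deriv f z‖ ^ 2)⁻¹ ≤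
      16 / (‖B‖ ^ 2 * (1 - t ^ 2) ^ 2) * ‖G ((z - a) / (1 - conj a * z))‖ ^ 2 := by
    intro z hz
    have e1 : (z - a) / (1 - conj a * z) = mob (-a) z := by
      unfold mob
      rw [map_neg]
      congr 1
      ring
    have hz' := hmb' hz
    have e3 : f =ᶠ[𝓝 z] fun z => A + B * g (mob (-a) z) := by
      filter_upwards [isOpen_ball.mem_nhds hz] with x hx
      simp only [hg]
      rw [hinv1 x hx]
      field_simp
      ring
    have e4 := (((hgd _ hz').differentiableAt (isOpen_ball.mem_nhds hz')).hasDerivAt.comp z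
      (mob_hasDerivAt hma (mem_ball_zero_iff.1 hz))).const_mul B |>.const_add A
    have e5 : deriv f z = B * (deriv g (mob (-a) z) *
        ((1 - (‖-a‖ : ℂ) ^ 2) / (1 + conj (-a) * z) ^ 2)) := by
      rw [e3.deriv_eq]
      exact e4.deriv
    have h3 := mob_norm_deriv hma (mem_ball_zero_iff.1 hz)
    rw [norm_neg, ← ht] at h3 e5
    have h4 : ‖B‖ * (‖deriv g (mob (-a) z)‖ * ((1 - t ^ 2) / 4)) ≤ ‖deriv f z‖ := by
      rw [e5, norm_mul, norm_mul]
      gcongr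
    have h5 : 0 < ‖deriv g (mob (-a) z)‖ := norm_pos_iff.2 (hgne _ hz')
    rw [e1, hGn]
    calc (‖deriv f z‖ ^ 2)⁻¹
        ≤ ((‖B‖ * (‖deriv g (mob (-a) z)‖ * ((1 - t ^ 2) / 4))) ^ 2)⁻¹ := by gcongr
      _ = 16 / (‖B‖ ^ 2 * (1 - t ^ 2) ^ 2) * (‖deriv g (mob (-a) z)‖ ^ 2)⁻¹ := by
          field_simp
          norm_num
  have hsph : ∀ {ρ : ℝ}, ρ < 1 → sphere (0 : ℂ) ρ ⊆ ball 0 1 := by
    intro ρ hρ z hz
    rw [mem_sphere_zero_iff_norm] at hz
    rw [mem_ball_zero_iff, hz]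
    exact hρ
  have hI1 : CircleIntegrable (fun z => (‖deriv f z‖ ^ 2)⁻¹) 0 r := by
    apply ContinuousOn.circleIntegrable h0.le
    have h2 : ContinuousOn (deriv f) (ball 0 1) := (hf.deriv isOpen_ball).continuousOn
    have h3 : ContinuousOn (fun z => ‖deriv f z‖ ^ 2) (ball 0 1) := h2.norm.pow 2
    refine (h3.inv₀ ?_).mono (hsph h1)
    intro z hz
    have := Pool.Agent.H83.Lo.deriv_ne_zero isOpen_ball hf hi hz
    positivity
  have hI2 : CircleIntegrable (fun z => ‖G ((z - a) / (1 - conj a * z))‖ ^ 2) 0 r := by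
    apply ContinuousOn.circleIntegrable h0.le
    have h2 : ContinuousOn (fun z => ‖G (mob (-a) z)‖ ^ 2) (ball 0 1) :=
      ((hGd.comp (hmd hma) hmb').continuousOn.norm.pow 2)
    refine (h2.congr ?_).mono (hsph h1)
    intro z _
    have e1 : (z - a) / (1 - conj a * z) = mob (-a) z := by
      unfold mob
      rw [map_neg]
      congr 1
      ring
    simp only [e1]
  have hav := avg_mobius hGd ha' h0 h1 hRgt hR1
  have hz := hZ d c hd h0K p hp g hgd hgi hg0 hgim R hRpos hR1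
  have hGn' : (fun w => ‖G w‖ ^ 2) = fun w => (‖deriv g w‖ ^ 2)⁻¹ := funext hGn
  rw [hGn'] at hav
  have hfpos : 0 < ‖deriv f a‖ :=
    norm_pos_iff.2 (Pool.Agent.H83.Lo.deriv_ne_zero isOpen_ball hf hi ha)
  have hg0n : ‖deriv g 0‖ = ‖deriv f a‖ * (1 - t ^ 2) / ‖B‖ := by
    have e1 : ‖(1 - (t : ℂ) ^ 2)‖ = 1 - t ^ 2 := by
      have : (1 - (t : ℂ) ^ 2) = ((1 - t ^ 2 : ℝ) : ℂ) := by push_cast; rfl
      rw [this, Complex.norm_real, Real.norm_of_nonneg ht2.le]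
    rw [hg0der, norm_div, norm_mul, e1]
  have h1R' : 0 < 1 - R := by linarith
  have hRt' : 0 < R - t := lt_of_lt_of_le (by positivity) hRt
  have hratio : (R + t) / (R - t) ≤ 4 / (1 - t) := by
    rw [div_le_div_iff₀ hRt' ht1]
    nlinarith
  have hstep : circleAverage (fun z => (‖deriv f z‖ ^ 2)⁻¹) 0 r ≤
      16 / (‖B‖ ^ 2 * (1 - t ^ 2) ^ 2) *
        (4 / (1 - t) * (C / (‖deriv g 0‖ ^ 2 * (1 - R)))) := by
    calc circleAverage (fun z => (‖deriv f z‖ ^ 2)⁻¹) 0 r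
        ≤ circleAverage ((16 / (‖B‖ ^ 2 * (1 - t ^ 2) ^ 2)) •
            (fun z => ‖G ((z - a) / (1 - conj a * z))‖ ^ 2)) 0 r := by
          apply Real.circleAverage_mono hI1 hI2.const_smul
          intro z hz
          rw [abs_of_pos h0] at hz
          exact hpt z (hsph h1 hz)
      _ = 16 / (‖B‖ ^ 2 * (1 - t ^ 2) ^ 2) *
            circleAverage (fun z => ‖G ((z - a) / (1 - conj a * z))‖ ^ 2) 0 r := by
          rw [Real.circleAverage_smul, smul_eq_mul]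
      _ ≤ 16 / (‖B‖ ^ 2 * (1 - t ^ 2) ^ 2) * ((R + t) / (R - t) *
            circleAverage (fun w => (‖deriv g w‖ ^ 2)⁻¹) 0 R) := by gcongr
      _ ≤ _ := by
          have hnn : 0 ≤ circleAverage (fun w => (‖deriv g w‖ ^ 2)⁻¹) 0 R :=
            Real.circleAverage_nonneg_of_nonneg (fun z _ => by positivity)
          gcongr
  have hfin : 16 / (‖B‖ ^ 2 * (1 - t ^ 2) ^ 2) *
        (4 / (1 - t) * (C / (‖deriv g 0‖ ^ 2 * (1 - R)))) ≤
      16 * 4 * 4 * C / ((1 - t) ^ 6 * ‖deriv f a‖ ^ 2 * (1 - r)) := by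
    have e1 : 16 / (‖B‖ ^ 2 * (1 - t ^ 2) ^ 2) *
        (4 / (1 - t) * (C / (‖deriv g 0‖ ^ 2 * (1 - R)))) =
        16 * 4 * C / ((1 - t ^ 2) ^ 4 * (1 - t) * ‖deriv f a‖ ^ 2 * (1 - R)) := by
      rw [hg0n]
      field_simp
    rw [e1]
    have e2 : (1 - t) ^ 6 * ‖deriv f a‖ ^ 2 * (1 - r) / 4 ≤
        (1 - t ^ 2) ^ 4 * (1 - t) * ‖deriv f a‖ ^ 2 * (1 - R) := by
      have h5 : (1 - t) ^ 4 ≤ (1 - t ^ 2) ^ 4 := by
        gcongr
        nlinarith
      calc (1 - t) ^ 6 * ‖deriv f a‖ ^ 2 * (1 - r) / 4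
          = (1 - t) ^ 4 * (1 - t) * ‖deriv f a‖ ^ 2 * ((1 - r) * (1 - t) / 4) := by ring
        _ ≤ (1 - t ^ 2) ^ 4 * (1 - t) * ‖deriv f a‖ ^ 2 * (1 - R) := by gcongr
    have e3 : 16 * 4 * 4 * C / ((1 - t) ^ 6 * ‖deriv f a‖ ^ 2 * (1 - r)) =
        16 * 4 * C / ((1 - t) ^ 6 * ‖deriv f a‖ ^ 2 * (1 - r) / 4) := by
      field_simp
    rw [e3]
    exact div_le_div_of_nonneg_left (by positivity) (by positivity) e2
  have hres := hstep.trans hfin
  rw [Real.circleAverage_def, smul_eq_mul] at hres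
  exact hres

end Pool.Agent.H58.BR
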