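import Pool.Agent.H58.BR.Pot

/-!
# Project BR (MP_f801da_an), row BR-7: the product of the one-step estimates
-/

set_option autoImplicit false

namespace Pool.Agent.H58.BR

theorem br7_MM_nonneg (d e : ℕ) : 0 ≤ MM d e := by
  unfold MM
  split_ifs <;> positivity

theorem br7_psi_pos {d : ℕ} (hd : 2 ≤ d) : 0 < psi d := by
  unfold psi
  have : (0 : ℝ) < d := by exact_mod_cast (by omega : 0 < d)
  positivity

theorem br7_DD_succ (d : ℕ → ℕ) (n : ℕ) : DD d (n + 1) = DD d n * d n :=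
  Finset.prod_range_succ _ _

theorem br7_DD_pos {d : ℕ → ℕ} (hd : ∀ j, 2 ≤ d j) (n : ℕ) : 0 < DD d n :=
  Finset.prod_pos fun i _ => by have := hd i; omega

/-- the exponent lies between `0` and `2 / d m` -/
theorem br7_exp {d : ℕ → ℕ} (hd : ∀ j, 2 ≤ d j) (m : ℕ) :
    0 ≤ 2 / (d m : ℝ) - 2 / (DD d (m + 1) : ℝ) ∧
      2 / (d m : ℝ) - 2 / (DD d (m + 1) : ℝ) ≤ 2 / (d m : ℝ) := by
  have h1 : (0 : ℝ) < d m := by exact_mod_cast (by have := hd m; omega : 0 < d m)
  have h2 : (d m : ℝ) ≤ (DD d (m + 1) : ℝ) := by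
    rw [br7_DD_succ]
    exact_mod_cast Nat.le_mul_of_pos_left _ (br7_DD_pos hd m)
  have h3 : (0 : ℝ) < (DD d (m + 1) : ℝ) := lt_of_lt_of_le h1 h2
  constructor
  · rw [sub_nonneg]
    exact div_le_div_of_nonneg_left (by norm_num) h1 h2
  · have : (0 : ℝ) ≤ 2 / (DD d (m + 1) : ℝ) := by positivity
    linarith

theorem pot_prod {d : ℕ → ℕ} (hd : ∀ j, 2 ≤ d j) {q : ℕ → ℝ} {n : ℕ}
    (hq0 : ∀ j, 0 < q j) (hq : ∀ j < n, q j ≤ kap (d j) * q (j + 1) ^ (1 / (d j : ℝ))) (m : ℕ)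
    (hm : m < n) :
    ∏ j ∈ Finset.range m, (MM (d j) (d (j + 1)) * q (j + 2) ^ (al (d j) / d (j + 1))) ≤
      DD d m * (psi (d 0) / psi (d m)) *
        q (m + 1) ^ (2 / (d m : ℝ) - 2 / (DD d (m + 1) : ℝ)) := by
  induction m with
  | zero =>
    have h1 : DD d 0 = 1 := rfl
    have h2 : DD d (0 + 1) = d 0 := by rw [br7_DD_succ, h1, one_mul]
    rw [h1, h2, sub_self, Real.rpow_zero, div_self (br7_psi_pos (hd 0)).ne']
    simp
  | succ m ih =>
    have ih' := ih (by omega)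
    have hqm : 0 < q (m + 2) := hq0 _
    have hqm1 : 0 < q (m + 1) := hq0 _
    have hd1 : (0 : ℝ) < d (m + 1) := by
      exact_mod_cast (by have := hd (m + 1); omega : 0 < d (m + 1))
    have hdm : (0 : ℝ) < d m := by
      exact_mod_cast (by have := hd m; omega : 0 < d m)
    have hD1 : (0 : ℝ) < (DD d (m + 1) : ℝ) := by exact_mod_cast br7_DD_pos hd (m + 1)
    have hDm : (0 : ℝ) < (DD d m : ℝ) := by exact_mod_cast br7_DD_pos hd m
    have hp0 := br7_psi_pos (hd 0)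
    have hpm := br7_psi_pos (hd m)
    have hpm1 := br7_psi_pos (hd (m + 1))
    have hk : 0 ≤ kap (d (m + 1)) := le_trans zero_le_one (kap_ge _)
    obtain ⟨he0, he1⟩ := br7_exp hd m
    set w : ℝ := 2 / (d m : ℝ) - 2 / (DD d (m + 1) : ℝ) with hw
    have hstep := pot_step (hd m) (hd (m + 1)) he0 he1
    have hq1 : q (m + 1) ^ w ≤
        kap (d (m + 1)) ^ w * q (m + 2) ^ (w / d (m + 1)) := by
      have h1 := Real.rpow_le_rpow hqm1.le (hq (m + 1) hm) he0
      refine h1.trans (le_of_eq ?_)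
      rw [Real.mul_rpow hk (by positivity), ← Real.rpow_mul hqm.le]
      congr 2
      ring
    have hexp : w / d (m + 1) + al (d m) / d (m + 1) =
        2 / (d (m + 1) : ℝ) - 2 / (DD d (m + 1 + 1) : ℝ) := by
      rw [br7_DD_succ d (m + 1), hw]
      unfold al
      push_cast
      field_simp
      ring
    rw [Finset.prod_range_succ]
    have hF : 0 ≤ MM (d m) (d (m + 1)) * q (m + 2) ^ (al (d m) / d (m + 1)) :=
      mul_nonneg (br7_MM_nonneg _ _) (by positivity)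
    refine (mul_le_mul_of_nonneg_right ih' hF).trans ?_
    have hA : 0 ≤ (DD d m : ℝ) * (psi (d 0) / psi (d m)) := by positivity
    calc (DD d m : ℝ) * (psi (d 0) / psi (d m)) * q (m + 1) ^ w *
          (MM (d m) (d (m + 1)) * q (m + 2) ^ (al (d m) / d (m + 1)))
        ≤ (DD d m : ℝ) * (psi (d 0) / psi (d m)) *
          (kap (d (m + 1)) ^ w * q (m + 2) ^ (w / d (m + 1))) *
          (MM (d m) (d (m + 1)) * q (m + 2) ^ (al (d m) / d (m + 1))) :=
          mul_le_mul_of_nonneg_right (mul_le_mul_of_nonneg_left hq1 hA) hF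
      _ = (DD d m : ℝ) * (psi (d 0) / psi (d m)) *
          ((MM (d m) (d (m + 1)) * kap (d (m + 1)) ^ w) *
          q (m + 2) ^ (2 / (d (m + 1) : ℝ) - 2 / (DD d (m + 1 + 1) : ℝ))) := by
          rw [← hexp, Real.rpow_add hqm]
          ring
      _ ≤ (DD d m : ℝ) * (psi (d 0) / psi (d m)) *
          ((d m * (psi (d m) / psi (d (m + 1)))) *
          q (m + 2) ^ (2 / (d (m + 1) : ℝ) - 2 / (DD d (m + 1 + 1) : ℝ))) :=
          mul_le_mul_of_nonneg_left
            (mul_le_mul_of_nonneg_right hstep (by positivity)) hA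
      _ = (DD d (m + 1) : ℝ) * (psi (d 0) / psi (d (m + 1))) *
          q (m + 1 + 1) ^ (2 / (d (m + 1) : ℝ) - 2 / (DD d (m + 1 + 1) : ℝ)) := by
          rw [br7_DD_succ d m]
          push_cast
          field_simp

end Pool.Agent.H58.BR
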